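import Pool.Agent.Lib.SX.Mon

/-!
# Card: cardinalities (about 80 lines)

A continuous map is determined by its values on a countable dense set, so for separable `A`: `#{f : A → Cs // Continuous f} ≤ #(ℕ → Cs) = 𝔠` (`TopologicalSpace.denseSeq`,
`Continuous.ext_on`, `Cardinal.mk_le_of_injective`); the same for values in `ℕ`. `SM` injects into the continuous maps `Cs → Cs` (`SM.continuous`, `SM.ext`).
`ℕ → T` has cardinality `≤ 𝔠 ^ ℵ₀ = 𝔠`.
-/

set_option autoImplicit false

namespace Pool.Agent.SX

open Cardinal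

private theorem card_fun {T : Type} (h : #T ≤ 𝔠) : #(ℕ → T) ≤ 𝔠 := by
  rw [← Cardinal.power_def, Cardinal.mk_nat]
  exact (Cardinal.power_le_power_right h).trans Cardinal.continuum_power_aleph0.le

private theorem card_gen (A Y : Type) [TopologicalSpace A] [TopologicalSpace.SeparableSpace A]
    [Nonempty A] [TopologicalSpace Y] [T2Space Y] (h : #Y ≤ 𝔠) :
    #{f : A → Y // Continuous f} ≤ 𝔠 := by
  refine le_trans (Cardinal.mk_le_of_injective
    (f := fun f : {f : A → Y // Continuous f} => fun n : ℕ => f.1 (TopologicalSpace.denseSeq A n))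
    ?_) (card_fun h)
  intro f g hfg
  apply Subtype.ext
  refine Continuous.ext_on (TopologicalSpace.denseRange_denseSeq A) f.2 g.2 ?_
  rintro _ ⟨n, rfl⟩
  exact congrFun hfg n

private theorem card_Cs : #Cs ≤ 𝔠 := by
  refine card_fun ?_
  rw [Cardinal.mk_bool]
  exact (Cardinal.natCast_lt_aleph0 (n := 2)).le.trans Cardinal.aleph0_le_continuum

theorem card_cont (A : Type) [TopologicalSpace A] [TopologicalSpace.SeparableSpace A] [Nonempty A] :
    #{f : A → Cs // Continuous f} ≤ 𝔠 := by
  exact card_gen A Cs card_Cs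

theorem card_cont_nat (A : Type) [TopologicalSpace A] [TopologicalSpace.SeparableSpace A] [Nonempty A] :
    #{f : A → ℕ // Continuous f} ≤ 𝔠 := by
  refine card_gen A ℕ ?_
  rw [Cardinal.mk_nat]
  exact Cardinal.aleph0_le_continuum

theorem card_SM : #SM ≤ 𝔠 := by
  refine le_trans (Cardinal.mk_le_of_injective
    (f := fun k : SM => (⟨k.f, k.continuous⟩ : {f : Cs → Cs // Continuous f})) ?_)
    (card_cont Cs)
  intro h k hk
  exact SM.ext fun x => congrFun (congrArg Subtype.val hk) x

theorem card_seq {T : Type} (h : #T ≤ 𝔠) : #(ℕ → T) ≤ 𝔠 := by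
  exact card_fun h

theorem card_prod {T T' : Type} (h : #T ≤ 𝔠) (h' : #T' ≤ 𝔠) : #(T × T') ≤ 𝔠 := by
  rw [Cardinal.mk_prod, Cardinal.lift_id, Cardinal.lift_id]
  exact (mul_le_mul' h h').trans Cardinal.continuum_mul_self.le

end Pool.Agent.SX
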