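import Pool.Agent.Lib.SX.Mon

/-!
# Fini: neighbourhoods in the product space (about 110 lines)

The sets `{y | ∀ i ∈ F, Ag n (x i) (y i)}` (`F` finite) form a neighbourhood basis of `x` in `K → Cs` (product topology;
`isOpen_pi_iff`, `mem_nhds_pi` or a direct argument; for `Cs` the sets `{y | Ag n x y}` form a neighbourhood basis).
`open_nbhd`: the basis property. `isOpen_box`: these sets are open. `unif`: compactness of `K → Cs` (`isCompact_univ`,
`IsCompact.elim_nhds_subcover`): cover by boxes on which `φ` is constant, take the union of the finite sets and the maximum of the numbers.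
`dep`: for `b : (K → Cs) → (κ → Cs)` with `κ` countable: apply `unif` to `x ↦ b x j n` for all `j : κ`, `n : ℕ` and take the
countable union of the finite sets (two functions which agree on `F` satisfy `Ag n` for all `n` there).
-/

set_option autoImplicit false

namespace Pool.Agent.SX

variable {K : Type}

private theorem fini_open (n : ℕ) (a : Cs) : IsOpen {z : Cs | Ag n a z} := by
  have h3 : {z : Cs | Ag n a z} = ⋂ k ∈ Finset.range n, {z : Cs | a k = z k} := by
    ext y
    simp [Ag]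
  rw [h3]
  refine isOpen_biInter_finset fun k _ => ?_
  exact (isOpen_discrete ({b | a k = b} : Set Bool)).preimage (continuous_apply k)

private theorem fini_nbhd {U : Set Cs} (hU : IsOpen U) {a : Cs} (ha : a ∈ U) :
    ∃ n : ℕ, ∀ z : Cs, Ag n a z → z ∈ U := by
  obtain ⟨I, u, h1, h2⟩ := isOpen_pi_iff.1 hU a ha
  refine ⟨I.sup id + 1, fun z hz => h2 fun k hk => ?_⟩
  have h3 : k ≤ I.sup id := Finset.le_sup (f := id) hk
  rw [← hz k (by omega)]
  exact (h1 k hk).2

theorem isOpen_box (F : Finset K) (n : ℕ) (x : K → Cs) : IsOpen {y : K → Cs | ∀ i ∈ F, Ag n (x i) (y i)} := by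
  have h : {y : K → Cs | ∀ i ∈ F, Ag n (x i) (y i)} =
      ⋂ i ∈ F, (fun y : K → Cs => y i) ⁻¹' {z | Ag n (x i) z} := by
    ext y
    simp
  rw [h]
  exact isOpen_biInter_finset fun i _ => (fini_open n (x i)).preimage (continuous_apply i)

theorem open_nbhd {O : Set (K → Cs)} (hO : IsOpen O) {x : K → Cs} (hx : x ∈ O) :
    ∃ (F : Finset K) (n : ℕ), ∀ y : K → Cs, (∀ i ∈ F, Ag n (x i) (y i)) → y ∈ O := by
  obtain ⟨I, u, h1, h2⟩ := isOpen_pi_iff.1 hO x hx
  have h3 : ∀ i : K, ∃ n : ℕ, i ∈ I → ∀ z : Cs, Ag n (x i) z → z ∈ u i := by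
    intro i
    by_cases hi : i ∈ I
    · obtain ⟨n, hn⟩ := fini_nbhd (h1 i hi).1 (h1 i hi).2
      exact ⟨n, fun _ => hn⟩
    · exact ⟨0, fun h => absurd h hi⟩
  choose n hn using h3
  refine ⟨I, I.sup n, fun y hy => h2 fun i hi => ?_⟩
  exact hn i hi _ ((hy i hi).mono (Finset.le_sup (f := n) hi))

theorem unif {T : Type} [TopologicalSpace T] [DiscreteTopology T] {φ : (K → Cs) → T} (hφ : Continuous φ) :
    ∃ (F : Finset K) (n : ℕ), ∀ x y : K → Cs, (∀ i ∈ F, Ag n (x i) (y i)) → φ x = φ y := by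
  classical
  have h1 : ∀ x : K → Cs, ∃ (F : Finset K) (n : ℕ), ∀ y : K → Cs, (∀ i ∈ F, Ag n (x i) (y i)) →
      φ y = φ x := by
    intro x
    obtain ⟨F, n, h⟩ := open_nbhd ((isOpen_discrete ({φ x} : Set T)).preimage hφ)
      (x := x) rfl
    exact ⟨F, n, fun y hy => h y hy⟩
  choose F n hF using h1
  obtain ⟨t, -, ht⟩ := (isCompact_univ (X := K → Cs)).elim_nhds_subcover
    (fun x => {y | ∀ i ∈ F x, Ag (n x) (x i) (y i)})
    (fun x _ => (isOpen_box (F x) (n x) x).mem_nhds fun i _ => Ag.refl _ _)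
  refine ⟨t.biUnion F, t.sup n, fun x y hxy => ?_⟩
  obtain ⟨z, hz, hxz⟩ := Set.mem_iUnion₂.1 (ht (Set.mem_univ x))
  rw [hF z x hxz, hF z y fun i hi => ?_]
  exact (hxz i hi).trans ((hxy i (Finset.mem_biUnion.2 ⟨z, hz, hi⟩)).mono (Finset.le_sup (f := n) hz))

/-- the first `N` values of a continuous function -/
theorem unif_Ag {b : (K → Cs) → Cs} (hb : Continuous b) (N : ℕ) :
    ∃ (F : Finset K) (n : ℕ), ∀ x y : K → Cs, (∀ i ∈ F, Ag n (x i) (y i)) → Ag N (b x) (b y) := by
  classical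
  have h1 : ∀ k : ℕ, ∃ (F : Finset K) (n : ℕ), ∀ x y : K → Cs, (∀ i ∈ F, Ag n (x i) (y i)) →
      b x k = b y k := fun k => unif ((continuous_apply k).comp hb)
  choose F n hF using h1
  refine ⟨(Finset.range N).biUnion F, (Finset.range N).sup n, fun x y hxy k hk => ?_⟩
  refine hF k x y fun i hi => ?_
  exact (hxy i (Finset.mem_biUnion.2 ⟨k, Finset.mem_range.2 hk, hi⟩)).mono
    (Finset.le_sup (f := n) (Finset.mem_range.2 hk))

/-- a continuous function depends on countably many coordinates -/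
theorem dep {b : (K → Cs) → Cs} (hb : Continuous b) :
    ∃ I : Set K, I.Countable ∧ ∀ x y : K → Cs, (∀ i ∈ I, x i = y i) → b x = b y := by
  have h1 : ∀ k : ℕ, ∃ (F : Finset K) (n : ℕ), ∀ x y : K → Cs, (∀ i ∈ F, Ag n (x i) (y i)) →
      b x k = b y k := fun k => unif ((continuous_apply k).comp hb)
  choose F n hF using h1
  refine ⟨⋃ k, (F k : Set K), Set.countable_iUnion fun k => (F k).countable_toSet, fun x y hxy => ?_⟩
  funext k
  refine hF k x y fun i hi => ?_
  rw [hxy i (Set.mem_iUnion.2 ⟨k, hi⟩)]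
  exact Ag.refl _ _

theorem dep_nat {b : (K → Cs) → ℕ} (hb : Continuous b) :
    ∃ I : Set K, I.Countable ∧ ∀ x y : K → Cs, (∀ i ∈ I, x i = y i) → b x = b y := by
  obtain ⟨F, n, hF⟩ := unif hb
  refine ⟨(F : Set K), F.countable_toSet, fun x y hxy => hF x y fun i hi => ?_⟩
  rw [hxy i hi]
  exact Ag.refl _ _

end Pool.Agent.SX
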