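import Pool.Agent.Lib.SX.Mon

/-!
# InjX: enumerations of countable sets, reading a function through an enumeration (about 80 lines)

`exists_enum`: `K` is infinite, so there is a countably infinite set `J ⊇ I ∪ {γ}` (`Set.Countable.exists_..` or the union with the range of an injection `ℕ → K`); it has a bijection with `ℕ` (`Denumerable`), compose with a swap to get `j 0 = γ`.
`read`: let `ex : (ℕ → Cs) → (K → Cs)`, `ex y i = y n` if `j n = i` (unique `n`), constant `false` otherwise; it is continuous (coordinatewise), `φ' = φ ∘ ex`; `ex (x ∘ j)` and `x` agree on the range of `j`.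
-/

set_option autoImplicit false

namespace Pool.Agent.SX

open Cardinal

variable {K : Type}

theorem exists_enum (hK : 𝔠 < #K) {I : Set K} (hI : I.Countable) (γ : K) :
    ∃ j : ℕ → K, Function.Injective j ∧ j 0 = γ ∧ ∀ i ∈ I, ∃ n, j n = i := by
  classical
  haveI : Infinite K := by
    rw [infinite_iff]
    exact (aleph0_le_continuum.trans hK.le)
  have hJ : ((I ∪ {γ}) ∪ Set.range (Infinite.natEmbedding K)).Countable :=
    (hI.union (Set.countable_singleton γ)).union (Set.countable_range _)
  have hJi : ((I ∪ {γ}) ∪ Set.range (Infinite.natEmbedding K)).Infinite :=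
    (Set.infinite_range_of_injective (Infinite.natEmbedding K).injective).mono Set.subset_union_right
  haveI := hJ.to_subtype
  haveI := hJi.to_subtype
  obtain ⟨D⟩ := nonempty_denumerable ↥((I ∪ {γ}) ∪ Set.range (Infinite.natEmbedding K))
  have hγ : γ ∈ ((I ∪ {γ}) ∪ Set.range (Infinite.natEmbedding K)) := Or.inl (Or.inr rfl)
  let f : ℕ ≃ ↥((I ∪ {γ}) ∪ Set.range (Infinite.natEmbedding K)) :=
    (Denumerable.eqv ↥((I ∪ {γ}) ∪ Set.range (Infinite.natEmbedding K))).symm
  let g : ℕ ≃ ↥((I ∪ {γ}) ∪ Set.range (Infinite.natEmbedding K)) := (Equiv.swap 0 (f.symm ⟨γ, hγ⟩)).trans f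
  refine ⟨fun n => (g n : K), Subtype.val_injective.comp g.injective, ?_, fun i hi => ⟨g.symm ⟨i, Or.inl (Or.inl hi)⟩, ?_⟩⟩
  · show ((f (Equiv.swap 0 (f.symm ⟨γ, hγ⟩) 0) : _) : K) = γ
    rw [Equiv.swap_apply_left, Equiv.apply_symm_apply]
  · show ((g (g.symm ⟨i, Or.inl (Or.inl hi)⟩) : _) : K) = i
    rw [Equiv.apply_symm_apply]

theorem read {A : Type} [TopologicalSpace A] {φ : (K → Cs) → A} (hφ : Continuous φ) {j : ℕ → K}
    (hj : Function.Injective j) (hd : ∀ x y : K → Cs, (∀ n, x (j n) = y (j n)) → φ x = φ y) :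
    ∃ φ' : (ℕ → Cs) → A, Continuous φ' ∧ ∀ x, φ x = φ' fun n => x (j n) := by
  classical
  let ex : (ℕ → Cs) → K → Cs := fun y i => if h : ∃ n, j n = i then y h.choose else fun _ => false
  have hex : Continuous ex := by
    refine continuous_pi fun i => ?_
    by_cases h : ∃ n, j n = i
    · have h1 : (fun y : ℕ → Cs => ex y i) = fun y => y h.choose := by
        funext y
        exact dif_pos h
      rw [h1]
      exact continuous_apply _
    · have h1 : (fun y : ℕ → Cs => ex y i) = fun _ => fun _ => false := by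
        funext y
        exact dif_neg h
      rw [h1]
      exact continuous_const
  refine ⟨φ ∘ ex, hφ.comp hex, fun x => hd _ _ fun n => ?_⟩
  have h : ∃ m, j m = j n := ⟨n, rfl⟩
  have h1 : ex (fun n => x (j n)) (j n) = x (j h.choose) := dif_pos h
  rw [h1, h.choose_spec]

end Pool.Agent.SX
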