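import Pool.Agent.Lib.SX.Defs

/-!
# Refl: reflection (about 130 lines)

Suppose not. Then for every `t : T`, `R : Set ℕ`, `ρ : ℕ → K` there is a bad set `Bad t R ρ : Set K` of cardinality `≤ 𝔠`: there is no `Z ⊇ Bad t R ρ` with `#Z ≤ 𝔠`,
`t Z = t`, `j Z n = ρ n` for `n ∈ R`, `j Z n ∉ Z` for `n ∉ R`. Fix `k0 : K` (K is nonempty, it is infinite; `hK`). Closure: there is `Z* ∋ k0` with `#Z* ≤ 𝔠` such that for all `t`, `R` and all `ρ : ℕ → K` with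
all values in `Z*`: `Bad t R ρ ⊆ Z*`. (For each `(t, R, ρ)` let `g t R ρ : Cs → K` have range containing `Bad t R ρ` and contained in `Bad t R ρ ∪ {k0}` (a nonempty set of cardinality
`≤ 𝔠` is the range of a function on `Cs`). Let `W` be the W-type with shapes `Option (T × Set ℕ × Cs)` and arities `Empty` for `none`, `ℕ` for `some _`; `ev : W → K`, `ev (none) = k0`,
`ev (some (t, R, c), f) = g t R (fun n => ev (f n)) c`. `Z* = range ev`, `#W ≤ 𝔠` by `WType.cardinalMk_le_of_le'` (`𝔠 ^ ℵ₀ = 𝔠`, `𝔠 * 𝔠 = 𝔠`, `#(T × Set ℕ × Cs) ≤ 𝔠`).)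
Now let `t := t Z*`, `R := {n | j Z* n ∈ Z*}`, `ρ n := j Z* n` for `n ∈ R`, `k0` otherwise. Then `Bad t R ρ ⊆ Z*` and `Z*` contradicts the badness.
-/

set_option autoImplicit false

namespace Pool.Agent.SX

open Cardinal

theorem refl' {K T : Type} (hK : 𝔠 < #K) (hT : #T ≤ 𝔠) (t : Set K → T) (j : Set K → ℕ → K) :
    ∃ (t0 : T) (R : Set ℕ) (ρ : ℕ → K), ∀ Z0 : Set K, #Z0 ≤ 𝔠 → ∃ Z : Set K, #Z ≤ 𝔠 ∧ Z0 ⊆ Z ∧ t Z = t0 ∧
      (∀ n ∈ R, j Z n = ρ n) ∧ ∀ n, n ∉ R → j Z n ∉ Z := by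
  classical
  by_contra hcon
  push Not at hcon
  choose Bad hBadc hBad using hcon
  obtain ⟨k0⟩ : Nonempty K := by
    rw [← Cardinal.mk_ne_zero_iff]
    exact (lt_of_le_of_lt zero_le hK).ne'
  have hset : #(Set ℕ) = 𝔠 := by
    rw [Cardinal.mk_set, Cardinal.mk_nat, Cardinal.two_power_aleph0]
  have hg : ∀ (t0 : T) (R : Set ℕ) (ρ : ℕ → K), ∃ g : Set ℕ → K, Bad t0 R ρ ⊆ Set.range g := by
    intro t0 R ρ
    have h1 : #(Bad t0 R ρ) ≤ #(Set ℕ) := by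
      rw [hset]
      exact hBadc t0 R ρ
    obtain ⟨f⟩ := Cardinal.le_def _ _ |>.1 h1
    refine ⟨Function.extend f Subtype.val (fun _ => k0), ?_⟩
    intro b hb
    exact ⟨f ⟨b, hb⟩, f.injective.extend_apply _ _ _⟩
  choose g hg using hg
  let Sh : Type := Option (T × Set ℕ × Set ℕ)
  let Ar : Sh → Type := fun s => Option.rec Empty (fun _ => ℕ) s
  let ev : WType Ar → K := WType.elim K (fun p => match p with
    | ⟨none, _⟩ => k0
    | ⟨some x, f⟩ => g x.1 x.2.1 f x.2.2)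
  have hW : #(WType Ar) ≤ 𝔠 := by
    refine WType.cardinalMk_le_of_le' ?_
    have h1 : ∀ a : Sh, (𝔠 : Cardinal) ^ #(Ar a) ≤ 𝔠 := by
      intro a
      rcases a with _ | x
      · show (𝔠 : Cardinal) ^ #Empty ≤ 𝔠
        rw [Cardinal.mk_empty, Cardinal.power_zero]
        exact Cardinal.one_le_aleph0.trans Cardinal.aleph0_le_continuum
      · show (𝔠 : Cardinal) ^ #ℕ ≤ 𝔠
        rw [Cardinal.mk_nat, Cardinal.continuum_power_aleph0]
    have h2 : #Sh ≤ 𝔠 := by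
      show #(Option (T × Set ℕ × Set ℕ)) ≤ 𝔠
      rw [Cardinal.mk_option, Cardinal.mk_prod, Cardinal.mk_prod, hset]
      simp only [Cardinal.lift_id]
      rw [Cardinal.continuum_mul_self]
      calc #T * 𝔠 + 1 ≤ 𝔠 * 𝔠 + 1 := by gcongr
        _ = 𝔠 + 1 := by rw [Cardinal.continuum_mul_self]
        _ = 𝔠 := Cardinal.add_one_eq Cardinal.aleph0_le_continuum
    simp only [Cardinal.lift_id]
    calc (Cardinal.sum fun a : Sh => 𝔠 ^ #(Ar a)) ≤ Cardinal.sum fun _ : Sh => 𝔠 :=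
          Cardinal.sum_le_sum _ _ h1
      _ = #Sh * 𝔠 := by rw [Cardinal.sum_const']
      _ ≤ 𝔠 * 𝔠 := by gcongr
      _ = 𝔠 := Cardinal.continuum_mul_self
  set Zs : Set K := Set.range ev with hZs
  have hZc : #Zs ≤ 𝔠 := Cardinal.mk_range_le.trans hW
  have hk0 : k0 ∈ Zs := ⟨WType.mk none (fun e => Empty.elim e), rfl⟩
  let ρ : ℕ → K := fun n => if j Zs n ∈ Zs then j Zs n else k0
  have hρ : ∀ n, ∃ w : WType Ar, ev w = ρ n := by
    intro n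
    by_cases h : j Zs n ∈ Zs
    · obtain ⟨w, hw⟩ := h
      refine ⟨w, ?_⟩
      show ev w = if j Zs n ∈ Zs then j Zs n else k0
      rw [if_pos ⟨w, hw⟩, hw]
    · obtain ⟨w, hw⟩ := hk0
      refine ⟨w, ?_⟩
      show ev w = if j Zs n ∈ Zs then j Zs n else k0
      rw [if_neg h, hw]
  choose f hf using hρ
  have hsub : Bad (t Zs) {n | j Zs n ∈ Zs} ρ ⊆ Zs := by
    intro b hb
    obtain ⟨c, hc⟩ := hg (t Zs) {n | j Zs n ∈ Zs} ρ hb
    refine ⟨WType.mk (some (t Zs, {n | j Zs n ∈ Zs}, c)) f, ?_⟩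
    show g (t Zs) {n | j Zs n ∈ Zs} (fun n => ev (f n)) c = b
    rw [← hc]
    congr 1
    funext n
    exact hf n
  obtain ⟨n, hn1, hn2⟩ := hBad (t Zs) {n | j Zs n ∈ Zs} ρ Zs hZc hsub rfl (by
    intro n hn
    have hn' : j Zs n ∈ Zs := hn
    show j Zs n = if j Zs n ∈ Zs then j Zs n else k0
    rw [if_pos hn'])
  exact hn1 hn2

end Pool.Agent.SX
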