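import Pool.Agent.Lib.SX.SDefs

/-!
# TpL: conditions given by a sequence, and their unions (about 140 lines)

`tp_at`: `Exists.choose_spec` and injectivity. `un`: define `h2` at `i`: if `∃ l n, n ∉ R ∧ J l n = i` then `T n` (the pair `(l, n)` is unique by `A.dis`, `A.inj`; choose), otherwise `(rt ρ R T * k1).1 i`. Support: countable
(contained in the countable union of the ranges and the support of `rt ρ R T * k1`). First part: `m` = `T n` at the new places, `1` elsewhere; at a new place `(rt ρ R T * k1).1 i = 1` (`avr`, `hk`). Second part, for `l`: `m` at `i`: if `i = J l n` (unique `n`) then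
`k1.1 i`, otherwise `h2.1 i`. At `i = J l n`, `n ∉ R`: `k1.1 i = 1` and `h2.1 i = T n = (tp (J l) T).1 i`. At `i = J l n = ρ n`, `n ∈ R`: `h2.1 i = T n * k1.1 i` (`rt_at`; `i` is not a new place by `avr`). Otherwise `(tp (J l) T).1 i = 1` (`tp_off`).
-/

set_option autoImplicit false

namespace Pool.Agent.SX

open Pool.Agent.Mart Cardinal

variable {K : Type}

theorem tp_at {j : ℕ → K} (hj : Function.Injective j) (T : ℕ → SM) (n : ℕ) : (tp j T).1 (j n) = T n := by
  have h : ∃ m, j m = j n := ⟨n, rfl⟩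
  exact (dif_pos h).trans (congrArg T (hj h.choose_spec))

theorem tp_off {j : ℕ → K} (T : ℕ → SM) {i : K} (h : ∀ n, j n ≠ i) : (tp j T).1 i = 1 :=
  dif_neg fun hc => h hc.choose hc.choose_spec

theorem rt_at {ρ : ℕ → K} {R : Set ℕ} (hρ : Set.InjOn ρ R) (T : ℕ → SM) {n : ℕ} (hn : n ∈ R) :
    (rt ρ R T).1 (ρ n) = T n := by
  have h : ∃ m, m ∈ R ∧ ρ m = ρ n := ⟨n, hn, rfl⟩
  exact (dif_pos h).trans (congrArg T (hρ h.choose_spec.1 hn h.choose_spec.2))

theorem rt_off {ρ : ℕ → K} {R : Set ℕ} (T : ℕ → SM) {i : K} (h : ∀ n ∈ R, ρ n ≠ i) : (rt ρ R T).1 i = 1 :=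
  dif_neg fun hc => h hc.choose hc.choose_spec.1 hc.choose_spec.2

theorem un {R : Set ℕ} {ρ : ℕ → K} {Z0 : Set K} {J : ℕ → ℕ → K} (A : Apart R ρ Z0 J) (T : ℕ → SM) (k1 : PM K)
    (hk : ∀ l n, n ∉ R → k1.1 (J l n) = 1) :
    ∃ h2 : PM K, (∃ m, h2 = rt ρ R T * k1 * m) ∧
      ∀ l, ∃ m : PM K, h2 = tp (J l) T * m ∧ ∀ n, m.1 (J l n) = k1.1 (J l n) := by
  classical
  have hρ : Set.InjOn ρ R := by
    intro n hn n' hn' h
    apply A.inj 0
    rw [A.root 0 n hn, A.root 0 n' hn', h]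
  let u : K → SM := fun i => if h : ∃ n, ∃ l, n ∉ R ∧ J l n = i then T h.choose else 1
  have hu1 : ∀ l n, n ∉ R → u (J l n) = T n := by
    intro l n hn
    have h : ∃ n', ∃ l', n' ∉ R ∧ J l' n' = J l n := ⟨n, l, hn, rfl⟩
    refine (dif_pos h).trans (congrArg T ?_)
    obtain ⟨l', h1, h2⟩ := h.choose_spec
    by_cases hll : l' = l
    · subst hll
      exact A.inj _ h2
    · exact absurd h2 (A.dis l' l _ n h1 hll)
  have hu2 : ∀ i, (∀ l n, n ∉ R → J l n ≠ i) → u i = 1 := by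
    intro i hi
    refine dif_neg ?_
    rintro ⟨n, l, h1, h2⟩
    exact hi l n h1 h2
  have huc : {i | u i ≠ 1}.Countable := by
    refine (Set.countable_iUnion fun l : ℕ => Set.countable_range (J l)).mono fun i hi => ?_
    by_contra hc
    apply hi
    refine hu2 i fun l n _ h => hc ?_
    rw [Set.mem_iUnion]
    exact ⟨l, n, h⟩
  let m1 : PM K := ⟨u, huc⟩
  refine ⟨rt ρ R T * k1 * m1, ⟨m1, rfl⟩, fun l => ?_⟩
  have hmc : {i | (if (∃ n, J l n = i) then k1.1 i else (rt ρ R T * k1 * m1).1 i) ≠ 1}.Countable := by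
    refine ((k1.2 : {i | k1.1 i ≠ 1}.Countable).union
      ((rt ρ R T * k1 * m1).2 : {i | (rt ρ R T * k1 * m1).1 i ≠ 1}.Countable)).mono fun i hi => ?_
    by_cases h : ∃ n, J l n = i
    · left
      have hi' : (if (∃ n, J l n = i) then k1.1 i else (rt ρ R T * k1 * m1).1 i) ≠ 1 := hi
      rw [if_pos h] at hi'
      exact hi'
    · right
      have hi' : (if (∃ n, J l n = i) then k1.1 i else (rt ρ R T * k1 * m1).1 i) ≠ 1 := hi
      rw [if_neg h] at hi'
      exact hi'
  refine ⟨⟨fun i => if (∃ n, J l n = i) then k1.1 i else (rt ρ R T * k1 * m1).1 i, hmc⟩, ?_, ?_⟩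
  · apply Subtype.ext
    funext i
    show (rt ρ R T).1 i * k1.1 i * u i = (tp (J l) T).1 i *
      (if (∃ n, J l n = i) then k1.1 i else (rt ρ R T).1 i * k1.1 i * u i)
    by_cases h : ∃ n, J l n = i
    · rw [if_pos h]
      obtain ⟨n, rfl⟩ := h
      rw [tp_at (A.inj l)]
      by_cases hn : n ∈ R
      · have e1 : (rt ρ R T).1 (J l n) = T n := by
          rw [A.root l n hn]
          exact rt_at hρ T hn
        have e2 : u (J l n) = 1 := by
          refine hu2 _ fun l' n' hn' => ?_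
          rw [A.root l n hn]
          exact A.avr l' n' hn' n hn
        rw [e1, e2, mul_one]
      · have e1 : (rt ρ R T).1 (J l n) = 1 := rt_off T fun n' hn' => (A.avr l n hn n' hn').symm
        rw [e1, hk l n hn, hu1 l n hn, one_mul, one_mul, mul_one]
    · rw [if_neg h, tp_off T (fun n hn => h ⟨n, hn⟩), one_mul]
  · intro n
    exact if_pos ⟨n, rfl⟩

end Pool.Agent.SX
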