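import Pool.Agent.Lib.SX.Mon

/-!
# CtL: restriction to a countable set of coordinates
-/

set_option autoImplicit false

namespace Pool.Agent.SX

variable {K : Type}

open Classical in
/-- extension of a condition by the identity -/
noncomputable def exP (I : Set K) (k : PM I) : PM K :=
  ⟨fun i => if h : i ∈ I then k.1 ⟨i, h⟩ else 1, by
    refine (k.2.image Subtype.val).mono fun i hi => ?_
    by_cases h : i ∈ I
    · have hi' : (if h : i ∈ I then k.1 ⟨i, h⟩ else 1) ≠ 1 := hi
      rw [dif_pos h] at hi'
      exact ⟨⟨i, h⟩, hi', rfl⟩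
    · exact absurd (dif_neg h) hi⟩

/-- restriction of a condition -/
def rsP (I : Set K) (k : PM K) : PM I := ⟨fun i => k.1 i.1, k.2.preimage Subtype.val_injective⟩

open Classical in
/-- extension of a point by a constant -/
noncomputable def exX (I : Set K) (x : I → Cs) : K → Cs := fun i => if h : i ∈ I then x ⟨i, h⟩ else fun _ => false

/-- restriction of a point -/
def rsX (I : Set K) (x : K → Cs) : I → Cs := fun i => x i.1

theorem exP_mem {I : Set K} (k : PM I) (i : I) : (exP I k).1 i.1 = k.1 i := dif_pos i.2

theorem exP_off {I : Set K} (k : PM I) {i : K} (hi : i ∉ I) : (exP I k).1 i = 1 := dif_neg hi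

theorem exX_mem {I : Set K} (x : I → Cs) (i : I) : exX I x i.1 = x i := dif_pos i.2

@[simp] theorem rsP_exP (I : Set K) (k : PM I) : rsP I (exP I k) = k :=
  PM.ext fun i x => by
    show ((exP I k).1 i.1).f x = _
    rw [exP_mem]

@[simp] theorem rsX_exX (I : Set K) (x : I → Cs) : rsX I (exX I x) = x := funext fun i => exX_mem x i

theorem rsX_ac (I : Set K) (k : PM K) (x : K → Cs) : rsX I (ac k x) = ac (rsP I k) (rsX I x) := rfl

theorem exX_ac (I : Set K) (k : PM I) (x : I → Cs) : rsX I (ac (exP I k) (exX I x)) = ac k x := by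
  rw [rsX_ac, rsP_exP, rsX_exX]

theorem continuous_rsX (I : Set K) : Continuous (rsX I : (K → Cs) → I → Cs) :=
  continuous_pi fun i => continuous_apply i.1

theorem continuous_exX (I : Set K) : Continuous (exX I : (I → Cs) → K → Cs) := by
  refine continuous_pi fun i => ?_
  by_cases h : i ∈ I
  · have e : (fun x : I → Cs => exX I x i) = fun x => x ⟨i, h⟩ := funext fun x => dif_pos h
    rw [e]
    exact continuous_apply _
  · have e : (fun x : I → Cs => exX I x i) = fun _ _ => false := funext fun x => dif_neg h
    rw [e]
    exact continuous_const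

end Pool.Agent.SX
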