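import Pool.Agent.Lib.SX.Mon

/-!
# SDefs: supplies of isomorphic conditions, definitions
-/

set_option autoImplicit false

namespace Pool.Agent.SX

open Pool.Agent.Mart Cardinal

variable {K : Type}

open Classical in
/-- the condition which is `T n` at `j n` and the identity elsewhere (for injective `j`) -/
noncomputable def tp (j : ℕ → K) (T : ℕ → SM) : PM K :=
  ⟨fun i => if h : ∃ n, j n = i then T h.choose else 1, by
    refine (Set.countable_range j).mono fun i hi => ?_
    by_contra hc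
    exact hi (dif_neg hc)⟩

open Classical in
/-- the condition which is `T n` at `ρ n` for `n ∈ R` and the identity elsewhere (for `ρ` injective on `R`) -/
noncomputable def rt (ρ : ℕ → K) (R : Set ℕ) (T : ℕ → SM) : PM K :=
  ⟨fun i => if h : ∃ n, n ∈ R ∧ ρ n = i then T h.choose else 1, by
    refine (Set.countable_range ρ).mono fun i hi => ?_
    by_contra hc
    refine hi (dif_neg fun h => hc ?_)
    obtain ⟨n, -, hn⟩ := h
    exact ⟨n, hn⟩⟩

/-- `j` is a good copy: the value at the point `j 0` below the condition `tp j T` is `g`, read through `j` -/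
structure Good (V : Emb K) (T : ℕ → SM) (g : (ℕ → Cs) → Cs) (R : Set ℕ) (ρ : ℕ → K) (j : ℕ → K) : Prop where
  inj : Function.Injective j
  root : ∀ n ∈ R, j n = ρ n
  val : V.V0 (tp j T) (rl (tp j T) (j 0)) (fun x => g fun n => x (j n))

/-- the new parts of the maps `J l` avoid `Z0`, the root and each other -/
structure Apart (R : Set ℕ) (ρ : ℕ → K) (Z0 : Set K) (J : ℕ → ℕ → K) : Prop where
  inj : ∀ l, Function.Injective (J l)
  root : ∀ l, ∀ n ∈ R, J l n = ρ n
  av : ∀ l n, n ∉ R → J l n ∉ Z0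
  avr : ∀ l n, n ∉ R → ∀ n' ∈ R, J l n ≠ ρ n'
  dis : ∀ l l' n n', n ∉ R → l ≠ l' → J l n ≠ J l' n'

/-- no value at the point `γ` below `h` is independent of the coordinate `i` -/
def Dep (V : Emb K) (h : PM K) (i γ : K) : Prop := ∀ k c, V.V0 (h * k) (rl (h * k) γ) c → ¬ Ind i c

/-- the point `q` is not a member of the sequence `z`, below any condition -/
def Av (h : PM K) (q : K) (z : (K → Cs) → ℕ → Cs) : Prop := ∀ k n, ∃ x, rl h q (ac k x) ≠ z (ac k x) n

/-- a level 1 object read through `j`: `hd l` is the position of the point number `l`; `cl l` is its value, `v` the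
value of the sequence -/
structure Good1 (V : Emb K) (T : ℕ → SM) (hd : ℕ → ℕ) (cl : ℕ → (ℕ → Cs) → Cs) (v : (ℕ → Cs) → Cs)
    (R : Set ℕ) (ρ : ℕ → K) (j : ℕ → K) : Prop where
  inj : Function.Injective j
  root : ∀ n ∈ R, j n = ρ n
  val0 : ∀ l, V.V0 (tp j T) (rl (tp j T) (j (hd l))) (fun x => cl l fun n => x (j n))
  val1 : V.V1 (tp j T) (fun x l => rl (tp j T) (j (hd l)) x) (fun x => v fun n => x (j n))

/-- the interface below the condition `h` -/
def Emb.rel (V : Emb K) (h : PM K) : Emb K where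
  V0 k a b := V.V0 (h * k) a b
  V1 k a b := V.V1 (h * k) a b
  V2 k a b := V.V2 (h * k) a b
  cont0 hv := V.cont0 hv
  cont1 hv := V.cont1 hv
  cont2 hv := V.cont2 hv
  ex0 k a ha := by
    obtain ⟨k', b, hb⟩ := V.ex0 (h * k) a ha
    exact ⟨k', b, by rw [← mul_assoc]; exact hb⟩
  ex1 k a ha := by
    obtain ⟨k', b, hb⟩ := V.ex1 (h * k) a ha
    exact ⟨k', b, by rw [← mul_assoc]; exact hb⟩
  ex2 k a ha := by
    obtain ⟨k', b, hb⟩ := V.ex2 (h * k) a ha
    exact ⟨k', b, by rw [← mul_assoc]; exact hb⟩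
  res0 hv k' := by rw [← mul_assoc]; exact V.res0 hv k'
  res1 hv k' := by rw [← mul_assoc]; exact V.res1 hv k'
  res2 hv k' := by rw [← mul_assoc]; exact V.res2 hv k'
  uniq h1 h2 := V.uniq h1 h2
  le01 h1 h2 h3 := V.le01 h1 h2 h3
  le12 h1 h2 h3 := V.le12 h1 h2 h3
  nle00 h1 h2 h3 := V.nle00 h1 h2 h3
  nle01 h1 h2 h3 := V.nle01 h1 h2 h3
  nle02 h1 h2 h3 := V.nle02 h1 h2 h3

end Pool.Agent.SX
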