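import Pool.Agent.Lib.SX.PDefs
import Pool.Agent.Lib.SX.SDefs

/-!
# PCop: isomorphic copies give the data of phase 1 (about 170 lines)

`lab i = some l` iff `∃ p, blk p = some l ∧ J (2 * sysOf d l + 1) p = i` (such `l, p` are unique: `blk p = some l` implies `p ∉ R`, so by `A.dis` the copy number is determined, by `A.inj` the position `p`, by `blk` the label), `src i = J (2 * sysOf d l) p` for these `l, p`; `src i = i` if `lab i = none`.
Positions `J s p` with `s` even, and all `J s p` with `p ∈ R` (they are `ρ p`; `A.avr`), have label `none`. Hence `v_cp`, `c_cp`, `e_cp`, `src_none`; `src_inj` by `A.dis`, `A.inj`. `J (2 * j + 1) p` with `blk p = some l` has label `l` iff `j = sysOf d l`, otherwise (and for `blk p = none`) label `none`.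
`c'_ge` (`m ≤ l`): by `hdep l` compare at `p ∈ R` (both are `x (ρ p)`) and at `p` with `blk p = some l` (the copied value is `x (J (2 * sysOf d l) p)`). `c'_lt`: at these positions nothing is copied (label `l < m`). `u_other`: `cp m x` and `cp (m+1) x` differ only at coordinates with label `m`; these belong to the copy `2 * sysOf d m + 1 ≠ 2 * j + 1`.
`idx`, `idx'`: `hidx`. `ne`: `hne` for `s = 2 * sysOf d l`, `s' = s + 1`. Continuity: compositions.
-/

set_option autoImplicit false

namespace Pool.Agent.SX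

open Pool.Agent.Mart

section
variable {I : Type} {J : ℕ → ℕ → I} {R : Set ℕ} {ρ : ℕ → I} {blk : ℕ → Option ℕ}

/-- the position `p` of the odd copy number `sysOf d l` is `i`, and `p` belongs to the block `l` -/
private def QQ (J : ℕ → ℕ → I) (blk : ℕ → Option ℕ) (d : Cs) (l : ℕ) (i : I) (p : ℕ) : Prop :=
  blk p = some l ∧ J (2 * sysOf d l + 1) p = i

private theorem blk_notMem (hb : ∀ p ∈ R, blk p = none) {p l : ℕ} (h : blk p = some l) : p ∉ R := by
  intro hp
  rw [hb p hp] at h
  exact Option.some_ne_none l h.symm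

private theorem QQ_unique (A : Apart R ρ (∅ : Set I) J) (hb : ∀ p ∈ R, blk p = none) {d : Cs} {i : I}
    {l p l' p' : ℕ} (h : QQ J blk d l i p) (h' : QQ J blk d l' i p') : l = l' ∧ p = p' := by
  obtain ⟨h1, h2⟩ := h
  obtain ⟨h3, h4⟩ := h'
  have hs : 2 * sysOf d l + 1 = 2 * sysOf d l' + 1 := by
    by_contra hne
    exact A.dis _ _ p p' (blk_notMem hb h1) hne (h2.trans h4.symm)
  have hp : p = p' := by
    rw [← hs] at h4
    exact A.inj _ (h2.trans h4.symm)
  refine ⟨?_, hp⟩
  rw [hp, h3] at h1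
  exact (Option.some.inj h1).symm

open Classical in
private noncomputable def lb (J : ℕ → ℕ → I) (blk : ℕ → Option ℕ) (d : Cs) (i : I) : Option ℕ :=
  if h : ∃ q : ℕ × ℕ, QQ J blk d q.1 i q.2 then some h.choose.1 else none

open Classical in
private noncomputable def sr (J : ℕ → ℕ → I) (blk : ℕ → Option ℕ) (d : Cs) (i : I) : I :=
  if h : ∃ q : ℕ × ℕ, QQ J blk d q.1 i q.2 then J (2 * sysOf d h.choose.1) h.choose.2 else i

private theorem lb_of (A : Apart R ρ (∅ : Set I) J) (hb : ∀ p ∈ R, blk p = none) {d : Cs} {i : I}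
    {l p : ℕ} (h : QQ J blk d l i p) : lb J blk d i = some l ∧ sr J blk d i = J (2 * sysOf d l) p := by
  have hex : ∃ q : ℕ × ℕ, QQ J blk d q.1 i q.2 := ⟨(l, p), h⟩
  have h1 := QQ_unique A hb hex.choose_spec h
  unfold lb sr
  rw [dif_pos hex, dif_pos hex, h1.1, h1.2]
  exact ⟨rfl, rfl⟩

private theorem lb_some (A : Apart R ρ (∅ : Set I) J) (hb : ∀ p ∈ R, blk p = none) {d : Cs} {i : I}
    {l : ℕ} (h : lb J blk d i = some l) : ∃ p, QQ J blk d l i p ∧ sr J blk d i = J (2 * sysOf d l) p := by
  by_cases hex : ∃ q : ℕ × ℕ, QQ J blk d q.1 i q.2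
  · obtain ⟨⟨l', p⟩, hq⟩ := hex
    have h1 := lb_of A hb hq
    rw [h] at h1
    have h2 : l = l' := Option.some.inj h1.1
    subst h2
    exact ⟨p, hq, h1.2⟩
  · unfold lb at h
    rw [dif_neg hex] at h
    exact absurd h.symm (Option.some_ne_none l)

/-- no copying at a point without label -/
private theorem cp_none {lab : I → Option ℕ} {src : I → I} {i : I} (h : lab i = none) (m : ℕ) (x : I → Cs) :
    cp lab src m x i = x i := by
  unfold cp
  rw [if_neg]
  rintro ⟨l, hl, -⟩
  rw [h] at hl
  exact Option.some_ne_none l hl.symm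

private theorem lb_even (A : Apart R ρ (∅ : Set I) J) (hb : ∀ p ∈ R, blk p = none) (d : Cs) (j p : ℕ) :
    lb J blk d (J (2 * j) p) = none := by
  cases h : lb J blk d (J (2 * j) p) with
  | none => rfl
  | some l =>
    obtain ⟨p', hq, -⟩ := lb_some A hb h
    exact absurd hq.2 (A.dis _ _ p' p (blk_notMem hb hq.1) (by omega))

private theorem lb_root (A : Apart R ρ (∅ : Set I) J) (hb : ∀ p ∈ R, blk p = none) (d : Cs) (s : ℕ) {p : ℕ}
    (hp : p ∈ R) : lb J blk d (J s p) = none := by
  cases h : lb J blk d (J s p) with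
  | none => rfl
  | some l =>
    obtain ⟨p', hq, -⟩ := lb_some A hb h
    exact absurd (hq.2.trans (A.root s p hp)) (A.avr _ p' (blk_notMem hb hq.1) p hp)

end

theorem pcop {I : Type} {J : ℕ → ℕ → I} {R : Set ℕ} {ρ : ℕ → I} (A : Apart R ρ (∅ : Set I) J) {blk : ℕ → Option ℕ}
    (hb : ∀ p ∈ R, blk p = none) {v : (ℕ → Cs) → Cs} {cl : ℕ → (ℕ → Cs) → Cs} {el : ℕ → (ℕ → Cs) → ℕ}
    (hv : Continuous v) (hc : ∀ l, Continuous (cl l)) (he : ∀ l, Continuous (el l))
    (hidx : ∀ l y, Idx (v y) (el l y) (cl l y))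
    (hdep : ∀ l y y', (∀ p, p ∈ R ∨ blk p = some l → y p = y' p) → cl l y = cl l y')
    (hne : ∀ l s s', s ≠ s' → ∀ k : PM I, ∃ x, (cl l fun n => ac k x (J s n)) ≠ cl l fun n => ac k x (J s' n))
    (d : Cs) :
    ∃ (lab : I → Option ℕ) (src : I → I), P1 I d lab src (fun j x => v fun n => x (J (2 * j) n))
      (fun j x => v fun n => x (J (2 * j + 1) n)) (fun l x => cl l fun n => x (J (2 * sysOf d l) n))
      (fun l x => cl l fun n => x (J (2 * sysOf d l + 1) n)) (fun l x => el l fun n => x (J (2 * sysOf d l) n))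
      (fun l x => el l fun n => x (J (2 * sysOf d l + 1) n)) := by
  have hcont : ∀ s : ℕ, Continuous fun (x : I → Cs) (n : ℕ) => x (J s n) := fun s =>
    continuous_pi fun n => continuous_apply (J s n)
  have hev : ∀ (j m : ℕ) (x : I → Cs), (fun n => cp (lb J blk d) (sr J blk d) m x (J (2 * j) n)) =
      fun n => x (J (2 * j) n) := fun j m x => funext fun n => cp_none (lb_even A hb d j n) m x
  refine ⟨lb J blk d, sr J blk d,
    { cv := fun j => hv.comp (hcont _)
      cu := fun j => hv.comp (hcont _)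
      cc := fun l => (hc l).comp (hcont _)
      cc' := fun l => (hc l).comp (hcont _)
      ce := fun l => (he l).comp (hcont _)
      ce' := fun l => (he l).comp (hcont _)
      src_none := ?_
      src_inj := ?_
      idx := fun l x => hidx l _
      idx' := fun l x => hidx l _
      v_cp := fun j m x => congrArg v (hev j m x)
      c_cp := fun l m x => congrArg (cl l) (hev _ m x)
      e_cp := fun l m x => congrArg (el l) (hev _ m x)
      c'_ge := ?_
      c'_lt := ?_
      u_other := ?_
      ne := fun l k => hne l _ _ (by omega) k }⟩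
  · intro i l hl
    obtain ⟨p, -, h2⟩ := lb_some A hb hl
    rw [h2]
    exact lb_even A hb d _ p
  · intro i i' l l' hl hl' hs
    obtain ⟨p, h1, h2⟩ := lb_some A hb hl
    obtain ⟨p', h3, h4⟩ := lb_some A hb hl'
    rw [h2, h4] at hs
    have h5 : 2 * sysOf d l = 2 * sysOf d l' := by
      by_contra hcon
      exact A.dis _ _ p p' (blk_notMem hb h1.1) hcon hs
    rw [h5] at hs
    have h6 : p = p' := A.inj _ hs
    rw [← h1.2, ← h3.2, h5, h6]
  · intro l m x hml
    refine hdep l _ _ fun p hp => ?_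
    rcases hp with hp | hp
    · show cp (lb J blk d) (sr J blk d) m x (J (2 * sysOf d l + 1) p) = x (J (2 * sysOf d l) p)
      rw [cp_none (lb_root A hb d _ hp), A.root _ p hp, A.root _ p hp]
    · show cp (lb J blk d) (sr J blk d) m x (J (2 * sysOf d l + 1) p) = x (J (2 * sysOf d l) p)
      have h1 := lb_of A hb (d := d) (i := J (2 * sysOf d l + 1) p) ⟨hp, rfl⟩
      unfold cp
      rw [if_pos ⟨l, h1.1, hml⟩, h1.2]
  · intro l m x hml
    refine hdep l _ _ fun p hp => ?_
    rcases hp with hp | hp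
    · exact cp_none (lb_root A hb d _ hp) m x
    · show cp (lb J blk d) (sr J blk d) m x (J (2 * sysOf d l + 1) p) = x (J (2 * sysOf d l + 1) p)
      have h1 := lb_of A hb (d := d) (i := J (2 * sysOf d l + 1) p) ⟨hp, rfl⟩
      unfold cp
      rw [if_neg]
      rintro ⟨l', h2, h3⟩
      rw [h1.1] at h2
      have h4 : l = l' := Option.some.inj h2
      omega
  · intro j m x hj
    refine congrArg v (funext fun n => ?_)
    have h1 : lb J blk d (J (2 * j + 1) n) ≠ some m := by
      intro h2
      obtain ⟨p, h3, -⟩ := lb_some A hb h2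
      exact A.dis _ _ p n (blk_notMem hb h3.1) (by omega) h3.2
    show cp (lb J blk d) (sr J blk d) m x (J (2 * j + 1) n) =
      cp (lb J blk d) (sr J blk d) (m + 1) x (J (2 * j + 1) n)
    unfold cp
    refine if_congr ⟨?_, ?_⟩ rfl rfl
    · rintro ⟨l, h2, h3⟩
      refine ⟨l, h2, ?_⟩
      rcases h3.lt_or_eq with h4 | h4
      · exact h4
      · rw [← h4] at h2
        exact absurd h2 h1
    · rintro ⟨l, h2, h3⟩
      exact ⟨l, h2, by omega⟩

end Pool.Agent.SX
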