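import Pool.Agent.Lib.SX.Mon

/-!
# FCod: a code for the continuous function (about 70 lines)

The image `S = Y '' univ` is compact; `H0 : S → Cs` with `H0 (Y x) = c x` is well defined by `h` and continuous (`Y : (K → Cs) → S` is a closed surjective continuous map, so a quotient map: `IsClosedMap.isQuotientMap` / `IsQuotientMap.continuous_iff`).
`PiNat.exists_retraction_of_isClosed` gives a continuous retraction `r` of `Cs` onto `S` (`K → Cs` is nonempty); `G = H0 ∘ r : Cs → Cs` is continuous and `G (Y x) = c x`. `cont_param` (Lib/MP_d1129e_lc/Cont.lean).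
-/

set_option autoImplicit false

namespace Pool.Agent.SX

open Pool.Agent.Mart

theorem fcod {K : Type} {c Y : (K → Cs) → Cs} (hc : Continuous c) (hY : Continuous Y)
    (h : ∀ x x', Y x = Y x' → c x = c x') :
    ∃ d : Cs, ∀ (x : K → Cs) (z : Cs), TR d z → TR (Y x) z → TR (c x) z := by
  classical
  have hne : (Set.range Y).Nonempty := Set.range_nonempty Y
  have hcl : IsClosed (Set.range Y) := (isCompact_range hY).isClosed
  obtain ⟨r, hr1, -, hr3⟩ := PiNat.exists_retraction_subtype_of_isClosed hcl hne
  -- the function on the image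
  have hex : ∀ s : Set.range Y, ∃ x, Y x = s.1 := fun s => s.2
  choose g hg using hex
  let Y' : (K → Cs) → Set.range Y := fun x => ⟨Y x, x, rfl⟩
  have hY' : Continuous Y' := hY.subtype_mk _
  have hsur : Function.Surjective Y' := by
    rintro ⟨_, x, rfl⟩
    exact ⟨x, rfl⟩
  have hq : Topology.IsQuotientMap Y' := hY'.isClosedMap.isQuotientMap hY' hsur
  let H : Set.range Y → Cs := fun s => c (g s)
  have hH : ∀ x, H (Y' x) = c x := fun x => h _ _ (hg (Y' x))
  have hHc : Continuous H := by
    rw [hq.continuous_iff]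
    have : H ∘ Y' = c := funext hH
    rw [this]
    exact hc
  obtain ⟨d, hd⟩ := cont_param (g := H ∘ r) (hHc.comp hr3)
  refine ⟨d, fun x z h1 h2 => ?_⟩
  have h3 := hd (Y x) z h1 h2
  have h4 : (H ∘ r) (Y x) = c x := by
    have h5 : r (Y x) = Y' x := hr1 (Y' x)
    show H (r (Y x)) = c x
    rw [h5, hH]
  rwa [h4] at h3

end Pool.Agent.SX
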