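import Pool.Agent.Lib.SX.Fus
import Pool.Agent.Lib.SX.Fini

/-!
# Uni: from pointwise to uniform reductions (about 130 lines)

`Idx x e y` (Lib/MP_d1129e_lc/OC): `e` is an index of `y` relative to `x`, that is `∀ n, ∃ t, U x e n t (y n).toNat`; `tr_iff_idx`.
(0) `U x e n t v` depends only on `x` below `t` (`res x e k s` uses `pre x s.unpair.1` and `s.unpair.1 ≤ s < t`): lemma `U_congr`. So
the set of all `x : K → Cs` with `U (b' x) e n t (b x n).toNat` is open (`b`, `b'` continuous), and contains with each point a cell (`open_nbhd`).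
(1) For `e : ℕ` let `D e k` := `∃ n, ∀ x t, ¬ U (b' (ac k x)) e n t (b (ac k x) n).toNat`. `D e` is open (`Op`).
If all `D e` are dense: `fus` with `h = 1` gives `k`; take any point `x` and let `e` be an index of `b y` from `b' y`, `y = ac k x`; by `fus` there is a cell
`c = cel F m x0` (`x0 := x`; the cell of `x` itself) with `D e (k * c)`, and `x = ac c z` for some `z` (`mem_cel`), so `U (b' y) e n t (b y n).toNat` fails for some `n`, all `t`: contradiction.
(2) So some `D e` is not dense: there is `k0` with `¬ D e (k0 * k)` for all `k`. For `n` let `O n k` := `∃ t, ∀ x, U (b' (ac k x)) e n t (b (ac k x) n).toNat`. It is open, and dense below `k0`: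
given `k`, `¬ D e (k0 * k)` gives `x, t` with `U (..)` at `ac (k0 * k) x`, and by (0) this holds on a whole cell around `x`. `fus_below` (with `h = k0`) gives `k`;
`k0 * k` is as wanted: for every `x` and `n` the point `x` is in a cell `c` with `O n (k0 * k * c)`.
-/

set_option autoImplicit false

namespace Pool.Agent.SX

open Pool.Agent.Mart

variable {K : Type}

private theorem uni_open (n : ℕ) (x : Cs) : IsOpen {y : Cs | Ag n x y} := by
  have h3 : {y : Cs | Ag n x y} = ⋂ k ∈ Finset.range n, {y : Cs | x k = y k} := by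
    ext y
    simp [Ag]
  rw [h3]
  refine isOpen_biInter_finset fun k _ => ?_
  exact (isOpen_discrete ({b | x k = b} : Set Bool)).preimage (continuous_apply k)

/-- a point is in its cell -/
private theorem uni_self (F : Finset K) (m : ℕ) (x : K → Cs) : ∃ z, ac (cel F m x) z = x :=
  mem_cel.2 fun i _ => Ag.refl m (x i)

theorem U_congr {x x' : Cs} {t : ℕ} (h : Ag t x x') (e n v : ℕ) : U x e n t v ↔ U x' e n t v := by
  have key : ∀ {y y' : Cs}, Ag t y y' → U y e n t v → U y' e n t v := by
    rintro y y' hy ⟨s, hs, h1, h2⟩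
    have hres : ∀ s' < t, res y e n s' = res y' e n s' := by
      intro s' hs'
      unfold res
      have h3 : pre y s'.unpair.1 = pre y' s'.unpair.1 := by
        rw [pre_eq_iff]
        intro k hk
        exact hy k (lt_of_lt_of_le hk ((Nat.unpair_left_le s').trans hs'.le))
      rw [h3]
    refine ⟨s, hs, ?_, fun s' hs' => ?_⟩
    · rw [← hres s hs]
      exact h1
    · rw [← hres s' (hs'.trans hs)]
      exact h2 s' hs'
  exact ⟨key h, key h.symm⟩

theorem isOpen_U {b b' : (K → Cs) → Cs} (hb : Continuous b) (hb' : Continuous b') (e n t : ℕ) :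
    IsOpen {x : K → Cs | U (b' x) e n t (b x n).toNat} := by
  rw [isOpen_iff_mem_nhds]
  intro x hx
  have h1 : IsOpen {y : K → Cs | Ag t (b' x) (b' y)} := (uni_open t (b' x)).preimage hb'
  have h2 : IsOpen {y : K → Cs | b y n = b x n} :=
    (isOpen_discrete ({c | c = b x n} : Set Bool)).preimage ((continuous_apply n).comp hb)
  filter_upwards [h1.mem_nhds (Ag.refl t (b' x)), h2.mem_nhds rfl] with y hy1 hy2
  show U (b' y) e n t (b y n).toNat
  have h3 : b y n = b x n := hy2
  rw [h3]
  exact (U_congr hy1 e n _).1 hx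

theorem uni {b b' : (K → Cs) → Cs} (hb : Continuous b) (hb' : Continuous b') (h : ∀ x, TR (b x) (b' x)) :
    ∃ (k : PM K) (e : ℕ), ∀ x, Idx (b' (ac k x)) e (b (ac k x)) := by
  by_cases hall : ∀ e, Dn fun k : PM K =>
      ∃ n, ∀ x t, ¬ U (b' (ac k x)) e n t (b (ac k x) n).toNat
  · exfalso
    obtain ⟨k, hk⟩ := fus (fun e (k : PM K) =>
      ∃ n, ∀ x t, ¬ U (b' (ac k x)) e n t (b (ac k x) n).toNat) hall (by
        rintro e h k ⟨n, hn⟩
        exact ⟨n, fun x t => hn (ac k x) t⟩) 1
    obtain ⟨e, he⟩ := tr_iff_idx.1 (h (ac k fun _ _ => false))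
    obtain ⟨F, m, hFm⟩ := hk e
    obtain ⟨n, hn⟩ := hFm fun _ _ => false
    obtain ⟨z, hz⟩ := uni_self F m (fun (_ : K) (_ : ℕ) => false)
    obtain ⟨t, ht⟩ := he n
    refine hn z t ?_
    have h1 : ac (1 * k * cel F m fun _ _ => false) z = ac k fun _ _ => false := by
      rw [one_mul, ac_mul, hz]
    rw [h1]
    exact ht
  · push Not at hall
    obtain ⟨e, he⟩ := hall
    unfold Dn at he
    push Not at he
    obtain ⟨k0, hk0⟩ := he
    obtain ⟨k, hk⟩ := fus_below (fun n (k : PM K) =>
      ∃ t, ∀ x, U (b' (ac k x)) e n t (b (ac k x) n).toNat) k0 (by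
        intro n k
        obtain ⟨x, t, hxt⟩ := hk0 k n
        have hopen := isOpen_U (hb.comp (continuous_ac (k0 * k))) (hb'.comp (continuous_ac (k0 * k)))
          e n t
        obtain ⟨F, m, hFm⟩ := open_nbhd hopen (x := x) hxt
        exact ⟨cel F m x, t, fun z => hFm _ (mem_cel.1 ⟨z, rfl⟩)⟩) (by
        rintro n k k' ⟨t, ht⟩
        exact ⟨t, fun x => ht (ac k' x)⟩)
    refine ⟨k0 * k, e, fun x n => ?_⟩
    obtain ⟨F, m, hFm⟩ := hk n
    obtain ⟨t, ht⟩ := hFm x
    obtain ⟨z, hz⟩ := uni_self F m x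
    refine ⟨t, ?_⟩
    have h1 := ht z
    rw [ac_mul, hz] at h1
    exact h1

end Pool.Agent.SX
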