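import Pool.Agent.Lib.SX.RdL
import Pool.Agent.Lib.SX.Uni

/-!
# TrF: forced Turing reducibility (about 180 lines)

`lit_iff`: if `Rd h A b` and `b x n = i` for all `x` then `Ap h (lit (A n) i)`; conversely (`Rd.at`, `Rd.at_compl`).
`tr_of_ap`: `Ap h (trB A A')`, `trB = ⨆ e, trE e A A'`: `ap_iSup` gives `k0, e` with `Ap (h * k0) (trE e A A')`. For `n` let `D n k := ∃ t, ∀ x, U (b' (ac k x)) e n t (b (ac k x) n).toNat`. Open. Dense below `k0`: given `k0 * k`, `Ap (h * (k0 * k)) (⨆ t, ⨆ y : {..}, ..)` (`Ap_iInf`) so `ap_iSup` twice gives `k'`, `t`, `y` with `U y.1 e n t y.2.toNat`,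
`Ap (h * (k0 * k * k')) (lit (A' j) (y.1 j))` for `j < t` and `Ap (..) (lit (A n) y.2)`: hence for all `x` (`lit` converse, for `b ∘ ac (k0 * k * k')`) `b' (ac .. x)` agrees with `y.1` below `t` and `b (ac .. x) n = y.2`, so `U (b' (ac .. x)) e n t (b (ac .. x) n).toNat` (`U_congr`). `fus_below` (for the sets `D n`, condition `k0`) gives `k`: for every `x` and `n`: `x` is in a cell `c` with
`D n (k0 * k * c)`, so `Idx (b' (ac (k0 * k) x)) e (b (ac (k0 * k) x))`; `tr_of_idx`.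
`ap_of_tr`: by `ap_loc` it is enough to find, for given `k`, a `k'` with `Ap (h * k * k') (trB A A')`: `uni` for `b ∘ ac k`, `b' ∘ ac k` gives `k'`, `e` with `Idx (b' (ac (k * k') x)) e (b (ac (k * k') x))` for all `x`. Claim `Ap (h * k * k') (trE e A A')` : `Ap_iInf`; for `n`: `ap_loc`: given `k2` and any point `x0`, there is `t` with `U (b' z) e n t (b z n).toNat`,
`z = ac (k * k' * k2) x0`; on a cell `cel F m x0` the values `b' (ac (k * k' * k2) ·)` below `t` and `b (..) n` are constant; so `Ap` of the term for `t` and `y = (b' z, b z n)` holds at `h * k * k' * k2 * cel F m x0` (`lit_iff`, `Ap_iInf`), and the term is `≤` the supremum (`le_iff_Ap`, `le_iSup_of_le`).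
-/

set_option autoImplicit false

namespace Pool.Agent.SX

open Pool.Agent.PolB Pool.Agent.Lib.BVM Pool.Agent.Mart

variable {K : Type}

theorem ap_lit {h : PM K} {A : ℕ → BP K} {b : (K → Cs) → Cs} (H : Rd h A b) {n : ℕ} {i : Bool} (e : ∀ x, b x n = i) :
    Ap h (lit (A n) i) := by
  unfold lit
  cases i with
  | false =>
    rw [if_neg Bool.false_ne_true]
    have h1 := (H 1 n).2 fun x => e (ac 1 x)
    rwa [mul_one] at h1
  | true =>
    rw [if_pos rfl]
    have h1 := (H 1 n).1 fun x => e (ac 1 x)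
    rwa [mul_one] at h1

theorem of_ap_lit {h : PM K} {A : ℕ → BP K} {b : (K → Cs) → Cs} (hb : Continuous b) (H : Rd h A b) {n : ℕ} {i : Bool}
    (ha : Ap h (lit (A n) i)) (x : K → Cs) : b x n = i := by
  unfold lit at ha
  cases i with
  | false =>
    rw [if_neg Bool.false_ne_true] at ha
    exact H.at_compl hb ha x
  | true =>
    rw [if_pos rfl] at ha
    exact H.at hb ha x

theorem tr_of_ap {h : PM K} {A A' : ℕ → BP K} {b b' : (K → Cs) → Cs} (hb : Continuous b) (hb' : Continuous b')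
    (H : Rd h A b) (H' : Rd h A' b') (ha : Ap h (trB A A')) : ∃ k, ∀ x, TR (b (ac k x)) (b' (ac k x)) := by
  unfold trB at ha
  obtain ⟨k0, e, he⟩ := ap_iSup ha
  have he' : ∀ n, Ap (h * k0) (⨆ t, ⨆ y : {y : Cs × Bool // U y.1 e n t y.2.toNat},
      (⨅ k : Fin t, lit (A' k) (y.1.1 k)) ⊓ lit (A n) y.1.2) :=
    (Ap_iInf leP_refl leP_trans _ _).1 he
  obtain ⟨k, hk⟩ := fus_below (fun n (k : PM K) => ∃ t, ∀ x, U (b' (ac k x)) e n t (b (ac k x) n).toNat) k0 (by
    intro n k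
    obtain ⟨k1, t, ht⟩ := ap_iSup (ap_mul (he' n) k)
    obtain ⟨k2, y, hy⟩ := ap_iSup ht
    refine ⟨k1 * k2, t, fun x => ?_⟩
    have hg : h * k0 * k * k1 * k2 = h * (k0 * k * (k1 * k2)) := by simp only [mul_assoc]
    rw [hg] at hy
    have h1 := of_ap_lit (hb.comp (continuous_ac (k0 * k * (k1 * k2)))) (H.mul (k0 * k * (k1 * k2))) hy.2 x
    have h2 : ∀ j : Fin t, (b' ∘ ac (k0 * k * (k1 * k2))) x j = y.1.1 j := fun j =>
      of_ap_lit (hb'.comp (continuous_ac (k0 * k * (k1 * k2)))) (H'.mul (k0 * k * (k1 * k2)))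
        ((Ap_iInf leP_refl leP_trans _ _).1 hy.1 j) x
    have h3 : b (ac (k0 * k * (k1 * k2)) x) n = y.1.2 := h1
    have h4 : Ag t y.1.1 (b' (ac (k0 * k * (k1 * k2)) x)) := fun j hj => (h2 ⟨j, hj⟩).symm
    rw [h3]
    exact (U_congr h4 e n _).1 y.2) (by
    rintro n k k' ⟨t, ht⟩
    exact ⟨t, fun x => ht (ac k' x)⟩)
  refine ⟨k0 * k, fun x => tr_of_idx (e := e) fun n => ?_⟩
  obtain ⟨F, m, hF⟩ := hk n
  obtain ⟨t, ht⟩ := hF x
  obtain ⟨z, hz⟩ := mem_cel.2 (fun i (_ : i ∈ F) => Ag.refl m (x i))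
  have h1 := ht z
  rw [ac_mul, hz] at h1
  exact ⟨t, h1⟩

theorem ap_of_tr {h : PM K} {A A' : ℕ → BP K} {b b' : (K → Cs) → Cs} (hb : Continuous b) (hb' : Continuous b')
    (H : Rd h A b) (H' : Rd h A' b') (ht : ∀ x, TR (b x) (b' x)) : Ap h (trB A A') := by
  classical
  refine ap_loc fun k => ?_
  obtain ⟨k', e, he⟩ := uni (hb.comp (continuous_ac k)) (hb'.comp (continuous_ac k)) fun x => ht (ac k x)
  refine ⟨k', ?_⟩
  have h1 : Ap (h * k * k') (trE e A A') := by
    unfold trE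
    refine (Ap_iInf leP_refl leP_trans _ _).2 fun n => ?_
    refine ap_loc fun k2 => ?_
    obtain ⟨g, hg⟩ : ∃ g : PM K, g = k * k' * k2 := ⟨_, rfl⟩
    let x0 : K → Cs := fun _ _ => false
    obtain ⟨t, ht⟩ := he (ac k2 x0) n
    have ht' : U (b' (ac g x0)) e n t (b (ac g x0) n).toNat := by
      rw [hg]
      exact ht
    obtain ⟨F, m, hF⟩ := unif_Ag (hb'.comp (continuous_ac g)) t
    obtain ⟨F', m', hF'⟩ := unif_Ag (hb.comp (continuous_ac g)) (n + 1)
    refine ⟨cel (F ∪ F') (max m m') x0, ?_⟩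
    have hle : (⨅ j : Fin t, lit (A' j) (b' (ac g x0) j)) ⊓ lit (A n) (b (ac g x0) n) ≤
        ⨆ t, ⨆ y : {y : Cs × Bool // U y.1 e n t y.2.toNat},
          (⨅ k : Fin t, lit (A' k) (y.1.1 k)) ⊓ lit (A n) y.1.2 :=
      le_iSup_of_le t (le_iSup_of_le ⟨(b' (ac g x0), b (ac g x0) n), ht'⟩ le_rfl)
    refine le_iff_Ap.1 hle _ ?_
    obtain ⟨c, hc⟩ : ∃ c : PM K, c = cel (F ∪ F') (max m m') x0 := ⟨_, rfl⟩
    rw [← hc]
    have hgc : h * k * k' * k2 * c = h * (g * c) := by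
      rw [hg]
      simp only [mul_assoc]
    rw [hgc]
    refine ⟨(Ap_iInf leP_refl leP_trans _ _).2 fun j => ?_, ?_⟩
    · refine ap_lit (H'.mul (g * c)) fun x => ?_
      have h2 := hF x0 (ac c x) (fun i hi => by
        rw [hc]
        exact (cel_at (Finset.mem_union_left _ hi) x0 x).mono (le_max_left _ _)) j j.2
      exact h2.symm
    · refine ap_lit (H.mul (g * c)) fun x => ?_
      have h2 := hF' x0 (ac c x) (fun i hi => by
        rw [hc]
        exact (cel_at (Finset.mem_union_right _ hi) x0 x).mono (le_max_right _ _)) n (Nat.lt_succ_self n)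
      exact h2.symm
  exact le_iff_Ap.1 (le_iSup (fun e => trE e A A') e) _ h1

end Pool.Agent.SX
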