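import Pool.Agent.Lib.SX.SDefs

/-!
# LDefs: types of level 1 objects
-/

set_option autoImplicit false

namespace Pool.Agent.SX

open Pool.Agent.Mart Cardinal

/-- the type of a level 1 object: condition, the last part of the condition, value, index functions, positions -/
abbrev LTy : Type := (ℕ → SM) × (ℕ → SM) × {v : (ℕ → Cs) → Cs // Continuous v} ×
  (ℕ → {e : (ℕ → Cs) → ℕ // Continuous e}) × (ℕ → ℕ → ℕ)

/-- the condition -/
def LTy.T (t : LTy) : ℕ → SM := t.1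

/-- the last part of the condition -/
def LTy.Tk (t : LTy) : ℕ → SM := t.2.1

/-- the value -/
def LTy.v (t : LTy) : (ℕ → Cs) → Cs := t.2.2.1.1

/-- the index functions -/
def LTy.e (t : LTy) (l : ℕ) : (ℕ → Cs) → ℕ := (t.2.2.2.1 l).1

/-- the positions -/
def LTy.pos (t : LTy) : ℕ → ℕ → ℕ := t.2.2.2.2

/-- the values at the points -/
def LTy.cl (g : (ℕ → Cs) → Cs) (t : LTy) (l : ℕ) (y : ℕ → Cs) : Cs :=
  g fun n => (t.Tk (t.pos l n)).f (y (t.pos l n))

/-- `j` is an object of type `t` over the set `Z` -/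
structure LObj {K : Type} (V : Emb K) (g : (ℕ → Cs) → Cs) (R0 : Set ℕ) (ρ0 : ℕ → K) (Z : Set K) (t : LTy) (j : ℕ → K) :
    Prop where
  inj : Function.Injective j
  val0 : ∀ l, V.V0 (tp j t.T) (rl (tp j t.T) (j (t.pos l 0))) (fun x => t.cl g l fun n => x (j n))
  val1 : V.V1 (tp j t.T) (fun x l => rl (tp j t.T) (j (t.pos l 0)) x) (fun x => t.v fun n => x (j n))
  idx : ∀ l y, Idx (t.v y) (t.e l y) (t.cl g l y)
  new : ∀ l n, n ∉ R0 → j (t.pos l n) ∉ Z
  root : ∀ l, ∀ n ∈ R0, j (t.pos l n) = ρ0 n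
  dis : ∀ l l' n n', n ∉ R0 → l ≠ l' → t.pos l n ≠ t.pos l' n'

end Pool.Agent.SX
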