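import Pool.Agent.Lib.SX.SDefs

/-!
# Gsq: sequences of copies (about 80 lines)

Recursion on `l` (course of values): choose `J l` by `hs` for `Z0 ∪ ρ '' R ∪ ⋃ l' < l, range (J l')` (cardinality `≤ 𝔠`: a union of `Z0` and a countable set). E.g. build a sequence of sets `Z l` with `Z 0 = Z0 ∪ range ρ`, `Z (l+1) = Z l ∪ range (J l)`.
-/

set_option autoImplicit false

namespace Pool.Agent.SX

open Cardinal

variable {K : Type}

theorem gsq {R : Set ℕ} {ρ : ℕ → K} {G : (ℕ → K) → Prop} (hi : ∀ j, G j → Function.Injective j)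
    (hr : ∀ j, G j → ∀ n ∈ R, j n = ρ n)
    (hs : ∀ Z0 : Set K, #Z0 ≤ 𝔠 → ∃ j, G j ∧ ∀ n, n ∉ R → j n ∉ Z0) {Z0 : Set K} (hZ : #Z0 ≤ 𝔠) :
    ∃ J : ℕ → ℕ → K, (∀ l, G (J l)) ∧ Apart R ρ Z0 J := by
  classical
  have hun : ∀ (Z : Set K) (j : ℕ → K), #Z ≤ 𝔠 → #(Z ∪ Set.range j : Set K) ≤ 𝔠 := by
    intro Z j h
    refine (mk_union_le Z (Set.range j)).trans ?_
    have h1 : #(Set.range j) ≤ 𝔠 := ((Set.countable_range j).le_aleph0).trans aleph0_le_continuum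
    exact add_le_of_le aleph0_le_continuum h h1
  choose jf hjG hjA using fun Z : {Z : Set K // #Z ≤ 𝔠} => hs Z.1 Z.2
  let Z : ℕ → {Z : Set K // #Z ≤ 𝔠} := fun l =>
    Nat.rec ⟨Z0 ∪ Set.range ρ, hun Z0 ρ hZ⟩ (fun _ Y => ⟨Y.1 ∪ Set.range (jf Y), hun Y.1 (jf Y) Y.2⟩) l
  have hZ0 : (Z 0).1 = Z0 ∪ Set.range ρ := rfl
  have hZs : ∀ l, (Z (l + 1)).1 = (Z l).1 ∪ Set.range (jf (Z l)) := fun _ => rfl
  have hmono : ∀ l l', l ≤ l' → (Z l).1 ⊆ (Z l').1 := by
    intro l l' h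
    induction h with
    | refl => exact subset_rfl
    | step _ ih => exact ih.trans (by rw [hZs]; exact Set.subset_union_left)
  have hbase : ∀ l, Z0 ∪ Set.range ρ ⊆ (Z l).1 := fun l => hmono 0 l (Nat.zero_le l)
  have hnew : ∀ l l' n, l < l' → jf (Z l) n ∈ (Z l').1 := by
    intro l l' n h
    apply hmono (l + 1) l' h
    rw [hZs]
    exact Or.inr ⟨n, rfl⟩
  refine ⟨fun l => jf (Z l), fun l => hjG _, ⟨fun l => hi _ (hjG _), fun l => hr _ (hjG _), ?_, ?_, ?_⟩⟩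
  · intro l n hn h
    exact hjA (Z l) n hn (hbase l (Or.inl h))
  · intro l n hn n' _ h
    refine hjA (Z l) n hn (hbase l (Or.inr ⟨n', h.symm⟩))
  · intro l l' n n' hn hll h
    rcases lt_or_gt_of_ne hll with h1 | h1
    · by_cases hn' : n' ∈ R
      · have h2 : jf (Z l') n' = ρ n' := hr _ (hjG _) n' hn'
        exact hjA (Z l) n hn (hbase l (Or.inr ⟨n', by rw [← h2]; exact h.symm⟩))
      · refine hjA (Z l') n' hn' ?_
        have h2 := hnew l l' n h1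
        have h3 : jf (Z l) n = jf (Z l') n' := h
        rwa [h3] at h2
    · refine hjA (Z l) n hn ?_
      have h2 := hnew l' l n' h1
      have h3 : jf (Z l) n = jf (Z l') n' := h
      rwa [← h3] at h2

end Pool.Agent.SX
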