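import Pool.Agent.Lib.SX.MDefs
import Pool.Agent.Lib.PolB.Rob

/-!
# BDefs: names for reals over the regular open algebra of the product of Sacks forcings
-/

set_option autoImplicit false

namespace Pool.Agent.SX

open Pool.Agent.Mart Pool.Agent.PolB Pool.Agent.Lib.BVM

/-- the order of the forcing notion -/
def leP (K : Type) (q p : PM K) : Prop := ∃ k : PM K, q = p * k

/-- the Boolean algebra -/
abbrev BP (K : Type) : Type := RO (Fsp (leP K))

/-- `h` forces that the real named by `A` is `b` (of the generic point) -/
def Rd {K : Type} (h : PM K) (A : ℕ → BP K) (b : (K → Cs) → Cs) : Prop :=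
  ∀ (k : PM K) (n : ℕ), ((∀ x, b (ac k x) n = true) → Ap (h * k) (A n)) ∧
    ((∀ x, b (ac k x) n = false) → Ap (h * k) (A n)ᶜ)

/-- the name of the real `b` (of the generic point) below `h` -/
noncomputable def nm {K : Type} (h : PM K) (b : (K → Cs) → Cs) : ℕ → BP K :=
  toB (leP K) fun n => {q | ∃ k : PM K, q = h * k ∧ ∀ x, b (ac k x) n = true}

end Pool.Agent.SX
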