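import Pool.Agent.Lib.SX.Fus
import Pool.Agent.Lib.SX.SDefs

/-!
# Cbar: countably many points which carry all root dependences (about 80 lines)

`D n k` := `(∃ γ, Dep V k (ρ n) γ) ∨ ∀ k' γ, ¬ Dep V (k * k') (ρ n) γ`. `Dep V` is inherited by stronger conditions (`mul_assoc`), so `D n` is open; dense: if some `Dep V (h * k) (ρ n) γ` then `D n (h * k)`, otherwise `D n (h * 1)`. `fus` (at `h`) gives `k1` and for every `n` a pair `F, m` with
`D n (h * k1 * cel F m x)` for all `x`. For every `n` and every representative `y` of the cells for `(F, m)` (`exists_reps`, or: choose a point for every `x`; to get a countable family use the finite set of representatives) choose `γ` if the first alternative holds. Enumerate these countably many points as `C : ℕ → K`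
(`K` is nonempty if some `γ` exists; use the given `γ0`). Now if `Dep V (h * k1 * k) (ρ n) γ`: take any point `x`; `k * cel F m x = cel F m (ac k x) * k''` (`cel_ac`), let `y` be the representative of the cell of `ac k x` (`cel_congr`). `Dep V (h * k1 * cel F m y * k'') (ρ n) γ` by inheritance, so the second alternative fails for
`h * k1 * cel F m y`, so `Dep V (h * k1 * cel F m y) (ρ n) (C i)` for some `i`, hence `Dep V (h * k1 * k * cel F m x) (ρ n) (C i)`; `k' := cel F m x`.
-/

set_option autoImplicit false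

namespace Pool.Agent.SX

variable {K : Type}

private theorem dep_mul {V : Emb K} {h : PM K} {i γ : K} (hd : Dep V h i γ) (k : PM K) :
    Dep V (h * k) i γ := by
  intro k' c hc
  rw [mul_assoc] at hc
  exact hd (k * k') c hc

theorem cbar (V : Emb K) (h : PM K) (ρ : ℕ → K) (γ0 : K) :
    ∃ (k1 : PM K) (C : ℕ → K), ∀ n k γ, Dep V (h * k1 * k) (ρ n) γ →
      ∃ k' i, Dep V (h * k1 * k * k') (ρ n) (C i) := by
  classical
  obtain ⟨k1, hk1⟩ := fus (fun n k => (∃ γ, Dep V k (ρ n) γ) ∨ ∀ k' γ, ¬ Dep V (k * k') (ρ n) γ) (by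
    intro n h'
    by_cases hc : ∃ k γ, Dep V (h' * k) (ρ n) γ
    · obtain ⟨k, γ, hγ⟩ := hc
      exact ⟨k, Or.inl ⟨γ, hγ⟩⟩
    · refine ⟨1, Or.inr fun k' γ hγ => hc ⟨k', γ, ?_⟩⟩
      rwa [mul_one] at hγ) (by
    rintro n h' k (⟨γ, hγ⟩ | hc)
    · exact Or.inl ⟨γ, dep_mul hγ k⟩
    · refine Or.inr fun k' γ hγ => hc (k * k') γ ?_
      rwa [← mul_assoc]) h
  choose F m hFm using hk1
  choose S hS using fun n => exists_reps (F n) (m n)
  have hg : ∀ n (y : K → Cs), ∃ γ, (∃ γ', Dep V (h * k1 * cel (F n) (m n) y) (ρ n) γ') →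
      Dep V (h * k1 * cel (F n) (m n) y) (ρ n) γ := by
    intro n y
    by_cases hc : ∃ γ', Dep V (h * k1 * cel (F n) (m n) y) (ρ n) γ'
    · obtain ⟨γ, hγ⟩ := hc
      exact ⟨γ, fun _ => hγ⟩
    · exact ⟨γ0, fun h' => absurd h' hc⟩
  choose g hg using hg
  have hcount : (insert γ0 (⋃ n, (g n) '' (S n : Set (K → Cs)))).Countable := by
    refine Set.Countable.insert _ (Set.countable_iUnion fun n => ?_)
    exact ((S n).finite_toSet.image _).countable
  obtain ⟨C, hC⟩ := hcount.exists_eq_range ⟨γ0, Set.mem_insert _ _⟩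
  refine ⟨k1, C, fun n k γ hγ => ?_⟩
  obtain ⟨k2, hk2⟩ := cel_ac k (F n) (m n) (fun _ _ => false)
  obtain ⟨y, hy, hxy⟩ := hS n (ac k fun _ _ => false)
  rw [cel_congr hxy] at hk2
  have e1 : h * k1 * k * cel (F n) (m n) (fun _ _ => false) = h * k1 * cel (F n) (m n) y * k2 := by
    rw [mul_assoc (h * k1) k, hk2, mul_assoc (h * k1)]
  have h1 := dep_mul hγ (cel (F n) (m n) (fun _ _ => false))
  rw [e1] at h1
  have h2 : ∃ γ', Dep V (h * k1 * cel (F n) (m n) y) (ρ n) γ' := by
    rcases hFm n y with h3 | h3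
    · exact h3
    · exact absurd h1 (h3 k2 γ)
  have h3 : g n y ∈ Set.range C := by
    rw [← hC]
    exact Set.mem_insert_of_mem _ (Set.mem_iUnion.2 ⟨n, y, hy, rfl⟩)
  obtain ⟨i, hi⟩ := h3
  refine ⟨cel (F n) (m n) (fun _ _ => false), i, ?_⟩
  rw [e1, hi]
  exact dep_mul (hg n y h2) k2

end Pool.Agent.SX
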