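import Pool.Agent.Lib.SX.Mon

/-!
# Cell: cells (about 120 lines)

Everything is a direct computation with `pfx`, `SM.lip`, `SM.inj`.
- `pfx_Ag`, `pfx_drop`: `pfx n z y` agrees with `z` below `n`; its values from `n` on are those of `y`.
- `tlM`: for `k : SM` and `z`, if `k.f (pfx n z y)` agrees with `z'` below `n` for all `y`, then
  `y ↦ (fun j => k.f (pfx n z y) (j + n))` is in `SM` and `k * pfxM n z = pfxM n z' * (this map)`.
- `cel_ac` : take for `k'` at `i ∈ F` the map `tlM` (`(ac k x) i` agrees below `n` with `k.f (pfx n (x i) y)` by `lip`), and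
  `k.1 i` at `i ∉ F`.
- `pres_cel`: from `cel_ac`, since `ac k x` agrees with `x` below `n` on `F` (`cel_congr`).
- `exists_pres`: at `i ∈ F`: `k.f y = pfx n (x i) (k'.f (y without its first n values))` if `y` agrees with `x i` below `n`, and
  `k.f y = y` otherwise; at `i ∉ F`: `k'.1 i`.
-/

set_option autoImplicit false

namespace Pool.Agent.SX

variable {K : Type}

/-- the values of `y` from `n` on -/
private def dr (n : ℕ) (y : Cs) : Cs := fun j => y (j + n)

private theorem Ag_pfx (n : ℕ) (z y : Cs) : Ag n z (pfx n z y) := by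
  intro k hk
  unfold pfx
  rw [if_pos hk]

private theorem pfx_dr {n : ℕ} {z y : Cs} (h : Ag n z y) : pfx n z (dr n y) = y := by
  funext k
  unfold pfx dr
  split_ifs with hk
  · exact h k hk
  · rw [Nat.sub_add_cancel (not_lt.1 hk)]

private theorem dr_pfx (n : ℕ) (z y : Cs) : dr n (pfx n z y) = y := by
  funext k
  show (if k + n < n then z (k + n) else y (k + n - n)) = y k
  rw [if_neg (by omega), Nat.add_sub_cancel]

private theorem pfx_congr {n : ℕ} {z z' : Cs} (h : Ag n z z') (y : Cs) : pfx n z y = pfx n z' y := by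
  funext k
  unfold pfx
  split_ifs with hk
  · exact h k hk
  · rfl

private theorem eq_of_dr {n : ℕ} {y y' : Cs} (h : Ag n y y') (h' : dr n y = dr n y') : y = y' := by
  funext k
  by_cases hk : k < n
  · exact h k hk
  · have h1 := congrFun h' (k - n)
    unfold dr at h1
    rwa [Nat.sub_add_cancel (not_lt.1 hk)] at h1

private theorem Ag_pfx_pfx {n m : ℕ} {z x y : Cs} (h : Ag m x y) : Ag (m + n) (pfx n z x) (pfx n z y) := by
  intro k hk
  unfold pfx
  split_ifs with h1
  · rfl
  · exact h _ (by omega)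

private theorem Ag_dr {n m : ℕ} {x y : Cs} (h : Ag (m + n) x y) : Ag m (dr n x) (dr n y) :=
  fun k hk => h (k + n) (by omega)

/-- the part of `h` on the cell of `z` -/
private def tlM (n : ℕ) (h : SM) (z : Cs) : SM where
  f y := dr n (h.f (pfx n z y))
  lip m x y hxy := Ag_dr (h.lip _ _ _ (Ag_pfx_pfx hxy))
  inj := by
    intro x y hxy
    have h1 : Ag n (h.f (pfx n z x)) (h.f (pfx n z y)) :=
      h.lip n _ _ ((Ag_pfx n z x).symm.trans (Ag_pfx n z y))
    exact (pfxM n z).inj (h.inj (eq_of_dr h1 hxy))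

open Classical in
/-- `h` inserted in the cell of `z` -/
private noncomputable def inM (n : ℕ) (h : SM) (z : Cs) : SM where
  f y := if Ag n z y then pfx n z (h.f (dr n y)) else y
  lip m x y hxy := by
    show Ag m (if Ag n z x then pfx n z (h.f (dr n x)) else x)
      (if Ag n z y then pfx n z (h.f (dr n y)) else y)
    by_cases hx : Ag n z x
    · by_cases hy : Ag n z y
      · rw [if_pos hx, if_pos hy]
        intro k hk
        by_cases hkn : k < n
        · exact ((Ag_pfx n z _) k hkn).symm.trans ((Ag_pfx n z _) k hkn)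
        · unfold pfx
          rw [if_neg hkn, if_neg hkn]
          have h1 : Ag (m - n) (dr n x) (dr n y) := Ag_dr (hxy.mono (by omega))
          exact h.lip _ _ _ h1 _ (by omega)
      · rw [if_pos hx, if_neg hy]
        intro k hk
        have hkn : k < n := by
          by_contra hc
          exact hy (hx.trans (hxy.mono (by omega)))
        exact (((Ag_pfx n z _) k hkn).symm.trans (hx k hkn)).trans (hxy k hk)
    · by_cases hy : Ag n z y
      · rw [if_neg hx, if_pos hy]
        intro k hk
        have hkn : k < n := by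
          by_contra hc
          exact hx (hy.trans (hxy.symm.mono (by omega)))
        exact (hxy k hk).trans (((hy k hkn).symm.trans ((Ag_pfx n z _) k hkn)))
      · rw [if_neg hx, if_neg hy]
        exact hxy
  inj := by
    intro x y hxy
    change (if Ag n z x then pfx n z (h.f (dr n x)) else x) =
      (if Ag n z y then pfx n z (h.f (dr n y)) else y) at hxy
    by_cases hx : Ag n z x
    · by_cases hy : Ag n z y
      · rw [if_pos hx, if_pos hy] at hxy
        exact eq_of_dr (hx.symm.trans hy) (h.inj ((pfxM n z).inj hxy))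
      · rw [if_pos hx, if_neg hy] at hxy
        exact absurd (hxy ▸ Ag_pfx n z _) hy
    · by_cases hy : Ag n z y
      · rw [if_neg hx, if_pos hy] at hxy
        exact absurd (hxy.symm ▸ Ag_pfx n z _) hx
      · rw [if_neg hx, if_neg hy] at hxy
        exact hxy

private theorem cel_in {F : Finset K} {n : ℕ} {i : K} (hi : i ∈ F) (x : K → Cs) :
    (cel F n x).1 i = pfxM n (x i) := if_pos hi

private theorem cel_out {F : Finset K} {n : ℕ} {i : K} (hi : i ∉ F) (x : K → Cs) :
    (cel F n x).1 i = 1 := if_neg hi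

private theorem cell_cnt {F : Finset K} [∀ i, Decidable (i ∈ F)] (k : PM K) (g : K → SM) :
    {i | (if i ∈ F then g i else k.1 i) ≠ 1}.Countable := by
  refine (F.finite_toSet.countable.union k.2).mono fun i hi => ?_
  by_cases h : i ∈ F
  · exact Or.inl h
  · refine Or.inr ?_
    change (if i ∈ F then g i else k.1 i) ≠ 1 at hi
    rwa [if_neg h] at hi

theorem cel_congr {F : Finset K} {n : ℕ} {x y : K → Cs} (h : ∀ i ∈ F, Ag n (x i) (y i)) : cel F n x = cel F n y := by
  refine PM.ext fun i z => ?_
  by_cases hi : i ∈ F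
  · rw [cel_in hi, cel_in hi]
    exact pfx_congr (h i hi) z
  · rw [cel_out hi, cel_out hi]

/-- the points of a cell -/
theorem mem_cel {F : Finset K} {n : ℕ} {x y : K → Cs} :
    (∃ z, ac (cel F n x) z = y) ↔ ∀ i ∈ F, Ag n (x i) (y i) := by
  classical
  constructor
  · rintro ⟨z, rfl⟩ i hi
    rw [ac_apply, cel_in hi]
    exact Ag_pfx n (x i) (z i)
  · intro h
    refine ⟨fun i => if i ∈ F then dr n (y i) else y i, funext fun i => ?_⟩
    rw [ac_apply]
    by_cases hi : i ∈ F
    · rw [cel_in hi, if_pos hi]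
      exact pfx_dr (h i hi)
    · rw [cel_out hi, if_neg hi]
      rfl

theorem cel_at {F : Finset K} {n : ℕ} {i : K} (hi : i ∈ F) (x z : K → Cs) : Ag n (x i) (ac (cel F n x) z i) := by
  rw [ac_apply, cel_in hi]
  exact Ag_pfx n (x i) (z i)

theorem cel_off {F : Finset K} {n : ℕ} {i : K} (hi : i ∉ F) (x z : K → Cs) : ac (cel F n x) z i = z i := by
  rw [ac_apply, cel_out hi]
  rfl

/-- if two points of the whole space agree at `i`, and the cells agree at `i`, so do their images -/
theorem cel_eq_at {F : Finset K} {n : ℕ} {i : K} {x x' z z' : K → Cs} (h : i ∈ F → Ag n (x i) (x' i))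
    (hz : z i = z' i) : ac (cel F n x) z i = ac (cel F n x') z' i := by
  rw [ac_apply, ac_apply, hz]
  by_cases hi : i ∈ F
  · rw [cel_in hi, cel_in hi]
    exact pfx_congr (h hi) (z' i)
  · rw [cel_out hi, cel_out hi]

/-- a cell is mapped into a cell -/
theorem cel_ac (k : PM K) (F : Finset K) (n : ℕ) (x : K → Cs) :
    ∃ k' : PM K, k * cel F n x = cel F n (ac k x) * k' := by
  classical
  refine ⟨⟨fun i => if i ∈ F then tlM n (k.1 i) (x i) else k.1 i,
    cell_cnt k fun i => tlM n (k.1 i) (x i)⟩, PM.ext fun i y => ?_⟩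
  rw [PM.mul_c, PM.mul_c]
  by_cases hi : i ∈ F
  · rw [cel_in hi, cel_in hi]
    change (k.1 i).f (pfx n (x i) y) =
      pfx n ((k.1 i).f (x i)) ((if i ∈ F then tlM n (k.1 i) (x i) else k.1 i).f y)
    rw [if_pos hi]
    exact (pfx_dr ((k.1 i).lip n _ _ (Ag_pfx n (x i) y))).symm
  · rw [cel_out hi, cel_out hi]
    change (k.1 i).f y = (if i ∈ F then tlM n (k.1 i) (x i) else k.1 i).f y
    rw [if_neg hi]

theorem pres_cel {F : Finset K} {n : ℕ} {k : PM K} (h : Pres F n k) (x : K → Cs) :
    ∃ k' : PM K, k * cel F n x = cel F n x * k' := by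
  obtain ⟨k', hk'⟩ := cel_ac k F n x
  refine ⟨k', ?_⟩
  rw [hk', cel_congr (x := ac k x) (y := x) fun i hi => h i hi (x i)]

theorem exists_pres (F : Finset K) (n : ℕ) (x : K → Cs) (k' : PM K) :
    ∃ k : PM K, Pres F n k ∧ k * cel F n x = cel F n x * k' := by
  classical
  refine ⟨⟨fun i => if i ∈ F then inM n (k'.1 i) (x i) else k'.1 i,
    cell_cnt k' fun i => inM n (k'.1 i) (x i)⟩, fun i hi y => ?_, PM.ext fun i y => ?_⟩
  · change Ag n ((if i ∈ F then inM n (k'.1 i) (x i) else k'.1 i).f y) y
    rw [if_pos hi]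
    change Ag n (if Ag n (x i) y then pfx n (x i) ((k'.1 i).f (dr n y)) else y) y
    split_ifs with h
    · exact (Ag_pfx n (x i) _).symm.trans h
    · exact Ag.refl n y
  · rw [PM.mul_c, PM.mul_c]
    by_cases hi : i ∈ F
    · rw [cel_in hi]
      change (if i ∈ F then inM n (k'.1 i) (x i) else k'.1 i).f (pfx n (x i) y) =
        pfx n (x i) ((k'.1 i).f y)
      rw [if_pos hi]
      change (if Ag n (x i) (pfx n (x i) y) then
        pfx n (x i) ((k'.1 i).f (dr n (pfx n (x i) y))) else pfx n (x i) y) = _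
      rw [if_pos (Ag_pfx n (x i) y), dr_pfx]
    · rw [cel_out hi]
      change (if i ∈ F then inM n (k'.1 i) (x i) else k'.1 i).f y = (k'.1 i).f y
      rw [if_neg hi]

theorem Pres.one (F : Finset K) (n : ℕ) : Pres F n (1 : PM K) := fun _ _ x => Ag.refl n x

theorem Pres.mul {F : Finset K} {n : ℕ} {h k : PM K} (hh : Pres F n h) (hk : Pres F n k) : Pres F n (h * k) :=
  fun i hi x => (hh i hi ((k.1 i).f x)).trans (hk i hi x)

theorem Pres.mono {F F' : Finset K} {n n' : ℕ} {k : PM K} (h : Pres F n k) (hF : F' ⊆ F) (hn : n' ≤ n) :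
    Pres F' n' k :=
  fun i hi x => (h i (hF hi) x).mono hn

end Pool.Agent.SX
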