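import Pool.Agent.Lib.SX.SDefs
import Pool.Agent.Lib.SX.Uni

/-!
# ClN: the claim for a new coordinate (about 130 lines)

Suppose `Ind i y`. Let `x0` be constant `false` and `x1 = x0` except `x1 i = true, true, ...`. `w x0 ≠ w x1`: there is `l` with `w x0 l ≠ w x1 l`; after exchanging the names let `w x0 l = false`, `w x1 l = true`. By continuity (`open_nbhd` for both points, `F ∋ i`) there are `F, N` such that, for `s0 = cel F N x0`, `s1 = cel F N x1`,
`w (ac s0 x) l = false` and `w (ac s1 x) l = true` for all `x`. `ac s0 x` and `ac s1 x'` differ only at `i` if `x, x'` do (or are equal) (`cel_eq_at`). Let `γ1 = γ l true`. `le01` for `V0 (h * s1) (rl (h * s1) γ1) (cg l true ∘ ac s1)` and `V1 (h * s1) .. (y ∘ ac s1)` (`n = l`) gives `k'` with `TR (cg l true (ac (s1 * k') x)) (y (ac (s1 * k') x))`.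
By `Ind i y` and `hci` we may replace `s1` by `s0` in both arguments. So `nle01` for the condition `h * s0 * k'` gives `k'', n'` with `rl (h * s0 * k') γ1 (ac k'' x) = rl (h * s0 * k') (γ n' (w (ac (s0 * k' * k'') x) n')) (ac k'' x)` for all `x` (unfold `rl`, `ac_mul`). Let `s2 = cel F2 N2 x0` be a cell on which `w (ac (s0 * k' * k'' * s2) x) n'` is constant, `= b'`
(`unif` or `open_nbhd`). By `rl_ne` (with `g` the map of `h * s0 * k' * k'' * s2` at `γ n' b'`) `γ1 = γ n' b'`, so `n' = l`, `b' = true`; but `w (ac s0 _) l = false`. Contradiction.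
-/

set_option autoImplicit false

namespace Pool.Agent.SX

variable {K : Type}

private theorem clN_core (V : Emb K) {h : PM K} {i : K} {γ : ℕ → Bool → K}
    (hγ : ∀ l b l' b', γ l b = γ l' b' → l = l' ∧ b = b')
    {w : (K → Cs) → Cs} (hw : Continuous w)
    {cg : ℕ → Bool → (K → Cs) → Cs} (hcg : ∀ l b, V.V0 h (rl h (γ l b)) (cg l b)) (hci : ∀ l b, Ind i (cg l b))
    {y : (K → Cs) → Cs} (hy : V.V1 h (fun x l => rl h (γ l (w x l)) x) y) (hyi : Ind i y)
    {p0 p1 : K → Cs} (hp : ∀ j, j ≠ i → p0 j = p1 j) {l : ℕ} (h0 : w p0 l = false) (h1 : w p1 l = true) :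
    False := by
  have hwl : ∀ n, Continuous fun x : K → Cs => w x n := fun n => (continuous_apply n).comp hw
  obtain ⟨F, N, hFN⟩ := unif (hwl l)
  have hs : ∀ p x : K → Cs, w (ac (cel F N p) x) l = w p l := fun p x =>
    (hFN p (ac (cel F N p) x) fun j hj => cel_at hj p x).symm
  have hoff : ∀ x j, j ≠ i → ac (cel F N p1) x j = ac (cel F N p0) x j := fun x j hj =>
    cel_eq_at (fun _ => by rw [hp j hj]; exact Ag.refl N (p1 j)) rfl
  -- the reduction on the second cell
  obtain ⟨k', hk'⟩ := V.le01 (V.res0 (hcg l true) (cel F N p1)) (V.res1 hy (cel F N p1))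
    ⟨l, fun x => by
      show rl h (γ l true) (ac (cel F N p1) x) =
        rl h (γ l (w (ac (cel F N p1) x) l)) (ac (cel F N p1) x)
      rw [hs, h1]⟩
  -- the same on the first cell
  have hk0 : ∀ x, Pool.Agent.Mart.TR ((cg l true ∘ ac (cel F N p0 * k')) x) ((y ∘ ac (cel F N p0 * k')) x) := by
    intro x
    have h2 : Pool.Agent.Mart.TR (cg l true (ac (cel F N p1) (ac k' x))) (y (ac (cel F N p1) (ac k' x))) := hk' x
    rw [hci l true _ _ (hoff (ac k' x)), hyi _ _ (hoff (ac k' x))] at h2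
    exact h2
  obtain ⟨k'', n', hn'⟩ := V.nle01 (V.res0 (hcg l true) (cel F N p0 * k'))
    (V.res1 hy (cel F N p0 * k')) hk0
  have hn2 : ∀ x, rl h (γ l true) (ac (cel F N p0 * k' * k'') x) =
      rl h (γ n' (w (ac (cel F N p0 * k' * k'') x) n')) (ac (cel F N p0 * k' * k'') x) := fun x => hn' x
  -- a cell on which the value is constant
  obtain ⟨F2, N2, hF2⟩ := unif ((hwl n').comp (continuous_ac (cel F N p0 * k' * k'')))
  have hs2 : ∀ x, w (ac (cel F N p0 * k' * k'') (ac (cel F2 N2 p0) x)) n' =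
      w (ac (cel F N p0 * k' * k'') p0) n' := fun x =>
    (hF2 p0 (ac (cel F2 N2 p0) x) fun j hj => cel_at hj p0 x).symm
  have h3 : γ l true = γ n' (w (ac (cel F N p0 * k' * k'') p0) n') := by
    by_contra hne
    refine rl_ne (h * (cel F N p0 * k' * k'' * cel F2 N2 p0)) hne
      ((h * (cel F N p0 * k' * k'' * cel F2 N2 p0)).1 (γ n' (w (ac (cel F N p0 * k' * k'') p0) n')))
      fun x => ?_
    have h4 := hn2 (ac (cel F2 N2 p0) x)
    rw [hs2] at h4
    exact h4
  obtain ⟨h4, h5⟩ := hγ _ _ _ _ h3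
  rw [← h4] at h5
  have h6 : w (ac (cel F N p0 * k' * k'') p0) l = false := by
    rw [← h0]
    exact hs p0 (ac k' (ac k'' p0))
  rw [h6] at h5
  exact Bool.noConfusion h5

theorem clN (V : Emb K) {h : PM K} {i : K} {γ : ℕ → Bool → K} (hγ : ∀ l b l' b', γ l b = γ l' b' → l = l' ∧ b = b')
    {w : (K → Cs) → Cs} (hw : Continuous w) (hwi : ∀ x x' : K → Cs, (∀ j, j ≠ i → x j = x' j) → x i ≠ x' i → w x ≠ w x')
    {cg : ℕ → Bool → (K → Cs) → Cs} (hcg : ∀ l b, V.V0 h (rl h (γ l b)) (cg l b)) (hci : ∀ l b, Ind i (cg l b))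
    {y : (K → Cs) → Cs} (hy : V.V1 h (fun x l => rl h (γ l (w x l)) x) y) : ¬ Ind i y := by
  classical
  intro hyi
  let x0 : K → Cs := fun _ _ => false
  let x1 : K → Cs := Function.update x0 i fun _ => true
  have hoff : ∀ j, j ≠ i → x0 j = x1 j := fun j hj => (Function.update_of_ne hj _ _).symm
  have hat : x0 i ≠ x1 i := by
    intro he
    have h1 : x1 i = fun _ => true := Function.update_self _ _ _
    rw [h1] at he
    exact Bool.noConfusion (congrFun he 0)
  obtain ⟨l, hl⟩ := Function.ne_iff.1 (hwi x0 x1 hoff hat)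
  cases h0 : w x0 l with
  | false =>
    cases h1 : w x1 l with
    | false => exact hl (h0.trans h1.symm)
    | true => exact clN_core V hγ hw hcg hci hy hyi hoff h0 h1
  | true =>
    cases h1 : w x1 l with
    | false => exact clN_core V hγ hw hcg hci hy hyi (fun j hj => (hoff j hj).symm) h1 h0
    | true => exact hl (h0.trans h1.symm)

end Pool.Agent.SX
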