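import Pool.Agent.Lib.SX.SDefs
import Pool.Agent.Lib.SX.Uni

/-!
# ClR: the claim for a root coordinate (about 60 lines)

Suppose `∀ k', ¬ Ind i (c ∘ ac k')`. Then `Dep V h i q`: if `V0 (h * k) (rl (h * k) q) c'` then `c' = c ∘ ac k` by `res0` and `uniq` (`rl_mul`), so `¬ Ind i c'`. So `hC 1 q` gives `k', n` with `Dep V (h * 1 * k') i (C n)`. `V.ex0 (h * k') (rl (h * k') (C n))` gives `k'', c''` with `V0 (h * k' * k'') (rl (h * k' * k'') (C n)) c''`; `res1` for `y`;
`le01` gives `k3` with `TR (c'' (ac k3 x)) (y (ac (k' * k'' * k3) x))` for all `x`. `uni` (module `Uni`) gives `k4, e` with `Idx (y ..) e (c'' (ac (k3 * k4) x))`. Two points which differ only at `i` have the same `y`-value (`Ind.comp`), hence the same `c''`-value (an index computes only one real: `U.unique`, `toNat_inj`). So `Ind i (c'' ∘ ac (k3 * k4))`,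
and `V0 (h * k' * k'' * (k3 * k4)) (rl ..) (c'' ∘ ac (k3 * k4))` by `res0`: contradiction with `Dep`.
-/

set_option autoImplicit false

namespace Pool.Agent.SX

variable {K : Type}

private theorem clr_inj {a b : Bool} (h : a.toNat = b.toNat) : a = b := by
  cases a <;> cases b <;> simp_all

theorem clR (V : Emb K) {h : PM K} {i q : K} {C : ℕ → K} {c y : (K → Cs) → Cs} (hc : V.V0 h (rl h q) c)
    (hy : V.V1 h (fun x n => rl h (C n) x) y)
    (hC : ∀ k γ, Dep V (h * k) i γ → ∃ k' n, Dep V (h * k * k') i (C n)) (hi : Ind i y) :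
    ∃ k', Ind i (c ∘ ac k') := by
  by_contra hcon
  push Not at hcon
  have hdep : Dep V (h * 1) i q := by
    rw [mul_one]
    intro k c' hc' hI
    have h1 := V.res0 hc k
    rw [rl_mul] at hc'
    have h2 := V.uniq hc' h1
    rw [h2] at hI
    exact hcon k hI
  obtain ⟨k', n, hd⟩ := hC 1 q hdep
  rw [mul_one] at hd
  obtain ⟨k'', c'', hc''⟩ := V.ex0 (h * k') (rl (h * k') (C n)) (continuous_rl _ _)
  have hy' := V.res1 (V.res1 hy k') k''
  obtain ⟨k3, h3⟩ := V.le01 hc'' hy' ⟨n, fun x => rfl⟩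
  have hcy : Continuous ((y ∘ ac k') ∘ ac k'') := V.cont1 hy'
  have hcc : Continuous c'' := V.cont0 hc''
  obtain ⟨k4, e, h4⟩ := uni (b := c'' ∘ ac k3) (b' := ((y ∘ ac k') ∘ ac k'') ∘ ac k3)
    (hcc.comp (continuous_ac k3)) (hcy.comp (continuous_ac k3)) h3
  have hI : Ind i (c'' ∘ ac (k3 * k4)) := by
    intro x x' hxx
    have hyy := ((((hi.comp k').comp k'').comp k3).comp k4) x x' hxx
    have h5 := h4 x
    have h6 := h4 x'
    have h7 : (((y ∘ ac k') ∘ ac k'') ∘ ac k3) (ac k4 x') =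
        (((y ∘ ac k') ∘ ac k'') ∘ ac k3) (ac k4 x) := hyy.symm
    rw [h7] at h6
    funext m
    obtain ⟨t, ht⟩ := h5 m
    obtain ⟨t', ht'⟩ := h6 m
    exact clr_inj (ht.unique ht')
  have h7 := V.res0 hc'' (k3 * k4)
  refine hd (k'' * (k3 * k4)) _ ?_ hI
  rw [← mul_assoc (h * k') k'' (k3 * k4)]
  exact h7

end Pool.Agent.SX
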