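import Pool.Agent.Lib.SX.FRec

/-!
# FHyb: conclusion of (F) (about 120 lines)

If `K` is empty: all points are equal. Otherwise let `en : ℕ → K` be surjective and `frec`. Suppose `Y (ac g x) = Y (ac g x')`. Let `y m i = x' i` if `i ∈ (range m).image en`, `x i` otherwise. Claim `c (ac g (y m)) = c (ac g (y (m+1)))`:
`y m` and `y (m+1)` are equal except possibly at `i = en m` (and equal if `en m` already occurred). `DD` at `m` for the point `x'`: second type: then `x' (en m) = x (en m)` by the last part of `frec` (for `x', x`), so `y m = y (m+1)`. First type: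
`ac g (y m) = ac (gm m) (ac (tm m) (y m))`, and `ac (tm m) (y m)`, `ac (tm m) (y (m+1))` differ only at `i` and lie in the cell of `x'` for `(F m, m)` (`Pres`; `y m`, `y (m+1)` agree with `x'` on `F m`), so both are images under `cel (F m) m x'` of two points which differ only at `i`
(`mem_cel`; if `i ∈ F m` then `y m = y (m+1)` anyway); `Ind i (c ∘ ac (gm m * cel ..))`. So `c (ac g x) = c (ac g (y m))` for all `m`, and `y m → x'` (every coordinate is eventually that of `x'`), so by continuity (`c (ac g (y m)) n` is eventually constant; or `unif`) `c (ac g x) = c (ac g x')`.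
-/

set_option autoImplicit false

namespace Pool.Agent.SX

variable {K : Type}

theorem fhyb [Countable K] {c Y : (K → Cs) → Cs} (hc : Continuous c) (hY : Continuous Y)
    (H : ∀ (k : PM K) (i : K), Ind i (Y ∘ ac k) → ∃ k', Ind i (c ∘ ac (k * k'))) :
    ∃ g : PM K, ∀ x x', Y (ac g x) = Y (ac g x') → c (ac g x) = c (ac g x') := by
  classical
  rcases isEmpty_or_nonempty K with hK | hK
  · exact ⟨1, fun x x' _ => by rw [Subsingleton.elim x x']⟩
  obtain ⟨en, hen⟩ := exists_surjective_nat K
  obtain ⟨g, gm, tm, hg, hp, hd, hs⟩ := frec hc hY H en hen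
  refine ⟨g, fun x x' hY' => ?_⟩
  obtain ⟨y, hy⟩ : ∃ y : ℕ → K → Cs, ∀ m i,
      y m i = if i ∈ (Finset.range m).image en then x' i else x i := ⟨_, fun _ _ => rfl⟩
  have hyF : ∀ m, ∀ i ∈ (Finset.range m).image en, y m i = x' i := fun m i hi => by
    rw [hy, if_pos hi]
  have hsub : ∀ m, (Finset.range m).image en ⊆ (Finset.range (m + 1)).image en := fun m =>
    Finset.image_subset_image (Finset.range_mono (Nat.le_succ m))
  have hyj : ∀ m j, j ≠ en m → y m j = y (m + 1) j := by
    intro m j hj
    have h1 : j ∈ (Finset.range (m + 1)).image en ↔ j ∈ (Finset.range m).image en := by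
      rw [Finset.range_add_one, Finset.image_insert, Finset.mem_insert]
      exact or_iff_right hj
    rw [hy, hy]
    simp only [h1]
  have hstep : ∀ m, c (ac g (y m)) = c (ac g (y (m + 1))) := by
    intro m
    rcases hd m x' with ⟨-, hI⟩ | h2
    · obtain ⟨z0, hz0⟩ := (mem_cel (F := (Finset.range m).image en) (n := m) (x := x')
        (y := ac (tm m) (y m))).2 (fun i hi => by
          have h3 := hp m i hi (y m i)
          rw [hyF m i hi] at h3
          rw [ac_apply, hyF m i hi]
          exact h3.symm)
      obtain ⟨z1, hz1⟩ := (mem_cel (F := (Finset.range m).image en) (n := m) (x := x')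
        (y := ac (tm m) (y (m + 1)))).2 (fun i hi => by
          have h3 := hp m i hi (y (m + 1) i)
          rw [hyF (m + 1) i (hsub m hi)] at h3
          rw [ac_apply, hyF (m + 1) i (hsub m hi)]
          exact h3.symm)
      have h4 : ∀ j, j ≠ en m → z0 j = z1 j := by
        intro j hj
        apply ((cel ((Finset.range m).image en) m x').1 j).inj
        have h5 := congrFun hz0 j
        have h6 := congrFun hz1 j
        rw [ac_apply] at h5 h6
        rw [h5, h6, ac_apply, ac_apply, hyj m j hj]
      have h7 := hI z0 z1 h4
      have h8 : ∀ z, (c ∘ ac (gm m * cel ((Finset.range m).image en) m x')) z =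
          c (ac (gm m) (ac (cel ((Finset.range m).image en) m x') z)) := fun z => rfl
      rw [h8, h8, hz0, hz1, ← ac_mul, ← ac_mul, ← hg] at h7
      exact h7
    · have h9 : x' (en m) = x (en m) := by
        by_contra hne
        exact hs m x' x h2 hne hY'.symm
      have h10 : y m = y (m + 1) := by
        funext j
        by_cases hj : j = en m
        · rw [hj, hy, hy]
          split_ifs <;> first | rfl | exact h9 | exact h9.symm
        · exact hyj m j hj
      rw [h10]
  have hall : ∀ m, c (ac g (y m)) = c (ac g x) := by
    intro m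
    induction m with
    | zero =>
      have h1 : y 0 = x := funext fun i => by
        rw [hy, Finset.range_zero, Finset.image_empty, if_neg (Finset.notMem_empty i)]
      rw [h1]
    | succ m ih => rw [← hstep, ih]
  refine eq_of_Ag fun N => ?_
  obtain ⟨F, n, hF⟩ := unif_Ag (hc.comp (continuous_ac g)) N
  choose f hf using hen
  have h1 : ∀ i ∈ F, y (F.sup f + 1) i = x' i := fun i hi => by
    refine hyF _ i (Finset.mem_image.2 ⟨f i, Finset.mem_range.2 ?_, hf i⟩)
    exact Nat.lt_succ_of_le (Finset.le_sup hi)
  have h2 := hF (y (F.sup f + 1)) x' fun i hi => by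
    rw [h1 i hi]
    exact Ag.refl _ _
  have h3 : Ag N (c (ac g (y (F.sup f + 1)))) (c (ac g x')) := h2
  rw [hall] at h3
  exact h3

end Pool.Agent.SX
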