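import Pool.Agent.Lib.SX.CtL
import Pool.Agent.Lib.SX.FHyb
import Pool.Agent.Lib.SX.Fini

/-!
# Ctb: (F) for arbitrary index sets (about 90 lines)

`dep` for `c` and `Y`: a countable set `I` such that both depend only on the coordinates in `I`. On `PM I` and `I → Cs` use `c1 = c ∘ exX I`, `Y1 = Y ∘ exX I`; so `c x = c1 (rsX I x)`, `Y x = Y1 (rsX I x)`.
`Y (ac (exP I k) x) = Y1 (ac k (rsX I x))` (`rsX_ac`, `rsP_exP`). Hypothesis of `fhyb` for `c1, Y1`: if `Ind i (Y1 ∘ ac k)` (`i : I`) then `Ind i.1 (Y ∘ ac (exP I k))`, so `H` gives `k' : PM K` with `Ind i.1 (c ∘ ac (exP I k * k'))`; then `Ind i (c1 ∘ ac (k * rsP I k'))`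
(two points of `I → Cs` which differ only at `i` are the restrictions of their extensions, which differ only at `i.1`). Result `g1 : PM I`; `g = exP I g1`.
-/

set_option autoImplicit false

namespace Pool.Agent.SX

variable {K : Type}

theorem ctb {c Y : (K → Cs) → Cs} (hc : Continuous c) (hY : Continuous Y)
    (H : ∀ (k : PM K) (i : K), Ind i (Y ∘ ac k) → ∃ k', Ind i (c ∘ ac (k * k'))) :
    ∃ g : PM K, ∀ x x', Y (ac g x) = Y (ac g x') → c (ac g x) = c (ac g x') := by
  classical
  obtain ⟨I1, hI1, hc1⟩ := dep hc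
  obtain ⟨I2, hI2, hY1⟩ := dep hY
  obtain ⟨I, hIe⟩ : ∃ I : Set K, I = I1 ∪ I2 := ⟨_, rfl⟩
  have hI : I.Countable := by rw [hIe]; exact hI1.union hI2
  have : Countable I := hI.to_subtype
  have hcI : ∀ x x', rsX I x = rsX I x' → c x = c x' := by
    intro x x' h
    refine hc1 x x' fun i hi => ?_
    have hi' : i ∈ I := by rw [hIe]; exact Or.inl hi
    exact congrFun h ⟨i, hi'⟩
  have hYI : ∀ x x', rsX I x = rsX I x' → Y x = Y x' := by
    intro x x' h
    refine hY1 x x' fun i hi => ?_
    have hi' : i ∈ I := by rw [hIe]; exact Or.inr hi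
    exact congrFun h ⟨i, hi'⟩
  have key : ∀ (k : PM I) (x : K → Cs), rsX I (exX I (ac k (rsX I x))) = rsX I (ac (exP I k) x) := by
    intro k x
    rw [rsX_exX, rsX_ac, rsP_exP]
  obtain ⟨g1, hg1⟩ := fhyb (K := I) (c := c ∘ exX I) (Y := Y ∘ exX I) (hc.comp (continuous_exX I))
    (hY.comp (continuous_exX I)) (by
      intro k i hi
      have h1 : Ind i.1 (Y ∘ ac (exP I k)) := by
        intro x y hxy
        have e := hi (rsX I x) (rsX I y) (fun j hj => hxy j.1 (fun h => hj (Subtype.ext h)))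
        have e1 : Y (exX I (ac k (rsX I x))) = Y (exX I (ac k (rsX I y))) := e
        rw [hYI _ _ (key k x), hYI _ _ (key k y)] at e1
        exact e1
      obtain ⟨k', hk'⟩ := H (exP I k) i.1 h1
      refine ⟨rsP I k', fun x y hxy => ?_⟩
      have e : ∀ x, rsX I (exX I (ac (k * rsP I k') x)) = rsX I (ac (exP I k * k') (exX I x)) := by
        intro x
        rw [rsX_exX, rsX_ac, rsX_exX]
        have e2 : rsP I (exP I k * k') = k * rsP I k' := by
          refine PM.ext fun j z => ?_
          show ((exP I k).1 j.1 * k'.1 j.1).f z = (k.1 j * k'.1 j.1).f z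
          rw [exP_mem]
        rw [e2]
      have e3 := hk' (exX I x) (exX I y) (by
        intro j hj
        by_cases h : j ∈ I
        · show (if h : j ∈ I then x ⟨j, h⟩ else fun _ => false) = (if h : j ∈ I then y ⟨j, h⟩ else fun _ => false)
          rw [dif_pos h, dif_pos h]
          exact hxy ⟨j, h⟩ (fun h2 => hj (congrArg Subtype.val h2))
        · show (if h : j ∈ I then x ⟨j, h⟩ else fun _ => false) = (if h : j ∈ I then y ⟨j, h⟩ else fun _ => false)
          rw [dif_neg h, dif_neg h])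
      show c (exX I (ac (k * rsP I k') x)) = c (exX I (ac (k * rsP I k') y))
      rw [hcI _ _ (e x), hcI _ _ (e y)]
      exact e3)
  refine ⟨exP I g1, fun x x' h => ?_⟩
  have h1 := hg1 (rsX I x) (rsX I x') (by
    show Y (exX I (ac g1 (rsX I x))) = Y (exX I (ac g1 (rsX I x')))
    rw [hYI _ _ (key g1 x), hYI _ _ (key g1 x'), h])
  have h2 : c (exX I (ac g1 (rsX I x))) = c (exX I (ac g1 (rsX I x'))) := h1
  rw [hcI _ _ (key g1 x), hcI _ _ (key g1 x')] at h2
  exact h2

end Pool.Agent.SX
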