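import Pool.Agent.Lib.SX.TpL
import Pool.Agent.Lib.SX.InjX
import Pool.Agent.Lib.SX.Fini
import Pool.Agent.Lib.SX.Card
import Pool.Agent.Lib.SX.Refl

/-!
# PSup: supply of isomorphic points (about 130 lines)

For every `Z : Set K` with `#Z ≤ 𝔠` (for the others take anything, e.g. `Z = ∅`): there is `γ ∉ Z` (`#Z ≤ 𝔠 < #K`). `V.ex0 1 (fun x => x γ)` gives `k, b` with `V.V0 (1 * k) ((fun x => x γ) ∘ ac k) b`, and `(fun x => x γ) ∘ ac k = rl k γ`. `dep` for `b` (continuous by `cont0`): `I`.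
`exists_enum` for `I ∪ {i | k.1 i ≠ 1}` and `γ`: `j`. `T n = k.1 (j n)`; `read` for `b`: `g`. Then `tp j T = k` (`tp_at`, `tp_off`), so `Good`'s `val` holds. The type of `Z` is `(T, g)` in `(ℕ → SM) × {g : (ℕ → Cs) → Cs // Continuous g}`, cardinality `≤ 𝔠` (`Card`).
`refl'` with these `t Z`, `j Z`: `T, g, R, ρ`. `0 ∉ R`: otherwise apply it to `Z0 = {ρ 0}`: `Z ∋ ρ 0 = j Z 0 = γ_Z ∉ Z`. Supply: for `Z0` take `Z ⊇ Z0`; `j Z n ∉ Z ⊇ Z0` for `n ∉ R`.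
-/

set_option autoImplicit false

namespace Pool.Agent.SX

open Cardinal

variable {K : Type}

private theorem psup_one (hK : 𝔠 < #K) (V : Emb K) (Z : Set K) :
    ∃ (t : (ℕ → SM) × {g : (ℕ → Cs) → Cs // Continuous g}) (j : ℕ → K), #Z ≤ 𝔠 →
      Function.Injective j ∧ j 0 ∉ Z ∧
        V.V0 (tp j t.1) (rl (tp j t.1) (j 0)) (fun x => t.2.1 fun n => x (j n)) := by
  by_cases hZ : #Z ≤ 𝔠
  swap
  · have hne : Nonempty K := by
      rw [← Cardinal.mk_ne_zero_iff]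
      intro h0
      rw [h0] at hK
      exact not_lt_zero hK
    exact ⟨(fun _ => 1, ⟨fun _ _ => false, continuous_const⟩), fun _ => hne.some,
      fun h => absurd h hZ⟩
  obtain ⟨γ, hγ⟩ : ∃ γ, γ ∉ Z := by
    by_contra hcon
    push Not at hcon
    have h1 : Z = Set.univ := Set.eq_univ_of_forall hcon
    rw [h1, Cardinal.mk_univ] at hZ
    exact absurd hK (not_lt.2 hZ)
  obtain ⟨k, b, hV⟩ := V.ex0 1 (fun x => x γ) (continuous_apply γ)
  have hb : Continuous b := V.cont0 hV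
  obtain ⟨I, hI, hdep⟩ := dep hb
  obtain ⟨j, hj, hj0, hjI⟩ := exists_enum hK (hI.union (supp_countable k)) γ
  have htp : tp j (fun n => k.1 (j n)) = k := by
    apply Subtype.ext
    funext i
    by_cases h : ∃ n, j n = i
    · obtain ⟨n, rfl⟩ := h
      exact tp_at hj _ n
    · have h1 : ∀ n, j n ≠ i := fun n hn => h ⟨n, hn⟩
      rw [tp_off _ h1]
      by_contra h2
      exact h (hjI i (Or.inr fun h3 => h2 h3.symm))
  obtain ⟨g, hg, hbg⟩ := read hb hj (fun x y hxy => hdep x y fun i hi => by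
    obtain ⟨n, rfl⟩ := hjI i (Or.inl hi)
    exact hxy n)
  refine ⟨(fun n => k.1 (j n), ⟨g, hg⟩), j, fun _ => ⟨hj, by rw [hj0]; exact hγ, ?_⟩⟩
  simp only
  rw [htp, hj0]
  rw [one_mul] at hV
  have h1 : (fun x : K → Cs => g fun n => x (j n)) = b := funext fun x => (hbg x).symm
  rw [h1]
  exact hV

theorem psup (hK : 𝔠 < #K) (V : Emb K) :
    ∃ (T : ℕ → SM) (g : (ℕ → Cs) → Cs) (R : Set ℕ) (ρ : ℕ → K), Continuous g ∧ 0 ∉ R ∧
      ∀ Z0 : Set K, #Z0 ≤ 𝔠 → ∃ j, Good V T g R ρ j ∧ ∀ n, n ∉ R → j n ∉ Z0 := by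
  choose t j htj using psup_one hK V
  obtain ⟨t0, R, ρ, h⟩ := refl' hK
    (card_prod (card_seq card_SM) (card_cont (ℕ → Cs))) t j
  refine ⟨t0.1, t0.2.1, R, ρ, t0.2.2, ?_, ?_⟩
  · intro h0
    obtain ⟨Z, hZ, hZ0, -, hroot, -⟩ := h {ρ 0} (by
      rw [Cardinal.mk_singleton]
      exact Cardinal.one_le_aleph0.trans Cardinal.aleph0_le_continuum)
    have h1 := (htj Z hZ).2.1
    rw [hroot 0 h0] at h1
    exact h1 (hZ0 rfl)
  · intro Z0 hZ0
    obtain ⟨Z, hZ, hZZ, ht, hroot, hn⟩ := h Z0 hZ0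
    obtain ⟨h1, -, h3⟩ := htj Z hZ
    rw [ht] at h3
    exact ⟨j Z, ⟨h1, hroot, h3⟩, fun n hnR hmem => hn n hnR (hZZ hmem)⟩

end Pool.Agent.SX
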