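import Pool.Agent.Lib.SX.LSuA
import Pool.Agent.Lib.SX.PSup
import Pool.Agent.Lib.SX.Refl
import Pool.Agent.Lib.SX.Card

/-!
# LSuB: supply of isomorphic level 1 objects (about 120 lines)

`psup` gives `T0, g, R0, ρ0`; `lsuA` gives for every `Z` with `#Z ≤ 𝔠` a type and an injection (choice; anything for the other `Z`). `#LTy ≤ 𝔠` (`Card`). `refl'` gives `t, R, ρ`: for all `Z0` there is `Z ⊇ Z0` with `LObj V g R0 ρ0 Z t (j Z)`, `j Z = ρ` on `R`, `j Z n ∉ Z` off `R`.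
`hd l = t.pos l 0`, `cl l = t.cl g l`, `el l = t.e l`, `v = t.v`; continuity of `t.cl g l`: `SM.continuous`. `blk p` := `some l` if `∃ n ∉ R0, t.pos l n = p` (at most one such `l` by `dis`), `none` otherwise (classical choice).
* For `n ∈ R0`: `t.pos l n ∈ R`: otherwise take `Z ∋ ρ0 n` (`Z0 = {ρ0 n}`): `j Z (t.pos l n) = ρ0 n ∈ Z`, but it is `∉ Z`. So `cl l y` depends only on the positions in `R` and in the block `l`.
* `p ∈ R → blk p = none`: if `p = t.pos l n`, `n ∉ R0`, take `Z ∋ ρ p`: `j Z p = ρ p ∈ Z`, contradiction to `new`. Hence `hd l ∉ R` (`0 ∉ R0`).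
-/

set_option autoImplicit false

namespace Pool.Agent.SX

open Cardinal Pool.Agent.Mart

variable {K : Type}

theorem lsuB (hK : 𝔠 < #K) (V : Emb K) :
    ∃ (T : ℕ → SM) (hd : ℕ → ℕ) (cl : ℕ → (ℕ → Cs) → Cs) (el : ℕ → (ℕ → Cs) → ℕ) (v : (ℕ → Cs) → Cs) (R : Set ℕ)
      (ρ : ℕ → K) (blk : ℕ → Option ℕ), Continuous v ∧ (∀ l, Continuous (cl l)) ∧ (∀ l, Continuous (el l)) ∧
      (∀ l y, Idx (v y) (el l y) (cl l y)) ∧
      (∀ l y y', (∀ p, p ∈ R ∨ blk p = some l → y p = y' p) → cl l y = cl l y') ∧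
      (∀ p ∈ R, blk p = none) ∧ (∀ l, hd l ∉ R) ∧
      ∀ Z0 : Set K, #Z0 ≤ 𝔠 → ∃ j, Good1 V T hd cl v R ρ j ∧ ∀ n, n ∉ R → j n ∉ Z0 := by
  classical
  obtain ⟨T0, g, R0, ρ0, hg, h0R0, hs⟩ := psup hK V
  have hempty : #(∅ : Set K) ≤ 𝔠 := by
    rw [Cardinal.mk_eq_zero]
    exact zero_le
  have hsing : ∀ z : K, #({z} : Set K) ≤ 𝔠 := by
    intro z
    rw [Cardinal.mk_singleton]
    exact Cardinal.one_le_aleph0.trans Cardinal.aleph0_le_continuum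
  have hone : ∀ Z : Set K, ∃ (t : LTy) (j : ℕ → K), #Z ≤ 𝔠 → LObj V g R0 ρ0 Z t j := by
    intro Z
    by_cases hZ : #Z ≤ 𝔠
    · obtain ⟨t, j, h⟩ := lsuA hK V hg hs hZ
      exact ⟨t, j, fun _ => h⟩
    · obtain ⟨t, j, -⟩ := lsuA hK V hg hs hempty
      exact ⟨t, j, fun h' => absurd h' hZ⟩
  choose t j htj using hone
  have hnat : #ℕ ≤ 𝔠 := by
    rw [Cardinal.mk_nat]
    exact Cardinal.aleph0_le_continuum
  have hLTy : #LTy ≤ 𝔠 :=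
    card_prod (card_seq card_SM) (card_prod (card_seq card_SM) (card_prod (card_cont (ℕ → Cs))
      (card_prod (card_seq (card_cont_nat (ℕ → Cs))) (card_seq (card_seq hnat)))))
  obtain ⟨t0, R, ρ, h⟩ : ∃ (t0 : LTy) (R : Set ℕ) (ρ : ℕ → K), ∀ Z0 : Set K, #Z0 ≤ 𝔠 →
      ∃ Z : Set K, #Z ≤ 𝔠 ∧ Z0 ⊆ Z ∧ t Z = t0 ∧ (∀ n ∈ R, j Z n = ρ n) ∧ ∀ n, n ∉ R → j Z n ∉ Z :=
    refl' hK hLTy t j
  have hex : ∀ Z0 : Set K, #Z0 ≤ 𝔠 → ∃ (j' : ℕ → K) (Z : Set K), LObj V g R0 ρ0 Z t0 j' ∧ Z0 ⊆ Z ∧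
      (∀ n ∈ R, j' n = ρ n) ∧ ∀ n, n ∉ R → j' n ∉ Z := by
    intro Z0 hZ0
    obtain ⟨Z, hZ, hZZ, ht, hroot, hn⟩ := h Z0 hZ0
    refine ⟨j Z, Z, ?_, hZZ, hroot, hn⟩
    rw [← ht]
    exact htj Z hZ
  have hposR : ∀ l, ∀ n ∈ R0, t0.pos l n ∈ R := by
    intro l n hn
    by_contra hc
    obtain ⟨j', Z, ho, hZZ, hroot, hnew⟩ := hex {ρ0 n} (hsing _)
    apply hnew _ hc
    rw [ho.root l n hn]
    exact hZZ rfl
  have hposN : ∀ l n, n ∉ R0 → t0.pos l n ∉ R := by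
    intro l n hn hc
    obtain ⟨j', Z, ho, hZZ, hroot, hnew⟩ := hex {ρ (t0.pos l n)} (hsing _)
    apply ho.new l n hn
    rw [hroot _ hc]
    exact hZZ rfl
  obtain ⟨j1, Z1, ho1, -⟩ := hex ∅ hempty
  obtain ⟨blk, hblk1, hblk2⟩ : ∃ blk : ℕ → Option ℕ, (∀ l n, n ∉ R0 → blk (t0.pos l n) = some l) ∧
      ∀ p, (¬ ∃ l n, n ∉ R0 ∧ t0.pos l n = p) → blk p = none := by
    refine ⟨fun p => if h : ∃ l n, n ∉ R0 ∧ t0.pos l n = p then some h.choose else none, ?_, ?_⟩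
    · intro l n hn
      have h1 : ∃ l' n', n' ∉ R0 ∧ t0.pos l' n' = t0.pos l n := ⟨l, n, hn, rfl⟩
      have h2 : h1.choose = l := by
        obtain ⟨n', hn', hp⟩ := h1.choose_spec
        by_contra hne
        exact ho1.dis _ _ n' n hn' hne hp
      show (if h : ∃ l' n', n' ∉ R0 ∧ t0.pos l' n' = t0.pos l n then some h.choose else none) = some l
      rw [dif_pos h1, h2]
    · intro p hp
      exact dif_neg hp
  refine ⟨t0.T, fun l => t0.pos l 0, fun l => t0.cl g l, t0.e, t0.v, R, ρ, blk, t0.2.2.1.2, ?_,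
    fun l => (t0.2.2.2.1 l).2, fun l y => ho1.idx l y, ?_, ?_, fun l => hposN l 0 h0R0, ?_⟩
  · intro l
    exact hg.comp (continuous_pi fun n => (t0.Tk (t0.pos l n)).continuous.comp (continuous_apply _))
  · intro l y y' hyy
    show g _ = g _
    congr 1
    funext n
    by_cases hn : n ∈ R0
    · rw [hyy _ (Or.inl (hposR l n hn))]
    · rw [hyy _ (Or.inr (hblk1 l n hn))]
  · intro p hp
    apply hblk2
    rintro ⟨l, n, hn, rfl⟩
    exact hposN l n hn hp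
  · intro Z0 hZ0
    obtain ⟨j', Z, ho, hZZ, hroot, hnew⟩ := hex Z0 hZ0
    exact ⟨j', ⟨ho.inj, hroot, ho.val0, ho.val1⟩, fun n hn hm => hnew n hn (hZZ hm)⟩

end Pool.Agent.SX
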