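import Pool.Agent.Lib.SX.P1M
import Pool.Agent.Lib.SX.PCop
import Pool.Agent.Lib.SX.LSuB
import Pool.Agent.Lib.SX.CtL

/-!
# Ph1: ground model reals (about 150 lines)

`lsuB` gives the supply; `gsq` with `G := Good1 ..`, `Z0 := {q}` gives `J` (all `J s` good, `Apart R ρ {q} J`); `un` with `k1 := 1`: `h` with `h = tp (J s) T * m_s`, `m_s = 1` on the range of `J s`. By `res0`, `res1`: `V0 h (rl h (J s (hd l))) (fun x => cl l fun n => x (J s n))`, `V1 h (fun x l => rl h (J s (hd l)) x) (fun x => v fun n => x (J s n))`.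
Let `I : Set K` = union of the ranges of the `J s` (countable), `J' s n : I`. `Apart R ρ' ∅ J'` (`ρ' n = J' 0 n`). `hne` for `pcop`: if for some `l, s ≠ s'`, `k : PM I` the values were equal for all `x`, then for `k^ = exP I k` the functions `(fun x => cl l fun n => x (J s n)) ∘ ac k^` and the one for `s'` are equal (`rsX_ac`, `rsP_exP`), so `nle00` (with `TR.refl`) for the
condition `h * k^` gives `k'` with `rl (h * k^) (J s (hd l)) (ac k' x) = rl (h * k^) (J s' (hd l)) (ac k' x)` for all `x`, contradiction to `rl_ne` (`J s (hd l) ≠ J s' (hd l)` by `dis`, as `hd l ∉ R`). `pcop` and `p1m` (for the countable type `I`) give `g : PM I`. Let `k := h * exP I g`, `δ s n = J s (hd n)`, value `s`: `fun x => v fun n => ac (exP I g) x (J s n)`.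
For `j < 4`: the values for `2 * j` and `2 * j + 1` are `v j (ac g (rsX I x))`, `u j (ac g (rsX I x))`. `δ s n ≠ q`: `A.av` (`hd n ∉ R`).
-/

set_option autoImplicit false

namespace Pool.Agent.SX

open Cardinal Pool.Agent.Mart

variable {K : Type}

theorem ph1 (hK : 𝔠 < #K) (V : Emb K) (q : K) (d : Cs) :
    ∃ (k : PM K) (δ : ℕ → ℕ → K) (v : ℕ → (K → Cs) → Cs), (∀ s, V.V1 k (fun x n => rl k (δ s n) x) (v s)) ∧
      (∀ s n, δ s n ≠ q) ∧ ∀ x z, (∀ s < 8, TR (v s x) z) → TR d z := by
  obtain ⟨T, hd, cl, el, v, R, ρ, blk, hv, hc, he, hidx, hdep, hb, hhd, hs⟩ := lsuB hK V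
  have hq : #({q} : Set K) ≤ 𝔠 := by
    rw [Cardinal.mk_singleton]
    exact Cardinal.one_le_aleph0.trans Cardinal.aleph0_le_continuum
  obtain ⟨J, hJG, A⟩ := gsq (G := Good1 V T hd cl v R ρ) (fun j hj => hj.inj) (fun j hj => hj.root) hs hq
  obtain ⟨h, -, hJ⟩ := un A T 1 (fun _ _ _ => rfl)
  have hpt : ∀ (s : ℕ) (m : PM K), (∀ n, m.1 (J s n) = (1 : PM K).1 (J s n)) → ∀ (x : K → Cs) (n : ℕ),
      ac m x (J s n) = x (J s n) := by
    intro s m hm x n
    rw [ac_apply, hm n]
    rfl
  have hV0 : ∀ s l, V.V0 h (rl h (J s (hd l))) (fun x => cl l fun n => x (J s n)) := by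
    intro s l
    obtain ⟨m, hm, hmk⟩ := hJ s
    have h1 := V.res0 ((hJG s).val0 l) m
    have e1 : rl (tp (J s) T) (J s (hd l)) ∘ ac m = rl h (J s (hd l)) := by
      rw [hm, rl_mul]
    have e2 : (fun x : K → Cs => cl l fun n => x (J s n)) ∘ ac m = fun x => cl l fun n => x (J s n) := by
      funext x
      exact congrArg (cl l) (funext fun n => hpt s m hmk x n)
    rw [e1, e2, ← hm] at h1
    exact h1
  have hV1 : ∀ s, V.V1 h (fun x l => rl h (J s (hd l)) x) (fun x => v fun n => x (J s n)) := by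
    intro s
    obtain ⟨m, hm, hmk⟩ := hJ s
    have h1 := V.res1 (hJG s).val1 m
    have e1 : (fun (x : K → Cs) l => rl (tp (J s) T) (J s (hd l)) x) ∘ ac m =
        fun x l => rl h (J s (hd l)) x := by
      rw [hm]
      rfl
    have e2 : (fun x : K → Cs => v fun n => x (J s n)) ∘ ac m = fun x => v fun n => x (J s n) := by
      funext x
      exact congrArg v (funext fun n => hpt s m hmk x n)
    rw [e1, e2, ← hm] at h1
    exact h1
  -- the countable set of the coordinates
  let I : Set K := ⋃ s, Set.range (J s)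
  have hI : I.Countable := Set.countable_iUnion fun s => Set.countable_range (J s)
  have : Countable I := hI.to_subtype
  have hmem : ∀ s n, J s n ∈ I := fun s n => Set.mem_iUnion.2 ⟨s, n, rfl⟩
  let J' : ℕ → ℕ → I := fun s n => ⟨J s n, hmem s n⟩
  have hval : ∀ s n, (J' s n).1 = J s n := fun _ _ => rfl
  have A' : Apart R (J' 0) (∅ : Set I) J' := by
    refine ⟨fun l n n' hnn => ?_, fun l n hn => ?_, fun l n hn hm => hm, fun l n hn n' hn' hnn => ?_,
      fun l l' n n' hn hll hnn => ?_⟩
    · exact A.inj l (congrArg Subtype.val hnn)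
    · apply Subtype.ext
      rw [hval, hval, A.root l n hn, A.root 0 n hn]
    · have h1 : J l n = J 0 n' := congrArg Subtype.val hnn
      rw [A.root 0 n' hn'] at h1
      exact A.avr l n hn n' hn' h1
    · exact A.dis l l' n n' hn hll (congrArg Subtype.val hnn)
  have hex : ∀ (g : PM I) (x : K → Cs) (s n : ℕ), ac (exP I g) x (J s n) = ac g (rsX I x) (J' s n) := by
    intro g x s n
    rw [ac_apply, ac_apply]
    have h1 : (exP I g).1 (J s n) = g.1 (J' s n) := exP_mem g (J' s n)
    rw [h1]
    rfl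
  have hne : ∀ l s s', s ≠ s' → ∀ k : PM I,
      ∃ x, (cl l fun n => ac k x (J' s n)) ≠ cl l fun n => ac k x (J' s' n) := by
    intro l s s' hss k
    by_contra hcon
    push Not at hcon
    have h1 := V.res0 (hV0 s l) (exP I k)
    have h2 := V.res0 (hV0 s' l) (exP I k)
    have e : ∀ x : K → Cs, ((fun x : K → Cs => cl l fun n => x (J s n)) ∘ ac (exP I k)) x =
        ((fun x : K → Cs => cl l fun n => x (J s' n)) ∘ ac (exP I k)) x := by
      intro x
      show (cl l fun n => ac (exP I k) x (J s n)) = cl l fun n => ac (exP I k) x (J s' n)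
      have h3 : (fun n => ac (exP I k) x (J s n)) = fun n => ac k (rsX I x) (J' s n) :=
        funext fun n => hex k x s n
      have h4 : (fun n => ac (exP I k) x (J s' n)) = fun n => ac k (rsX I x) (J' s' n) :=
        funext fun n => hex k x s' n
      rw [h3, h4]
      exact hcon (rsX I x)
    obtain ⟨k', hk'⟩ := V.nle00 h1 h2 (fun x => by rw [e x]; exact TR.refl _)
    have hJne : J s (hd l) ≠ J s' (hd l) := A.dis s s' (hd l) (hd l) (hhd l) hss
    exact rl_ne (h * (exP I k * k')) hJne ((h * (exP I k * k')).1 (J s' (hd l))) hk'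
  obtain ⟨lab, src, D⟩ := pcop A' hb hv hc he hidx hdep hne d
  obtain ⟨g, hg⟩ := p1m D
  refine ⟨h * exP I g, fun s n => J s (hd n), fun s x => v fun n => ac (exP I g) x (J s n), ?_, ?_, ?_⟩
  · intro s
    exact V.res1 (hV1 s) (exP I g)
  · intro s n
    exact A.av s (hd n) (hhd n)
  · intro x z H
    have e : ∀ s, (fun n => ac (exP I g) x (J s n)) = fun n => ac g (rsX I x) (J' s n) :=
      fun s => funext fun n => hex g x s n
    refine hg (rsX I x) z (fun j hj => ?_) fun j hj => ?_
    · have h1 := H (2 * j) (by omega)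
      simp only [e] at h1
      exact h1
    · have h1 := H (2 * j + 1) (by omega)
      simp only [e] at h1
      exact h1

end Pool.Agent.SX
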