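import Pool.Agent.Lib.SX.IndB
import Pool.Agent.Lib.SX.Ctb
import Pool.Agent.Lib.SX.FCod
import Pool.Agent.Lib.SX.Ph1

/-!
# Core: the core theorem
-/

set_option autoImplicit false

namespace Pool.Agent.SX

open Cardinal Pool.Agent.Mart

variable {K : Type}

private theorem continuous_bjoin {a b : (K → Cs) → Cs} (ha : Continuous a) (hb : Continuous b) :
    Continuous fun x => bjoin (a x) (b x) := by
  refine continuous_pi fun n => ?_
  unfold bjoin
  by_cases h : n % 2 = 0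
  · simp only [if_pos h]
    exact (continuous_apply _).comp ha
  · simp only [if_neg h]
    exact (continuous_apply _).comp hb

private theorem members (V : Emb K) {h : PM K} {t : (K → Cs) → ℕ → ℕ → Cs} {b : (K → Cs) → Cs} (hb : V.V2 h t b)
    {val : ℕ → (K → Cs) → Cs} (hv : ∀ n, V.V1 h (fun x => t x n) (val n)) (N : ℕ) :
    ∃ k, ∀ n < N, ∀ x, TR (val n (ac k x)) (b (ac k x)) := by
  induction N with
  | zero => exact ⟨1, fun n hn => absurd hn (Nat.not_lt_zero n)⟩
  | succ N ih =>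
    obtain ⟨k, hk⟩ := ih
    obtain ⟨k', hk'⟩ := V.le12 (V.res1 (hv N) k) (V.res2 hb k) ⟨N, fun x => rfl⟩
    refine ⟨k * k', fun n hn x => ?_⟩
    rcases Nat.lt_succ_iff_lt_or_eq.1 hn with h | rfl
    · exact hk n h (ac k' x)
    · exact hk' x

theorem core (hK : 𝔠 < #K) (V : Emb K) : False := by
  obtain ⟨h, q, c, y0, y1, z0, z1, hc, h0, h1, a0, a1, cz0, cz1, H⟩ := indB hK V
  have hY : Continuous fun x => bjoin (y0 x) (y1 x) := continuous_bjoin (V.cont1 h0) (V.cont1 h1)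
  obtain ⟨g, hg⟩ := ctb (V.cont0 hc) hY H
  obtain ⟨d, hd⟩ := fcod (c := c ∘ ac g) (Y := (fun x => bjoin (y0 x) (y1 x)) ∘ ac g)
    ((V.cont0 hc).comp (continuous_ac g)) (hY.comp (continuous_ac g)) hg
  obtain ⟨k5, δ, v, hv, hδ, hdd⟩ := ph1 hK (V.rel (h * g)) q d
  let t : (K → Cs) → ℕ → ℕ → Cs := fun x n =>
    if n = 0 then z0 (ac (g * k5) x) else if n = 1 then z1 (ac (g * k5) x) else fun m => rl k5 (δ (n - 2) m) x
  have ht0 : ∀ x, t x 0 = z0 (ac (g * k5) x) := fun x => rfl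
  have ht1 : ∀ x, t x 1 = z1 (ac (g * k5) x) := fun x => rfl
  have ht2 : ∀ x n, t x (n + 2) = fun m => rl k5 (δ n m) x := fun x n => rfl
  have hcont : Continuous t := by
    refine continuous_pi fun n => ?_
    rcases n with _ | _ | n
    · exact cz0.comp (continuous_ac _)
    · exact cz1.comp (continuous_ac _)
    · exact continuous_pi fun m => continuous_rl k5 (δ n m)
  let val : ℕ → (K → Cs) → Cs := fun n =>
    if n = 0 then y0 ∘ ac (g * k5) else if n = 1 then y1 ∘ ac (g * k5) else v (n - 2)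
  have hval : ∀ n, V.V1 (h * g * k5) (fun x => t x n) (val n) := by
    intro n
    rcases n with _ | _ | n
    · have h2 := V.res1 h0 (g * k5)
      rw [← mul_assoc] at h2
      exact h2
    · have h2 := V.res1 h1 (g * k5)
      rw [← mul_assoc] at h2
      exact h2
    · exact hv n
  obtain ⟨k6, b, hb⟩ := V.ex2 (h * g * k5) t hcont
  obtain ⟨k7, hk7⟩ := members V hb (fun n => V.res1 (hval n) k6) 10
  -- everything below `h * g * k5 * k6 * k7`
  have hcc : V.V0 (h * g * k5 * k6 * k7) (rl (h * g * k5 * k6 * k7) q) (c ∘ ac (g * k5 * k6 * k7)) := by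
    have h2 := V.res0 hc (g * k5 * k6 * k7)
    have e : h * (g * k5 * k6 * k7) = h * g * k5 * k6 * k7 := by simp only [mul_assoc]
    rw [e] at h2
    have e2 : rl h q ∘ ac (g * k5 * k6 * k7) = rl (h * g * k5 * k6 * k7) q := by
      rw [← e]; exact (rl_mul h _ q).symm
    rw [e2] at h2
    exact h2
  have hbb := V.res2 hb k7
  have hTR : ∀ x, TR ((c ∘ ac (g * k5 * k6 * k7)) x) ((b ∘ ac k7) x) := by
    intro x
    have hy : ∀ n < 10, TR (val n (ac (k6 * k7) x)) (b (ac k7 x)) := fun n hn => hk7 n hn x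
    have e0 : TR (y0 (ac (g * k5 * k6 * k7) x)) (b (ac k7 x)) := hy 0 (by norm_num)
    have e1 : TR (y1 (ac (g * k5 * k6 * k7) x)) (b (ac k7 x)) := hy 1 (by norm_num)
    have e2 : TR d (b (ac k7 x)) := hdd (ac (k6 * k7) x) _ fun s hs => hy (s + 2) (by omega)
    exact hd (ac (k5 * k6 * k7) x) _ e2 (bjoin_tr e0 e1)
  obtain ⟨k8, n, m, h8⟩ := V.nle02 hcc hbb hTR
  rcases n with _ | _ | n
  · obtain ⟨x, hx⟩ := a0 (g * k5 * k6 * k7 * k8) m
    apply hx
    have h9 := h8 x
    show rl h q (ac (g * k5 * k6 * k7 * k8) x) = z0 (ac (g * k5 * k6 * k7 * k8) x) m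
    exact h9
  · obtain ⟨x, hx⟩ := a1 (g * k5 * k6 * k7 * k8) m
    apply hx
    exact h8 x
  · have h10 := rl_ne (h * g * k5 * k6 * k7 * k8) (i := q) (j := δ n m) (hδ n m).symm
      ((k5 * k6 * k7 * k8).1 (δ n m))
    apply h10
    intro x
    exact h8 x

end Pool.Agent.SX
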