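import Pool.Agent.Lib.SX.EmbC
import Pool.Agent.Lib.SX.Core

/-!
# CoreB: the core theorem in the regular open algebra
-/

set_option autoImplicit false

namespace Pool.Agent.SX

open Cardinal Pool.Agent.PolB

theorem coreB {K : Type} (hK : 𝔠 < #K) (F : (ℕ → BP K) → ℕ → BP K) (hF : ExtF F) : embB F = ⊥ := by
  rw [← le_bot_iff, le_iff_Ap]
  intro p hp
  exact (core hK (embC F hF p hp)).elim

end Pool.Agent.SX
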