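import Pool.Agent.Lib.SX.Cell

/-!
# Cw: treating all cells (about 90 lines)

For one point `x`: `D` is dense, so `D (h * cel F n x * k')` for some `k'`; `exists_pres` gives `k` with `Pres F n k` and
`k * cel F n x = cel F n x * k'`, so `D (h * k * cel F n x)`. There are finitely many cells: the map `x ↦ (fun i : F => fun j : Fin n => x i j)` has finite
range and `cel F n x` depends only on it (`cel_congr`); so there is a finite list of points which represent all cells (for every function
`(F → Fin n → Bool)` extend it by `false`). Induction on the list: treat the points one after another; if `D (h * k * cel F n x)` and `Pres F n k'`, then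
`D (h * (k * k') * cel F n x)` because `k' * cel F n x = cel F n x * k''` (`pres_cel`) and `D` is open.
`cw_gen` is the same for a submonoid `Q` of maps (closed under products, containing `1`), with several requirements indexed by a finite type.
-/

set_option autoImplicit false

namespace Pool.Agent.SX

variable {K : Type}

/-- finitely many persistent requirements can be met one after another -/
theorem cw_gen {ι : Type} [Finite ι] (Q : PM K → Prop) (h1 : Q 1) (hm : ∀ k k', Q k → Q k' → Q (k * k'))
    (D : ι → PM K → Prop) (hp : ∀ i h k, D i h → Q k → D i (h * k)) (hd : ∀ i h, ∃ k, Q k ∧ D i (h * k))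
    (h : PM K) : ∃ k, Q k ∧ ∀ i, D i (h * k) := by
  classical
  have := Fintype.ofFinite ι
  have key : ∀ s : Finset ι, ∃ k, Q k ∧ ∀ i ∈ s, D i (h * k) := by
    intro s
    induction s using Finset.induction_on with
    | empty => exact ⟨1, h1, fun i hi => absurd hi (Finset.notMem_empty _)⟩
    | insert a s _ ih =>
      obtain ⟨k, hk, hs⟩ := ih
      obtain ⟨k', hk', ha⟩ := hd a (h * k)
      refine ⟨k * k', hm _ _ hk hk', fun i hi => ?_⟩
      rw [← mul_assoc]
      rcases Finset.mem_insert.1 hi with rfl | hi
      · exact ha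
      · exact hp _ _ _ (hs i hi) hk'
  obtain ⟨k, hk, hs⟩ := key Finset.univ
  exact ⟨k, hk, fun i => hs i (Finset.mem_univ _)⟩

/-- finitely many points represent all cells -/
theorem exists_reps (F : Finset K) (n : ℕ) :
    ∃ S : Finset (K → Cs), ∀ x : K → Cs, ∃ y ∈ S, ∀ i ∈ F, Ag n (x i) (y i) := by
  classical
  let ex : (F → Fin n → Bool) → K → Cs := fun g i j =>
    if h : i ∈ F ∧ j < n then g ⟨i, h.1⟩ ⟨j, h.2⟩ else false
  refine ⟨Finset.univ.image ex, fun x => ⟨ex fun i j => x i j,
    Finset.mem_image_of_mem _ (Finset.mem_univ _), fun i hi j hj => ?_⟩⟩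
  simp only [ex]
  rw [dif_pos ⟨hi, hj⟩]

theorem cw {D : PM K → Prop} (hd : Dn D) (ho : Op D) (h : PM K) (F : Finset K) (n : ℕ) :
    ∃ k, Pres F n k ∧ ∀ x, D (h * k * cel F n x) := by
  obtain ⟨S, hS⟩ := exists_reps F n
  obtain ⟨k, hk, hD⟩ := cw_gen (ι := {y // y ∈ S}) (Pres F n) (Pres.one F n)
    (fun k k' h h' => h.mul h') (fun y g => D (g * cel F n y.1))
    (fun y g k hg hk => by
      obtain ⟨k', hk'⟩ := pres_cel hk y.1
      rw [mul_assoc, hk', ← mul_assoc]
      exact ho _ _ hg)
    (fun y g => by
      obtain ⟨k', hk'⟩ := hd (g * cel F n y.1)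
      obtain ⟨k, hk, he⟩ := exists_pres F n y.1 k'
      refine ⟨k, hk, ?_⟩
      rw [mul_assoc, he, ← mul_assoc]
      exact hk') h
  refine ⟨k, hk, fun x => ?_⟩
  obtain ⟨y, hy, hxy⟩ := hS x
  rw [cel_congr hxy]
  exact hD ⟨y, hy⟩

end Pool.Agent.SX
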