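import Pool.Agent.Lib.SX.Mon

/-!
# CwG: finitely many persistent requirements, relative to an invariant `G`
-/

set_option autoImplicit false

namespace Pool.Agent.SX

variable {K : Type}

theorem cw_rel {ι : Type} [Finite ι] (G Q : PM K → Prop) (h1 : Q 1) (hm : ∀ k k', Q k → Q k' → Q (k * k'))
    (hG : ∀ h k, G h → Q k → G (h * k)) (D : ι → PM K → Prop) (hp : ∀ i h k, G h → D i h → Q k → D i (h * k))
    (hd : ∀ i h, G h → ∃ k, Q k ∧ D i (h * k)) (h : PM K) (hh : G h) : ∃ k, Q k ∧ ∀ i, D i (h * k) := by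
  classical
  haveI := Fintype.ofFinite ι
  have key : ∀ s : Finset ι, ∃ k, Q k ∧ ∀ i ∈ s, D i (h * k) := by
    intro s
    induction s using Finset.induction_on with
    | empty => exact ⟨1, h1, fun i hi => absurd hi (Finset.notMem_empty i)⟩
    | insert a s _ ih =>
      obtain ⟨k, hk, hs⟩ := ih
      obtain ⟨k', hk', ha⟩ := hd a (h * k) (hG h k hh hk)
      refine ⟨k * k', hm k k' hk hk', fun i hi => ?_⟩
      rcases Finset.mem_insert.1 hi with rfl | hi
      · rw [← mul_assoc]; exact ha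
      · rw [← mul_assoc]; exact hp i _ _ (hG h k hh hk) (hs i hi) hk'
  obtain ⟨k, hk, hs⟩ := key Finset.univ
  exact ⟨k, hk, fun i => hs i (Finset.mem_univ i)⟩

end Pool.Agent.SX
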