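import Pool.Agent.Lib.SX.FlL

/-!
# DecA: decoding, the combinatorial part (about 130 lines)

`v j`, `u j` (`j < 4`) are the eight oracles, `w m j` is the copy of `u j` in which the blocks `≥ m` are still equal.
Define `s` by recursion: `s 0 = N 0`, `s 1 = N 1`, `s (i+2)` = the least `s'` with `∃ j, Fnd v u i (s i) (s (i+1)) s' j`. Claim by strong induction: `N i ≤ s i ≤ S i`. For `i + 2`, `M = s i`, `R = s (i+1)`, `J = sysOf d i`:
* right pair `(e i, e' i)`, both `≤ N i ≤ M`. `Fl (v J) (u J) (e i) (e' i) (S (i+2))` by `r4`. It does not fail by `R`: `R ≤ S (i+1) < N (i+2)`; if `Fl .. R` then by `Fl.mono` `Fl .. (N (i+2))` and by `r3` (`Fl.congr`)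
  `Fl (v J) (w i J) (e i) (e' i) (N (i+2))`, contradiction to `idx`, `idx'` (`not_fl_of_eq`). So `Fnd v u i M R (S (i+2)) J` (note `R < S (i+2)`), and `s (i+2) ≤ S (i+2)`.
* if `Fnd v u i M R s' j` with witnesses `a, b ≤ M ≤ S i`: not failed by `R ≥ N (i+1) ≥ T i`, so not by `T i`, so by `r2` never `Fl (v j) (w i j) a b _`. If `j = J`: `s' ≤ N (i+2)` would give (by `Fl.mono`, `r3`, `Fl.congr`) a
  failure of `(v j, w i j)`; so `N (i+2) < s'`. If `j ≠ J`: `w i j = w (i+1) j` (`hw`) and `r3` for `i + 1`: `s' > N (i+3) > S (i+2)`. So at `s' = s (i+2) ≤ S (i+2)` necessarily `j = J` and `N (i+2) ≤ s (i+2)`.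
-/

set_option autoImplicit false

namespace Pool.Agent.SX

open Pool.Agent.Mart

/-- in some system `j` of the parity of `i` a pair `≤ M` which has not failed by `R` fails by `s` -/
def Fnd (v u : ℕ → Cs) (i M R s j : ℕ) : Prop :=
  j < 4 ∧ j / 2 = i % 2 ∧ R < s ∧ ∃ a ≤ M, ∃ b ≤ M, ¬ Fl (v j) (u j) a b R ∧ Fl (v j) (u j) a b s

theorem decA (d : Cs) (v u : ℕ → Cs) (w : ℕ → ℕ → Cs) (e e' N S T : ℕ → ℕ) (c : ℕ → Cs)
    (hE : ∀ m, e m ≤ N m ∧ e' m ≤ N m) (NS : ∀ m, N m ≤ S m) (SN : ∀ m, S m < N (m + 1))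
    (TN : ∀ m, T m ≤ N (m + 1))
    (r2 : ∀ m, ∀ j < 4, j / 2 = m % 2 → ∀ a ≤ S m, ∀ b ≤ S m,
      Fl (v j) (u j) a b (T m) ∨ ∀ s, ¬ Fl (v j) (w m j) a b s)
    (r3 : ∀ m, ∀ j < 4, Ag (N (m + 2)) (u j) (w m j))
    (hw : ∀ m j, j ≠ sysOf d m → w m j = w (m + 1) j)
    (idx : ∀ m, Idx (v (sysOf d m)) (e m) (c m)) (idx' : ∀ m, Idx (w m (sysOf d m)) (e' m) (c m))
    (r4 : ∀ m, Fl (v (sysOf d m)) (u (sysOf d m)) (e m) (e' m) (S (m + 2))) :
    ∃ s : ℕ → ℕ, ∀ i, Fnd v u i (s i) (s (i + 1)) (s (i + 2)) (sysOf d i) ∧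
      (∀ s' < s (i + 2), ∀ j, ¬ Fnd v u i (s i) (s (i + 1)) s' j) ∧
      ∀ j, Fnd v u i (s i) (s (i + 1)) (s (i + 2)) j → j = sysOf d i := by
  have hrefl : ∀ n (x : Cs), Ag n x x := fun n x k _ => rfl
  -- the right pair is found
  have hA : ∀ i M R, N i ≤ M → R ≤ S (i + 1) → Fnd v u i M R (S (i + 2)) (sysOf d i) := by
    intro i M R hM hR
    have h1 : R < N (i + 2) := hR.trans_lt (SN (i + 1))
    refine ⟨sysOf_lt d i, sysOf_div d i, h1.trans_le (NS (i + 2)), e i, (hE i).1.trans hM, e' i,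
      (hE i).2.trans hM, fun hfl => ?_, r4 i⟩
    have h2 : Fl (v (sysOf d i)) (w i (sysOf d i)) (e i) (e' i) (N (i + 2)) :=
      Fl.congr (hrefl _ (v (sysOf d i))) (r3 i (sysOf d i) (sysOf_lt d i)) (Fl.mono hfl h1.le)
    exact not_fl_of_eq (idx i) (idx' i) _ h2
  -- nothing wrong is found
  have hB : ∀ i M R s' j, M ≤ S i → N (i + 1) ≤ R → s' ≤ S (i + 2) → Fnd v u i M R s' j →
      j = sysOf d i ∧ N (i + 2) ≤ s' := by
    rintro i M R s' j hM hR hs' ⟨hj4, hj2, -, a, ha, b, hb, hnf, hf⟩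
    have hno : ∀ s, ¬ Fl (v j) (w i j) a b s := by
      rcases r2 i j hj4 hj2 a (ha.trans hM) b (hb.trans hM) with h1 | h1
      · exfalso
        apply hnf
        exact Fl.mono h1 ((TN i).trans hR)
      · exact h1
    have hjJ : j = sysOf d i := by
      by_contra hne
      have h1 : s' ≤ N (i + 1 + 2) := hs'.trans (SN (i + 2)).le
      have h3 := r3 (i + 1) j hj4
      rw [← hw i j hne] at h3
      have h2 : Fl (v j) (w i j) a b (N (i + 1 + 2)) := Fl.congr (hrefl _ (v j)) h3 (Fl.mono hf h1)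
      exact hno _ h2
    refine ⟨hjJ, ?_⟩
    by_contra hlt
    push Not at hlt
    have h2 : Fl (v j) (w i j) a b (N (i + 2)) :=
      Fl.congr (hrefl _ (v j)) (r3 i j hj4) (Fl.mono hf hlt.le)
    exact hno _ h2
  let nx : ℕ → ℕ → ℕ → ℕ := fun i M R => sInf {s' | ∃ j, Fnd v u i M R s' j}
  let st : ℕ → ℕ × ℕ := fun n => Nat.rec (motive := fun _ => ℕ × ℕ) (N 0, N 1)
    (fun i p => (p.2, nx i p.1 p.2)) n
  have hst : ∀ i, st (i + 1) = ((st i).2, nx i (st i).1 (st i).2) := fun i => rfl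
  have hs2 : ∀ i, (st (i + 2)).1 = nx i (st i).1 (st (i + 1)).1 := fun i => rfl
  have hbd : ∀ i, (N i ≤ (st i).1 ∧ (st i).1 ≤ S i) ∧
      N (i + 1) ≤ (st (i + 1)).1 ∧ (st (i + 1)).1 ≤ S (i + 1) := by
    intro i
    induction i with
    | zero => exact ⟨⟨le_rfl, NS 0⟩, le_rfl, NS 1⟩
    | succ i ih =>
      obtain ⟨⟨h1, h2⟩, h3, h4⟩ := ih
      refine ⟨⟨h3, h4⟩, ?_⟩
      have hmem : S (i + 2) ∈ {s' | ∃ j, Fnd v u i (st i).1 (st (i + 1)).1 s' j} :=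
        ⟨_, hA i _ _ h1 h4⟩
      have h5 : (st (i + 2)).1 ≤ S (i + 2) := by
        rw [hs2]
        exact Nat.sInf_le hmem
      refine ⟨?_, h5⟩
      have h6 : (st (i + 2)).1 ∈ {s' | ∃ j, Fnd v u i (st i).1 (st (i + 1)).1 s' j} := by
        rw [hs2]
        exact Nat.sInf_mem ⟨_, hmem⟩
      obtain ⟨j, hj⟩ := h6
      exact (hB i _ _ _ j h2 h3 h5 hj).2
  refine ⟨fun i => (st i).1, fun i => ?_⟩
  obtain ⟨⟨h1, h2⟩, h3, h4⟩ := hbd i
  have h5 := (hbd (i + 1)).2.2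
  have hmem : S (i + 2) ∈ {s' | ∃ j, Fnd v u i (st i).1 (st (i + 1)).1 s' j} :=
    ⟨_, hA i _ _ h1 h4⟩
  have h6 : (st (i + 2)).1 ∈ {s' | ∃ j, Fnd v u i (st i).1 (st (i + 1)).1 s' j} := by
    rw [hs2]
    exact Nat.sInf_mem ⟨_, hmem⟩
  obtain ⟨j, hj⟩ := h6
  have hjJ := (hB i _ _ _ j h2 h3 h5 hj).1
  refine ⟨hjJ ▸ hj, ?_, ?_⟩
  · intro s' hs' j' hj'
    have h7 : s' < sInf {s' | ∃ j, Fnd v u i (st i).1 (st (i + 1)).1 s' j} := by
      have h8 := hs2 i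
      simp only [nx] at h8
      rw [← h8]
      exact hs'
    exact Nat.notMem_of_lt_sInf h7 ⟨j', hj'⟩
  · intro j' hj'
    exact (hB i _ _ _ j' h2 h3 h5 hj').1

end Pool.Agent.SX
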