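import Pool.Agent.Lib.SX.DecA

/-!
# DecB: decoding, the computability part (about 150 lines)

Model: `decode_lemma` in Lib/MP_d1129e_lc/Dec.lean. Let `O = {orc z}`. `Fl (v j) (u j) a b s` is decidable in `O` as a relation of `(j, a, b, s)` for `j < 4`: for fixed `j` by `DI.U` (with `hv j`, `hu j`),
`DI.bex`; then case distinction on `j` (four cases; outside let it be false). So `Fnd` is decidable in `O` as a relation of `(i, M, R, s, j)` (bounded quantifiers: `DI.bex`, `DI.ball`, `DI.and`, `DI.not`, `DI.lt`, `DI.eq`).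
`iter_search` (Lib/MP_d1129e_lc/OC.lean): state at `i` = `Nat.pair (s i) (Nat.pair (s (i+1)) (b i))` with `b 0 = 0`, `b (i+1) = sysOf d i`; witness `w = Nat.pair s' j`;
`P (i, st, w)`: `Fnd v u i M R s' j` and `∀ s'' < s', ∀ j' < 4, ¬ Fnd v u i M R s'' j'` (`M, R` from the state); `nxt = Nat.pair R (Nat.pair s' j)`. By hypothesis `s'` must be `s (i+2)` (trichotomy) and `j = sysOf d i`.
So `i ↦ sysOf d i` is computable in `O`, and `(d i).toNat = sysOf d i - 2 * (i % 2)`; `tr_iff_ci`.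
-/

set_option autoImplicit false

namespace Pool.Agent.SX

open Pool.Agent.Mart Pool.Agent.GammaZero

/-- `Fl` is decidable for fixed reals -/
private theorem di_fl {A B z : Cs} (hA : TR A z) (hB : TR B z) {α : Type} [Primcodable α]
    {a b t : α → ℕ} (ha : CI {orc z} a) (hb : CI {orc z} b) (ht : CI {orc z} t) :
    DI {orc z} (fun x => Fl A B (a x) (b x) (t x)) := by
  have c1 : Computable fun q : ((α × ℕ) × ℕ) × ℕ => q.1.1.1 :=
    Computable.fst.comp (Computable.fst.comp Computable.fst)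
  have c2 : CI {orc z} fun q : ((α × ℕ) × ℕ) × ℕ => q.1.1.2 :=
    CI.of_computable (Computable.snd.comp (Computable.fst.comp Computable.fst))
  have c3 : CI {orc z} fun q : ((α × ℕ) × ℕ) × ℕ => q.1.2 :=
    CI.of_computable (Computable.snd.comp Computable.fst)
  have c4 : CI {orc z} fun q : ((α × ℕ) × ℕ) × ℕ => q.2 := CI.of_computable Computable.snd
  have h1 : DI {orc z} (fun q : ((α × ℕ) × ℕ) × ℕ => q.1.2 ≠ q.2 ∧
      U A (a q.1.1.1) q.1.1.2 (t q.1.1.1) q.1.2 ∧ U B (b q.1.1.1) q.1.1.2 (t q.1.1.1) q.2) :=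
    (DI.not (DI.eq c3 c4)).and ((DI.U hA (ha.comp_computable c1) c2 (ht.comp_computable c1) c3).and
      (DI.U hB (hb.comp_computable c1) c2 (ht.comp_computable c1) c4))
  have h2 : DI {orc z} (fun q : (α × ℕ) × ℕ => ∃ i' < 2, q.2 ≠ i' ∧
      U A (a q.1.1) q.1.2 (t q.1.1) q.2 ∧ U B (b q.1.1) q.1.2 (t q.1.1) i') :=
    DI.bex h1 (CI.const 2)
  have h3 : DI {orc z} (fun q : α × ℕ => ∃ i < 2, ∃ i' < 2, i ≠ i' ∧
      U A (a q.1) q.2 (t q.1) i ∧ U B (b q.1) q.2 (t q.1) i') :=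
    DI.bex h2 (CI.const 2)
  exact DI.bex h3 ht

/-- `Fnd` is decidable for a fixed system -/
private theorem di_fnd0 {v u : ℕ → Cs} {z : Cs} {j : ℕ} (hv : TR (v j) z) (hu : TR (u j) z)
    {α : Type} [Primcodable α] {i M R t : α → ℕ} (hi : CI {orc z} i) (hM : CI {orc z} M)
    (hR : CI {orc z} R) (ht : CI {orc z} t) :
    DI {orc z} (fun x => Fnd v u (i x) (M x) (R x) (t x) j) := by
  have c1 : Computable fun q : (α × ℕ) × ℕ => q.1.1 := Computable.fst.comp Computable.fst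
  have c2 : CI {orc z} fun q : (α × ℕ) × ℕ => q.1.2 :=
    CI.of_computable (Computable.snd.comp Computable.fst)
  have c3 : CI {orc z} fun q : (α × ℕ) × ℕ => q.2 := CI.of_computable Computable.snd
  have h1 : DI {orc z} (fun q : (α × ℕ) × ℕ => ¬ Fl (v j) (u j) q.1.2 q.2 (R q.1.1) ∧
      Fl (v j) (u j) q.1.2 q.2 (t q.1.1)) :=
    (DI.not (di_fl hv hu c2 c3 (hR.comp_computable c1))).and
      (di_fl hv hu c2 c3 (ht.comp_computable c1))
  have h2 : DI {orc z} (fun q : α × ℕ => ∃ b < M q.1 + 1, ¬ Fl (v j) (u j) q.2 b (R q.1) ∧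
      Fl (v j) (u j) q.2 b (t q.1)) :=
    DI.bex h1 ((hM.comp_computable Computable.fst).add (CI.const 1))
  have h3 : DI {orc z} (fun x : α => ∃ a < M x + 1, ∃ b < M x + 1, ¬ Fl (v j) (u j) a b (R x) ∧
      Fl (v j) (u j) a b (t x)) :=
    DI.bex h2 (hM.add (CI.const 1))
  refine ((DI.lt (CI.const j) (CI.const 4)).and ((DI.eq (CI.const (j / 2))
    (CI.mod hi (CI.const 2))).and ((DI.lt hR ht).and h3))).of_iff fun x => ?_
  simp only [Fnd, Nat.lt_succ_iff]

/-- `Fnd` is decidable -/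
private theorem di_fnd {v u : ℕ → Cs} {z : Cs} (hv : ∀ j < 4, TR (v j) z) (hu : ∀ j < 4, TR (u j) z)
    {α : Type} [Primcodable α] {i M R t j : α → ℕ} (hi : CI {orc z} i) (hM : CI {orc z} M)
    (hR : CI {orc z} R) (ht : CI {orc z} t) (hj : CI {orc z} j) :
    DI {orc z} (fun x => Fnd v u (i x) (M x) (R x) (t x) (j x)) := by
  have h : ∀ k, k < 4 → DI {orc z} (fun x => j x = k ∧ Fnd v u (i x) (M x) (R x) (t x) k) :=
    fun k hk => (DI.eq hj (CI.const k)).and (di_fnd0 (hv k hk) (hu k hk) hi hM hR ht)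
  refine ((h 0 (by norm_num)).or ((h 1 (by norm_num)).or ((h 2 (by norm_num)).or
    (h 3 (by norm_num))))).of_iff fun x => ?_
  constructor
  · intro h
    have h1 := h.1
    have h2 : j x = 0 ∨ j x = 1 ∨ j x = 2 ∨ j x = 3 := by omega
    rcases h2 with h2 | h2 | h2 | h2
    · rw [h2] at h
      exact Or.inl ⟨h2, h⟩
    · rw [h2] at h
      exact Or.inr (Or.inl ⟨h2, h⟩)
    · rw [h2] at h
      exact Or.inr (Or.inr (Or.inl ⟨h2, h⟩))
    · rw [h2] at h
      exact Or.inr (Or.inr (Or.inr ⟨h2, h⟩))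
  · rintro (⟨h2, h⟩ | ⟨h2, h⟩ | ⟨h2, h⟩ | ⟨h2, h⟩) <;> rwa [h2]

theorem decB (d : Cs) (v u : ℕ → Cs) (s : ℕ → ℕ)
    (hs : ∀ i, Fnd v u i (s i) (s (i + 1)) (s (i + 2)) (sysOf d i) ∧
      (∀ s' < s (i + 2), ∀ j, ¬ Fnd v u i (s i) (s (i + 1)) s' j) ∧
      ∀ j, Fnd v u i (s i) (s (i + 1)) (s (i + 2)) j → j = sysOf d i)
    (z : Cs) (hv : ∀ j < 4, TR (v j) z) (hu : ∀ j < 4, TR (u j) z) : TR d z := by
  let b : ℕ → ℕ := fun i => Nat.casesOn i 0 fun i => sysOf d i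
  let st : ℕ → ℕ := fun i => Nat.pair (s i) (Nat.pair (s (i + 1)) (b i))
  let P : ℕ × ℕ × ℕ → Prop := fun p =>
    Fnd v u p.1 p.2.1.unpair.1 p.2.1.unpair.2.unpair.1 p.2.2.unpair.1 p.2.2.unpair.2 ∧
    ∀ s'' < p.2.2.unpair.1, ∀ j' < 4,
      ¬ Fnd v u p.1 p.2.1.unpair.1 p.2.1.unpair.2.unpair.1 s'' j'
  let nxt : ℕ × ℕ × ℕ → ℕ := fun p =>
    Nat.pair p.2.1.unpair.2.unpair.1 (Nat.pair p.2.2.unpair.1 p.2.2.unpair.2)
  have ci : CI {orc z} (fun p : ℕ × ℕ × ℕ => p.1) := CI.of_computable Computable.fst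
  have cs : CI {orc z} (fun p : ℕ × ℕ × ℕ => p.2.1) :=
    CI.of_computable (Computable.fst.comp Computable.snd)
  have cw : CI {orc z} (fun p : ℕ × ℕ × ℕ => p.2.2) :=
    CI.of_computable (Computable.snd.comp Computable.snd)
  have cM := CI.left cs
  have cR := CI.left (CI.right cs)
  have ct := CI.left cw
  have cj := CI.right cw
  have c1 : Computable fun q : ((ℕ × ℕ × ℕ) × ℕ) × ℕ => q.1.1 := Computable.fst.comp Computable.fst
  have hP1 : DI {orc z} (fun q : ((ℕ × ℕ × ℕ) × ℕ) × ℕ =>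
      ¬ Fnd v u q.1.1.1 q.1.1.2.1.unpair.1 q.1.1.2.1.unpair.2.unpair.1 q.1.2 q.2) :=
    DI.not (di_fnd hv hu (ci.comp_computable c1) (cM.comp_computable c1) (cR.comp_computable c1)
      (CI.of_computable (Computable.snd.comp Computable.fst)) (CI.of_computable Computable.snd))
  have hP2 : DI {orc z} (fun q : (ℕ × ℕ × ℕ) × ℕ => ∀ j' < 4,
      ¬ Fnd v u q.1.1 q.1.2.1.unpair.1 q.1.2.1.unpair.2.unpair.1 q.2 j') :=
    DI.ball hP1 (CI.const 4)
  have hP3 : DI {orc z} (fun q : ℕ × ℕ × ℕ => ∀ s'' < q.2.2.unpair.1, ∀ j' < 4,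
      ¬ Fnd v u q.1 q.2.1.unpair.1 q.2.1.unpair.2.unpair.1 s'' j') :=
    DI.ball hP2 ct
  have hP : DI {orc z} P := (di_fnd hv hu ci cM cR ct cj).and hP3
  have hn : CI {orc z} nxt := CI.npair cR (CI.npair ct cj)
  have hex : ∀ i, ∃ w, P (i, st i, w) := by
    intro i
    refine ⟨Nat.pair (s (i + 2)) (sysOf d i), ?_⟩
    simp only [P, st, Nat.unpair_pair]
    exact ⟨(hs i).1, fun s' hs' j _ => (hs i).2.1 s' hs' j⟩
  have hnx : ∀ i w, P (i, st i, w) → nxt (i, st i, w) = st (i + 1) := by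
    intro i w hw
    simp only [P, st, Nat.unpair_pair] at hw
    obtain ⟨h1, h2⟩ := hw
    have h3 : w.unpair.1 = s (i + 2) := by
      rcases lt_trichotomy w.unpair.1 (s (i + 2)) with h | h | h
      · exact absurd h1 ((hs i).2.1 _ h _)
      · exact h
      · exact absurd (hs i).1 (h2 _ h _ (sysOf_lt d i))
    rw [h3] at h1
    have h4 := (hs i).2.2 _ h1
    simp only [nxt, st, Nat.unpair_pair, h3, h4]
    rfl
  have hst := iter_search hP hn st hex hnx
  have h1 : CI {orc z} (fun i : ℕ => (st (i + 1)).unpair.2.unpair.2) :=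
    CI.right (CI.right (CI.comp hst (CI.of_computable Computable.succ)))
  rw [tr_iff_ci]
  refine (h1.tsub (CI.mul (CI.const 2) (CI.mod (CI.of_computable Computable.id)
    (CI.const 2)))).congr fun i => ?_
  show _ = (Nat.pair (s (i + 1)) (Nat.pair (s (i + 2)) (sysOf d i))).unpair.2.unpair.2 -
    2 * (i % 2)
  simp only [Nat.unpair_pair]
  unfold sysOf
  omega

end Pool.Agent.SX
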