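import Pool.Agent.Lib.MP_d1129e_lc.Cont

/-!
# Defs: the product of Sacks forcings in the language of maps; the interface of the core theorem

`Cs` is Cantor space. `SM` is the monoid of the injective maps of `Cs` to itself which do not increase
distances. `PM K` is the monoid of all families `(k i)`, `i : K`, in `SM` with `k i = 1` for all but countably
many `i`; it acts coordinatewise on `K → Cs` (`ac`). As a forcing notion, `q ≤ p` means `q = p * k`.
-/

set_option autoImplicit false

namespace Pool.Agent.SX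

open Pool.Agent.Mart Cardinal

/-- Cantor space -/
abbrev Cs : Type := ℕ → Bool

/-- `x` and `y` agree below `n` -/
def Ag (n : ℕ) (x y : Cs) : Prop := ∀ k < n, x k = y k

/-- injective maps of Cantor space to itself which do not increase distances -/
structure SM : Type where
  f : Cs → Cs
  lip : ∀ (n : ℕ) (x y : Cs), Ag n x y → Ag n (f x) (f y)
  inj : Function.Injective f

instance : Monoid SM where
  one := ⟨id, fun _ _ _ h => h, fun _ _ h => h⟩
  mul h k := ⟨h.f ∘ k.f, fun n x y hxy => h.lip n _ _ (k.lip n x y hxy), h.inj.comp k.inj⟩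
  mul_assoc _ _ _ := rfl
  one_mul _ := rfl
  mul_one _ := rfl

/-- the conditions -/
def PM (K : Type) : Submonoid (K → SM) where
  carrier := {k | {i | k i ≠ 1}.Countable}
  one_mem' := by
    show {i : K | (1 : K → SM) i ≠ 1}.Countable
    simp
  mul_mem' := by
    intro h k hh hk
    refine (hh.union hk).mono fun i hi => ?_
    by_contra hc
    rw [Set.mem_union, not_or] at hc
    have h1 : h i = 1 := not_not.1 hc.1
    have h2 : k i = 1 := not_not.1 hc.2
    apply hi
    show h i * k i = 1
    rw [h1, h2, one_mul]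

/-- the action of the conditions on the product space -/
def ac {K : Type} (k : PM K) (x : K → Cs) : K → Cs := fun i => (k.1 i).f (x i)

/-- `y` with the first `n` values of `z` put in front -/
def pfx (n : ℕ) (z y : Cs) : Cs := fun k => if k < n then z k else y (k - n)

/-- the map `pfx n z` -/
def pfxM (n : ℕ) (z : Cs) : SM where
  f := pfx n z
  lip := by
    intro m x y h k hk
    unfold pfx
    split_ifs with h1
    · rfl
    · exact h _ (lt_of_le_of_lt (Nat.sub_le _ _) hk)
  inj := by
    intro x y h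
    funext k
    have h1 := congrFun h (k + n)
    unfold pfx at h1
    rw [if_neg (by omega), if_neg (by omega), Nat.add_sub_cancel] at h1
    exact h1

open Classical in
/-- the cell of the point `x`: all points which agree with `x` below `n` at the coordinates in `F` -/
noncomputable def cel {K : Type} (F : Finset K) (n : ℕ) (x : K → Cs) : PM K :=
  ⟨fun i => if i ∈ F then pfxM n (x i) else 1, by
    refine (F.finite_toSet.countable).mono fun i hi => ?_
    by_contra hc
    exact hi (if_neg hc)⟩

/-- `k` preserves the first `n` values at the coordinates in `F` -/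
def Pres {K : Type} (F : Finset K) (n : ℕ) (k : PM K) : Prop := ∀ i ∈ F, ∀ x : Cs, Ag n ((k.1 i).f x) x

/-- dense -/
def Dn {K : Type} (D : PM K → Prop) : Prop := ∀ h, ∃ k, D (h * k)

/-- open -/
def Op {K : Type} (D : PM K → Prop) : Prop := ∀ h k, D h → D (h * k)

/-- `b` does not depend on the coordinate `i` -/
def Ind {K : Type} (i : K) (b : (K → Cs) → Cs) : Prop := ∀ x y : K → Cs, (∀ j, j ≠ i → x j = y j) → b x = b y

/-- the real of the coordinate `i`, below the condition `h` -/
def rl {K : Type} (h : PM K) (i : K) (x : K → Cs) : Cs := (h.1 i).f (x i)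

/-- What a name of an embedding into the Turing degrees gives. `V0 h a b`: `h` forces that the value of the
embedding at the element `a` (a continuous function of the generic point) of level 0 is `b`; similarly `V1`
for elements of level 1 (sequences of elements of level 0) and `V2` (sequences of elements of level 1). -/
structure Emb (K : Type) where
  V0 : PM K → ((K → Cs) → Cs) → ((K → Cs) → Cs) → Prop
  V1 : PM K → ((K → Cs) → ℕ → Cs) → ((K → Cs) → Cs) → Prop
  V2 : PM K → ((K → Cs) → ℕ → ℕ → Cs) → ((K → Cs) → Cs) → Prop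
  cont0 : ∀ {h a b}, V0 h a b → Continuous b
  cont1 : ∀ {h a b}, V1 h a b → Continuous b
  cont2 : ∀ {h a b}, V2 h a b → Continuous b
  ex0 : ∀ h a, Continuous a → ∃ k b, V0 (h * k) (a ∘ ac k) b
  ex1 : ∀ h a, Continuous a → ∃ k b, V1 (h * k) (a ∘ ac k) b
  ex2 : ∀ h a, Continuous a → ∃ k b, V2 (h * k) (a ∘ ac k) b
  res0 : ∀ {h a b}, V0 h a b → ∀ k, V0 (h * k) (a ∘ ac k) (b ∘ ac k)
  res1 : ∀ {h a b}, V1 h a b → ∀ k, V1 (h * k) (a ∘ ac k) (b ∘ ac k)
  res2 : ∀ {h a b}, V2 h a b → ∀ k, V2 (h * k) (a ∘ ac k) (b ∘ ac k)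
  uniq : ∀ {h a b b'}, V0 h a b → V0 h a b' → b = b'
  le01 : ∀ {h a z b b'}, V0 h a b → V1 h z b' → (∃ n, ∀ x, a x = z x n) →
    ∃ k, ∀ x, TR (b (ac k x)) (b' (ac k x))
  le12 : ∀ {h z t b b'}, V1 h z b → V2 h t b' → (∃ n, ∀ x, z x = t x n) →
    ∃ k, ∀ x, TR (b (ac k x)) (b' (ac k x))
  nle00 : ∀ {h a a' b b'}, V0 h a b → V0 h a' b' → (∀ x, TR (b x) (b' x)) →
    ∃ k, ∀ x, a (ac k x) = a' (ac k x)
  nle01 : ∀ {h a z b b'}, V0 h a b → V1 h z b' → (∀ x, TR (b x) (b' x)) →
    ∃ k n, ∀ x, a (ac k x) = z (ac k x) n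
  nle02 : ∀ {h a t b b'}, V0 h a b → V2 h t b' → (∀ x, TR (b x) (b' x)) →
    ∃ k n m, ∀ x, a (ac k x) = t (ac k x) n m

end Pool.Agent.SX
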