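import Pool.Agent.Lib.SX.RdL

/-!
# LeF: the forced order (about 190 lines)

`eq_sub`: if `Rd h A b`, `Rd h A' b'` and the name `S : ℕ → BP K` is obtained from `A'` by reading (each `S k` is `A' (r k)`, `⊥` or `⊤`) so that `b x k` equals the corresponding bit of `b' x` (or `false`, `true`) for all `x`, then `Ap h (eqv A S)`. (`Rd.iff` for the bits; for constants: `bihimp` with `⊥` is the complement, with `⊤` the element itself.)
E.g. `S = rd0 A' n`, `b = code0 ∘ a`, `b' = code1 ∘ z`, `a x = z x n`: bit `0`: `false`; bit `k+1`: `a x k = z x n k = code1 (z x) (Nat.pair n k + 2)`. `le01`: `Ap h (A' 0)`, `Ap h (A' 1)ᶜ` and `Ap h (eqv A (rd0 A' n))`, so `Ap h (leB A A')` (`le_iff_Ap`, `le_sup`). `le12` with `rd1`.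
Converse: `Ap h (leB A A')`: it is a supremum of three; with `ap_iSup` (write `a ⊔ b` as `⨆` over `Bool`, or a small lemma `ap_sup`) some `h * k` forces one of: `eqv A A'`; `A' 0`, `(A' 1)ᶜ`, `eqv A (rd0 A' n)`; `A' 0`, `A' 1`, `eqv A (rd1 A' n)`; `A' 0`, `A' 1`, `eqv A (rd2 A' n m)`. If `Ap h (bihimp (A k) (A' k'))` then `b x k = b' x k'` for all `x`
(lemma `of_iff`: otherwise a cell where they are different constants; `ap_not_both`); similarly for constants `⊥`, `⊤`. Impossible cases by the first two bits: level 0 elements have bit 0 `false`, level 1: `true, false`, level 2: `true, true`. E.g. `nle02`: `A` has bit 0 `false`, `A'` has bits `true, true`: `eqv A A'` impossible (bit 0), `(A' 1)ᶜ` impossible,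
`rd1` has bit 0 `⊤` impossible, so `eqv A (rd2 A' n m)`: `a (ac k x) j = t (ac k x) n m j` for all `j` (bit `j + 1`).
`cont_code`: each bit of `code_i` is a constant or a bit of the argument.
-/

set_option autoImplicit false

namespace Pool.Agent.SX

open Pool.Agent.PolB Pool.Agent.Lib.BVM

variable {K : Type}

private theorem leF_iInf {h : PM K} {ι : Type} {f : ι → BP K} : Ap h (⨅ i, f i) ↔ ∀ i, Ap h (f i) :=
  Ap_iInf leP_refl leP_trans h f

private theorem leF_sup {h : PM K} {a b : BP K} (H : Ap h (a ⊔ b)) : ∃ k : PM K, Ap (h * k) a ∨ Ap (h * k) b := by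
  obtain ⟨r, ⟨k, rfl⟩, hr⟩ := (Ap_sup leP_refl leP_trans h a b).1 H h (leP_refl h)
  exact ⟨k, hr⟩

private theorem leF_cell {b b' : (K → Cs) → Cs} (hb : Continuous b) (hb' : Continuous b') (k k' : ℕ) (x : K → Cs) :
    ∃ c : PM K, (∀ y, b (ac c y) k = b x k) ∧ ∀ y, b' (ac c y) k' = b' x k' := by
  have h1 : IsOpen {y : K → Cs | b y k = b x k} :=
    (isOpen_discrete ({t | t = b x k} : Set Bool)).preimage ((continuous_apply k).comp hb)
  have h2 : IsOpen {y : K → Cs | b' y k' = b' x k'} :=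
    (isOpen_discrete ({t | t = b' x k'} : Set Bool)).preimage ((continuous_apply k').comp hb')
  obtain ⟨F, n, hF⟩ := open_nbhd (h1.inter h2) (x := x) ⟨rfl, rfl⟩
  have h3 : ∀ y : K → Cs, ∀ i ∈ F, Ag n (x i) (ac (cel F n x) y i) := by
    intro y i hi j hj
    show x i j = ((cel F n x).1 i).f (y i) j
    have h4 : (cel F n x).1 i = pfxM n (x i) := if_pos hi
    rw [h4]
    show x i j = if j < n then x i j else y i (j - n)
    rw [if_pos hj]
  exact ⟨cel F n x, fun y => (hF _ (h3 y)).1, fun y => (hF _ (h3 y)).2⟩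

private theorem leF_of_iff {h : PM K} {A A' : ℕ → BP K} {b b' : (K → Cs) → Cs} (hb : Continuous b)
    (hb' : Continuous b') (H : Rd h A b) (H' : Rd h A' b') {k k' : ℕ} (e : Ap h (bihimp (A k) (A' k'))) (x : K → Cs) :
    b x k = b' x k' := by
  obtain ⟨c, h1, h2⟩ := leF_cell hb hb' k k' x
  have e1 : Ap (h * c) (A' k' ⇨ A k) := by
    have := ap_mul e c
    rw [bihimp] at this
    exact this.1
  have e2 : Ap (h * c) (A k ⇨ A' k') := by
    have := ap_mul e c
    rw [bihimp] at this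
    exact this.2
  rw [Ap_himp leP_refl leP_trans] at e1 e2
  cases hx : b x k <;> cases hx' : b' x k'
  · rfl
  · have h3 : Ap (h * c) (A k)ᶜ := (H c k).2 fun y => (h1 y).trans hx
    have h4 : Ap (h * c) (A' k') := (H' c k').1 fun y => (h2 y).trans hx'
    exact (ap_not_both (e1 _ (leP_refl _) h4) h3).elim
  · have h3 : Ap (h * c) (A k) := (H c k).1 fun y => (h1 y).trans hx
    have h4 : Ap (h * c) (A' k')ᶜ := (H' c k').2 fun y => (h2 y).trans hx'
    exact (ap_not_both (e2 _ (leP_refl _) h3) h4).elim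
  · rfl

private theorem leF_split {h : PM K} {A A' : ℕ → BP K} (hl : Ap h (leB A A')) :
    ∃ k : PM K, Ap (h * k) (eqv A A') ∨
      (Ap (h * k) (A' 1)ᶜ ∧ ∃ n, Ap (h * k) (eqv A (rd0 A' n)) ∧ Ap (h * k) (A' 0)) ∨
      (Ap (h * k) (A' 1) ∧ Ap (h * k) (A' 0) ∧
        ((∃ n, Ap (h * k) (eqv A (rd1 A' n))) ∨ ∃ n m, Ap (h * k) (eqv A (rd2 A' n m)))) := by
  unfold leB at hl
  obtain ⟨k, hk⟩ := leF_sup hl
  rcases hk with hk | hk
  · obtain ⟨k', hk'⟩ := leF_sup hk
    rcases hk' with hk' | hk'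
    · refine ⟨k * k', Or.inl ?_⟩
      rwa [← mul_assoc]
    · obtain ⟨⟨h1, h2⟩, h3⟩ := hk'
      obtain ⟨k'', n, hn⟩ := ap_iSup h3
      refine ⟨k * k' * k'', Or.inr (Or.inl ?_)⟩
      rw [← mul_assoc, ← mul_assoc]
      exact ⟨ap_mul h2 k'', n, hn, ap_mul h1 k''⟩
  · obtain ⟨⟨h1, h2⟩, h3⟩ := hk
    obtain ⟨k', hk'⟩ := leF_sup h3
    rcases hk' with hk' | hk'
    · obtain ⟨k'', n, hn⟩ := ap_iSup hk'
      refine ⟨k * k' * k'', Or.inr (Or.inr ?_)⟩
      rw [← mul_assoc, ← mul_assoc]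
      exact ⟨ap_mul (ap_mul h2 k') k'', ap_mul (ap_mul h1 k') k'', Or.inl ⟨n, hn⟩⟩
    · obtain ⟨k'', n, hn⟩ := ap_iSup hk'
      obtain ⟨k3, m, hm⟩ := ap_iSup hn
      refine ⟨k * k' * k'' * k3, Or.inr (Or.inr ?_)⟩
      rw [← mul_assoc, ← mul_assoc, ← mul_assoc]
      exact ⟨ap_mul (ap_mul (ap_mul h2 k') k'') k3, ap_mul (ap_mul (ap_mul h1 k') k'') k3, Or.inr ⟨n, m, hm⟩⟩

theorem cont_code0 {a : (K → Cs) → Cs} (ha : Continuous a) : Continuous (code0 ∘ a) := by
  refine continuous_pi fun k => ?_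
  cases k with
  | zero => exact continuous_const
  | succ k => exact (continuous_apply k).comp ha

theorem cont_code1 {z : (K → Cs) → ℕ → Cs} (hz : Continuous z) : Continuous (code1 ∘ z) := by
  refine continuous_pi fun k => ?_
  rcases k with - | - | k
  · exact continuous_const
  · exact continuous_const
  · exact (continuous_apply k.unpair.2).comp ((continuous_apply k.unpair.1).comp hz)

theorem cont_code2 {t : (K → Cs) → ℕ → ℕ → Cs} (ht : Continuous t) : Continuous (code2 ∘ t) := by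
  refine continuous_pi fun k => ?_
  rcases k with - | - | k
  · exact continuous_const
  · exact continuous_const
  · exact (continuous_apply k.unpair.2).comp ((continuous_apply k.unpair.1.unpair.2).comp
      ((continuous_apply k.unpair.1.unpair.1).comp ht))

theorem leF01 {h : PM K} {A A' : ℕ → BP K} {a : (K → Cs) → Cs} {z : (K → Cs) → ℕ → Cs} (ha : Continuous a)
    (hz : Continuous z) (H : Rd h A (code0 ∘ a)) (H' : Rd h A' (code1 ∘ z)) {n : ℕ} (e : ∀ x, a x = z x n) :
    Ap h (leB A A') := by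
  have h0 : Ap h (A' 0) := by
    have := (H' 1 0).1 fun x => rfl
    rwa [mul_one] at this
  have h1 : Ap h (A' 1)ᶜ := by
    have := (H' 1 1).2 fun x => rfl
    rwa [mul_one] at this
  have h2 : Ap h (eqv A (rd0 A' n)) := by
    refine leF_iInf.2 fun k => ?_
    cases k with
    | zero =>
      show Ap h (bihimp (A 0) ⊥)
      rw [bihimp_bot]
      have := (H 1 0).2 fun x => rfl
      rwa [mul_one] at this
    | succ k =>
      refine Rd.iff (cont_code0 ha) H H' fun x => ?_
      show a x k = z x (Nat.pair n k).unpair.1 (Nat.pair n k).unpair.2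
      rw [Nat.unpair_pair, e x]
  have h3 : Ap h (⨆ n, eqv A (rd0 A' n)) := le_iff_Ap.1 (le_iSup (fun n => eqv A (rd0 A' n)) n) h h2
  exact le_iff_Ap.1 (le_sup_of_le_left le_sup_right) h ⟨⟨h0, h1⟩, h3⟩

theorem leF12 {h : PM K} {A A' : ℕ → BP K} {z : (K → Cs) → ℕ → Cs} {t : (K → Cs) → ℕ → ℕ → Cs} (hz : Continuous z)
    (ht : Continuous t) (H : Rd h A (code1 ∘ z)) (H' : Rd h A' (code2 ∘ t)) {n : ℕ} (e : ∀ x, z x = t x n) :
    Ap h (leB A A') := by
  have h0 : Ap h (A' 0) := by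
    have := (H' 1 0).1 fun x => rfl
    rwa [mul_one] at this
  have h1 : Ap h (A' 1) := by
    have := (H' 1 1).1 fun x => rfl
    rwa [mul_one] at this
  have h2 : Ap h (eqv A (rd1 A' n)) := by
    refine leF_iInf.2 fun k => ?_
    rcases k with - | - | k
    · show Ap h (bihimp (A 0) ⊤)
      rw [bihimp_top]
      have := (H 1 0).1 fun x => rfl
      rwa [mul_one] at this
    · show Ap h (bihimp (A 1) ⊥)
      rw [bihimp_bot]
      have := (H 1 1).2 fun x => rfl
      rwa [mul_one] at this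
    · refine Rd.iff (cont_code1 hz) H H' fun x => ?_
      show z x k.unpair.1 k.unpair.2 =
        t x (Nat.pair (Nat.pair n k.unpair.1) k.unpair.2).unpair.1.unpair.1
          (Nat.pair (Nat.pair n k.unpair.1) k.unpair.2).unpair.1.unpair.2
          (Nat.pair (Nat.pair n k.unpair.1) k.unpair.2).unpair.2
      rw [Nat.unpair_pair, Nat.unpair_pair, e x]
  have h3 : Ap h (⨆ n, eqv A (rd1 A' n)) := le_iff_Ap.1 (le_iSup (fun n => eqv A (rd1 A' n)) n) h h2
  exact le_iff_Ap.1 le_sup_right h ⟨⟨h0, h1⟩, le_iff_Ap.1 le_sup_left h h3⟩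

theorem nleF00 {h : PM K} {A A' : ℕ → BP K} {a a' : (K → Cs) → Cs} (ha : Continuous a) (ha' : Continuous a')
    (H : Rd h A (code0 ∘ a)) (H' : Rd h A' (code0 ∘ a')) (hl : Ap h (leB A A')) :
    ∃ k, ∀ x, a (ac k x) = a' (ac k x) := by
  obtain ⟨k, hk⟩ := leF_split hl
  have c := (cont_code0 ha).comp (continuous_ac k)
  have c' := (cont_code0 ha').comp (continuous_ac k)
  rcases hk with hk | ⟨-, n, -, hk⟩ | ⟨-, hk, -⟩
  · refine ⟨k, fun x => funext fun j => ?_⟩
    exact leF_of_iff c c' (H.mul k) (H'.mul k) (leF_iInf.1 hk (j + 1)) x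
  · have := Rd.at c' (H'.mul k) hk (fun _ _ => false)
    exact absurd this Bool.false_ne_true
  · have := Rd.at c' (H'.mul k) hk (fun _ _ => false)
    exact absurd this Bool.false_ne_true

theorem nleF01 {h : PM K} {A A' : ℕ → BP K} {a : (K → Cs) → Cs} {z : (K → Cs) → ℕ → Cs} (ha : Continuous a)
    (hz : Continuous z) (H : Rd h A (code0 ∘ a)) (H' : Rd h A' (code1 ∘ z)) (hl : Ap h (leB A A')) :
    ∃ k n, ∀ x, a (ac k x) = z (ac k x) n := by
  obtain ⟨k, hk⟩ := leF_split hl
  have c := (cont_code0 ha).comp (continuous_ac k)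
  have c' := (cont_code1 hz).comp (continuous_ac k)
  rcases hk with hk | ⟨-, n, hk, -⟩ | ⟨hk, -, -⟩
  · have := leF_of_iff c c' (H.mul k) (H'.mul k) (leF_iInf.1 hk 0) (fun _ _ => false)
    exact absurd this Bool.false_ne_true
  · refine ⟨k, n, fun x => funext fun j => ?_⟩
    have := leF_of_iff c c' (H.mul k) (H'.mul k) (k := j + 1) (k' := Nat.pair n j + 2) (leF_iInf.1 hk (j + 1)) x
    have h2 : a (ac k x) j = z (ac k x) (Nat.pair n j).unpair.1 (Nat.pair n j).unpair.2 := this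
    rwa [Nat.unpair_pair] at h2
  · have := Rd.at c' (H'.mul k) hk (fun _ _ => false)
    exact absurd this Bool.false_ne_true

theorem nleF02 {h : PM K} {A A' : ℕ → BP K} {a : (K → Cs) → Cs} {t : (K → Cs) → ℕ → ℕ → Cs} (ha : Continuous a)
    (ht : Continuous t) (H : Rd h A (code0 ∘ a)) (H' : Rd h A' (code2 ∘ t)) (hl : Ap h (leB A A')) :
    ∃ k n m, ∀ x, a (ac k x) = t (ac k x) n m := by
  obtain ⟨k, hk⟩ := leF_split hl
  have c := (cont_code0 ha).comp (continuous_ac k)
  have c' := (cont_code2 ht).comp (continuous_ac k)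
  rcases hk with hk | ⟨hk, n, -, -⟩ | ⟨-, -, ⟨n, hk⟩ | ⟨n, m, hk⟩⟩
  · have := leF_of_iff c c' (H.mul k) (H'.mul k) (leF_iInf.1 hk 0) (fun _ _ => false)
    exact absurd this Bool.false_ne_true
  · have := Rd.at_compl c' (H'.mul k) hk (fun _ _ => false)
    exact absurd this.symm Bool.false_ne_true
  · have h1 : Ap (h * k) (bihimp (A 0) ⊤) := leF_iInf.1 hk 0
    rw [bihimp_top] at h1
    have := Rd.at c (H.mul k) h1 (fun _ _ => false)
    exact absurd this Bool.false_ne_true
  · refine ⟨k, n, m, fun x => funext fun j => ?_⟩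
    have := leF_of_iff c c' (H.mul k) (H'.mul k) (k := j + 1) (k' := Nat.pair (Nat.pair n m) j + 2)
      (leF_iInf.1 hk (j + 1)) x
    have h2 : a (ac k x) j = t (ac k x) (Nat.pair (Nat.pair n m) j).unpair.1.unpair.1
      (Nat.pair (Nat.pair n m) j).unpair.1.unpair.2 (Nat.pair (Nat.pair n m) j).unpair.2 := this
    rwa [Nat.unpair_pair, Nat.unpair_pair] at h2

end Pool.Agent.SX
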