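import Pool.Agent.Lib.SX.RdE
import Pool.Agent.Lib.SX.TrF
import Pool.Agent.Lib.SX.LeF

/-!
# EmbC: an extensional name which is an embedding below `p` gives an `Emb K`
-/

set_option autoImplicit false

namespace Pool.Agent.SX

open Pool.Agent.PolB Pool.Agent.Lib.BVM Pool.Agent.Mart

variable {K : Type}

/-- below `p * h` the value of `F` at (the element with code) `a` is `b` -/
def Vl (F : (ℕ → BP K) → ℕ → BP K) (p h : PM K) (a b : (K → Cs) → Cs) : Prop :=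
  Continuous b ∧ Rd (p * h) (F (nm (p * h) a)) b

private theorem vl_res {F : (ℕ → BP K) → ℕ → BP K} (hF : ExtF F) {p h : PM K} {a b : (K → Cs) → Cs}
    (ha : Continuous a) (H : Vl F p h a b) (k : PM K) : Vl F p (h * k) (a ∘ ac k) (b ∘ ac k) := by
  refine ⟨H.1.comp (continuous_ac k), ?_⟩
  rw [← mul_assoc]
  exact eqv_ext hF (Rd.eqv (ha.comp (continuous_ac k)) ((rd_nm (p * h) ha).mul k)
    (rd_nm (p * h * k) (ha.comp (continuous_ac k)))) (H.2.mul k)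

private theorem vl_ex {F : (ℕ → BP K) → ℕ → BP K} (hF : ExtF F) (p h : PM K) {a : (K → Cs) → Cs}
    (ha : Continuous a) : ∃ k b, Vl F p (h * k) (a ∘ ac k) b := by
  obtain ⟨k, b, hb, H⟩ := exists_rd (p * h) (F (nm (p * h) a))
  refine ⟨k, b, hb, ?_⟩
  rw [← mul_assoc]
  exact eqv_ext hF (Rd.eqv (ha.comp (continuous_ac k)) ((rd_nm (p * h) ha).mul k)
    (rd_nm (p * h * k) (ha.comp (continuous_ac k)))) H

private theorem emb_le {F : (ℕ → BP K) → ℕ → BP K} {p : PM K} (hp : Ap p (embB F)) (h : PM K) {u v : ℕ → BP K}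
    (hl : Ap (p * h) (leB u v)) : Ap (p * h) (trB (F u) (F v)) := by
  have h1 : embB F ≤ (leB u v ⇨ trB (F u) (F v)) := by
    refine (iInf_le _ u).trans ((iInf_le _ v).trans ?_)
    rw [bihimp_def]
    exact inf_le_right
  have h2 : Ap (p * h) (leB u v ⇨ trB (F u) (F v)) := ap_mul (le_iff_Ap.1 h1 p hp) h
  exact (Ap_himp leP_refl leP_trans _ _ _).1 h2 (p * h) (leP_refl _) hl

private theorem emb_tr {F : (ℕ → BP K) → ℕ → BP K} {p : PM K} (hp : Ap p (embB F)) (h : PM K) {u v : ℕ → BP K}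
    (hl : Ap (p * h) (trB (F u) (F v))) : Ap (p * h) (leB u v) := by
  have h1 : embB F ≤ (trB (F u) (F v) ⇨ leB u v) := by
    refine (iInf_le _ u).trans ((iInf_le _ v).trans ?_)
    rw [bihimp_def]
    exact inf_le_left
  have h2 : Ap (p * h) (trB (F u) (F v) ⇨ leB u v) := ap_mul (le_iff_Ap.1 h1 p hp) h
  exact (Ap_himp leP_refl leP_trans _ _ _).1 h2 (p * h) (leP_refl _) hl

/-- the interface -/
noncomputable def embC (F : (ℕ → BP K) → ℕ → BP K) (hF : ExtF F) (p : PM K) (hp : Ap p (embB F)) : Emb K where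
  V0 h a b := Continuous a ∧ Vl F p h (code0 ∘ a) b
  V1 h a b := Continuous a ∧ Vl F p h (code1 ∘ a) b
  V2 h a b := Continuous a ∧ Vl F p h (code2 ∘ a) b
  cont0 H := H.2.1
  cont1 H := H.2.1
  cont2 H := H.2.1
  ex0 h a ha := by
    obtain ⟨k, b, hb⟩ := vl_ex hF p h (cont_code0 ha)
    exact ⟨k, b, ha.comp (continuous_ac k), hb⟩
  ex1 h a ha := by
    obtain ⟨k, b, hb⟩ := vl_ex hF p h (cont_code1 ha)
    exact ⟨k, b, ha.comp (continuous_ac k), hb⟩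
  ex2 h a ha := by
    obtain ⟨k, b, hb⟩ := vl_ex hF p h (cont_code2 ha)
    exact ⟨k, b, ha.comp (continuous_ac k), hb⟩
  res0 H k := ⟨H.1.comp (continuous_ac k), vl_res hF (cont_code0 H.1) H.2 k⟩
  res1 H k := ⟨H.1.comp (continuous_ac k), vl_res hF (cont_code1 H.1) H.2 k⟩
  res2 H k := ⟨H.1.comp (continuous_ac k), vl_res hF (cont_code2 H.1) H.2 k⟩
  uniq H H' := Rd.uniq H.2.1 H'.2.1 H.2.2 H'.2.2
  le01 := by
    rintro h a z b b' H H' ⟨n, e⟩
    exact tr_of_ap H.2.1 H'.2.1 H.2.2 H'.2.2 (emb_le hp h (leF01 H.1 H'.1 (rd_nm _ (cont_code0 H.1))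
      (rd_nm _ (cont_code1 H'.1)) e))
  le12 := by
    rintro h a z b b' H H' ⟨n, e⟩
    exact tr_of_ap H.2.1 H'.2.1 H.2.2 H'.2.2 (emb_le hp h (leF12 H.1 H'.1 (rd_nm _ (cont_code1 H.1))
      (rd_nm _ (cont_code2 H'.1)) e))
  nle00 := by
    intro h a a' b b' H H' ht
    exact nleF00 H.1 H'.1 (rd_nm _ (cont_code0 H.1)) (rd_nm _ (cont_code0 H'.1))
      (emb_tr hp h (ap_of_tr H.2.1 H'.2.1 H.2.2 H'.2.2 ht))
  nle01 := by
    intro h a z b b' H H' ht
    exact nleF01 H.1 H'.1 (rd_nm _ (cont_code0 H.1)) (rd_nm _ (cont_code1 H'.1))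
      (emb_tr hp h (ap_of_tr H.2.1 H'.2.1 H.2.2 H'.2.2 ht))
  nle02 := by
    intro h a t b b' H H' ht
    exact nleF02 H.1 H'.1 (rd_nm _ (cont_code0 H.1)) (rd_nm _ (cont_code2 H'.1))
      (emb_tr hp h (ap_of_tr H.2.1 H'.2.1 H.2.2 H'.2.2 ht))

end Pool.Agent.SX
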