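import Pool.Agent.Lib.SX.Cell

/-!
# Lim: the fusion limit (about 180 lines)

One coordinate first. Let `k : ℕ → SM` and `N` such that for all `n ≥ N`, `∀ x, Ag n ((k n).f x) x`. Let
`P m n = k m * k (m+1) * ... * k (n-1)` (for `m ≤ n`; define by recursion on `n - m`). For `n ≥ N, n ≥ m`:
`Ag n ((P m (n+1)).f x) ((P m n).f x)` (`lip` of `P m n` applied to `Ag n ((k n).f x) x`). So the sequence `(P m n).f x` is eventually
constant at each place: `lim m x : Cs`, `Ag n (lim m x) ((P m n).f x)` for `n ≥ N, m`. `lim m` is in `SM`: `lip` from `lip` of `P m n`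
(for `Ag j x y`, compare below `j` with a large `n`); injective: if `x ≠ y` take `n ≥ N, m` with `¬ Ag n x y`; then `lim n x`, `lim n y` agree
with `x`, `y` below `n`, so are different, and `lim m = P m n * lim n` (`P m n` is injective). Also `lim m = k m * lim (m+1)`, and if
`∀ j ≥ m, k j = 1` then `lim m = 1`, and for `m ≥ N`: `Ag m (lim m x) x`.
The theorem: coordinatewise, with `N` = the least `n` with `i ∈ F n` if there is one; if there is none then all `k n` are the identity at `i`. The
support of `t n` is contained in the union of the supports of all `k m`.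
-/

set_option autoImplicit false

namespace Pool.Agent.SX

variable {K : Type}

private theorem lim_ext {a b : SM} (h : a.f = b.f) : a = b := by
  cases a
  cases b
  cases h
  rfl

/-- `k m * k (m + 1) * ... * k (m + d - 1)` -/
private def lim_P (k : ℕ → SM) (m : ℕ) : ℕ → SM
  | 0 => 1
  | d + 1 => lim_P k m d * k (m + d)

private theorem lim_P_succ (k : ℕ → SM) (m d : ℕ) :
    lim_P k m (d + 1) = k m * lim_P k (m + 1) d := by
  induction d with
  | zero =>
    show 1 * k (m + 0) = k m * 1
    rw [one_mul, mul_one, Nat.add_zero]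
  | succ d ih =>
    show lim_P k m (d + 1) * k (m + (d + 1)) = k m * (lim_P k (m + 1) d * k (m + 1 + d))
    rw [ih, mul_assoc, show m + (d + 1) = m + 1 + d by omega]

private theorem lim_f (a b : SM) (x : Cs) : (a * b).f x = a.f (b.f x) := rfl

private theorem lim_stable {k : ℕ → SM} {N : ℕ} (hN : ∀ n, N ≤ n → ∀ x, Ag n ((k n).f x) x)
    (m d : ℕ) (hd : N ≤ m + d) (x : Cs) : ∀ c : ℕ,
    Ag (m + d) ((lim_P k m (d + c)).f x) ((lim_P k m d).f x)
  | 0 => fun _ _ => rfl
  | c + 1 => by
    intro j hj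
    have h1 : Ag (m + (d + c)) ((lim_P k m (d + c)).f ((k (m + (d + c))).f x))
        ((lim_P k m (d + c)).f x) :=
      (lim_P k m (d + c)).lip _ _ _ (hN (m + (d + c)) (by omega) x)
    have h2 : (lim_P k m (d + (c + 1))).f x = (lim_P k m (d + c)).f ((k (m + (d + c))).f x) := rfl
    rw [h2, h1 j (by omega)]
    exact lim_stable hN m d hd x c j hj

/-- the limit at one coordinate -/
private theorem lim_one {k : ℕ → SM} {N : ℕ} (hN : ∀ n, N ≤ n → ∀ x, Ag n ((k n).f x) x) :
    ∃ l : ℕ → SM, (∀ m, l m = k m * l (m + 1)) ∧ ∀ m, N ≤ m → ∀ x, Ag m ((l m).f x) x := by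
  set L : ℕ → Cs → Cs := fun m x j => (lim_P k m (N + j + 1)).f x j with hL
  have hLP : ∀ m d, N ≤ m + d → ∀ x, Ag (m + d) (L m x) ((lim_P k m d).f x) := by
    intro m d hd x j hj
    show (lim_P k m (N + j + 1)).f x j = (lim_P k m d).f x j
    rcases le_total (N + j + 1) d with h | h
    · obtain ⟨c, rfl⟩ := Nat.exists_eq_add_of_le h
      exact (lim_stable hN m (N + j + 1) (by omega) x c j (by omega)).symm
    · obtain ⟨c, hc⟩ := Nat.exists_eq_add_of_le h
      rw [hc]
      exact lim_stable hN m d hd x c j hj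
  have hlip : ∀ m n x y, Ag n x y → Ag n (L m x) (L m y) := by
    intro m n x y hxy j hj
    exact (lim_P k m (N + j + 1)).lip n x y hxy j hj
  have hrec : ∀ m x, L m x = (k m).f (L (m + 1) x) := by
    intro m x
    funext j
    have h1 := hLP m (N + j + 1 + 1) (by omega) x j (by omega)
    rw [lim_P_succ] at h1
    have h2 : Ag (j + 1) (L (m + 1) x) ((lim_P k (m + 1) (N + j + 1)).f x) := by
      intro i hi
      exact hLP (m + 1) (N + j + 1) (by omega) x i (by omega)
    have h3 := (k m).lip _ _ _ h2 j (by omega)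
    rw [h1, h3]
    rfl
  have hLm : ∀ m, N ≤ m → ∀ x, Ag m (L m x) x := fun m hm x => hLP m 0 hm x
  have hcomp : ∀ m d x, L m x = (lim_P k m d).f (L (m + d) x) := by
    intro m d x
    induction d with
    | zero => rfl
    | succ d ih =>
      rw [ih, hrec (m + d) x]
      rfl
  have hinj : ∀ m, Function.Injective (L m) := by
    intro m x y hxy
    funext j
    rw [hcomp m (N + j + 1) x, hcomp m (N + j + 1) y] at hxy
    have h1 := (lim_P k m (N + j + 1)).inj hxy
    have h2 := hLm (m + (N + j + 1)) (by omega) x j (by omega)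
    have h3 := hLm (m + (N + j + 1)) (by omega) y j (by omega)
    rw [← h2, ← h3, h1]
  refine ⟨fun m => ⟨L m, fun n x y => hlip m n x y, hinj m⟩, fun m => ?_, hLm⟩
  apply lim_ext
  funext x
  exact hrec m x

theorem lim (k : ℕ → PM K) (F : ℕ → Finset K) (hF : ∀ n, F n ⊆ F (n + 1)) (hk : ∀ n, Pres (F n) n (k n))
    (hs : ∀ i, (∀ n, (k n).1 i = 1) ∨ ∃ n, i ∈ F n) :
    ∃ t : ℕ → PM K, (∀ n, t n = k n * t (n + 1)) ∧ (∀ n, Pres (F n) n (t n)) ∧
      ∀ i, (∀ n, (k n).1 i = 1) → ∀ n, (t n).1 i = 1 := by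
  classical
  have hmono : ∀ m n, m ≤ n → F m ⊆ F n := fun m n h => monotone_nat_of_le_succ hF h
  have key : ∀ i, ∃ l : ℕ → SM, (∀ m, l m = (k m).1 i * l (m + 1)) ∧
      (∀ m, i ∈ F m → ∀ x, Ag m ((l m).f x) x) ∧ ((∀ n, (k n).1 i = 1) → ∀ m, l m = 1) := by
    intro i
    by_cases hall : ∀ n, (k n).1 i = 1
    · refine ⟨fun _ => 1, fun m => ?_, fun m _ x j _ => rfl, fun _ _ => rfl⟩
      rw [hall m, one_mul]
    · have hex : ∃ n, i ∈ F n := (hs i).resolve_left hall
      obtain ⟨l, h1, h2⟩ := lim_one (k := fun n => (k n).1 i) (N := Nat.find hex)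
        (fun n hn x => hk n i (hmono _ _ hn (Nat.find_spec hex)) x)
      exact ⟨l, h1, fun m hm x => h2 m (Nat.find_min' hex hm) x, fun h => absurd h hall⟩
  choose l hl1 hl2 hl3 using key
  refine ⟨fun n => ⟨fun i => l i n, ?_⟩, fun n => ?_, fun n i hi x => hl2 i n hi x,
    fun i hi n => hl3 i hi n⟩
  · have h1 : (⋃ m, {i | (k m).1 i ≠ 1}).Countable := Set.countable_iUnion fun m => (k m).2
    refine h1.mono fun i hi => ?_
    rw [Set.mem_iUnion]
    by_contra hc
    push Not at hc
    refine hi (hl3 i (fun m => ?_) n)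
    by_contra hm
    exact hc m hm
  · apply Subtype.ext
    funext i
    exact hl1 i n

end Pool.Agent.SX
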