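import Pool.Agent.Lib.SX.FSep
import Pool.Agent.Lib.SX.Cw
import Pool.Agent.Lib.SX.CwG
import Pool.Agent.Lib.SX.Lim

/-!
# FRec: the fusion for (F) (about 180 lines)

`DD i h` is open, and dense: given `h`; if some `Y ∘ ac (h * k)` is independent of `i`, then by `H` some `c ∘ ac (h * k * k')` is too, and then `DD i (h * (k * k'))` (first alternative, `Ind.comp`); otherwise the second alternative holds for `h`.
Let `F m` = the set of the `en l`, `l < m` (a finset, `Finset.image en (range m)`). Stage `m`, from `h_m`: (a) `cw` with `DD (en m)`, `F m`, level `m` gives `ka`. Invariant `G_m g`: for all `l ≤ m` and all points `x`: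
`DD (en l) (g * cel (F (m+1)) (m+1) x)`; it holds for `g = h_m * ka` by (a) and the invariant of the previous stage (a cell for `(F (m+1), m+1)` is contained in the cell for `(F m, m)`: `cel (F (m+1)) (m+1) x = cel (F m) m x * k'`, a special case of `cel_ac`-type
facts: for `i ∈ F m`: `pfxM (m+1) z = pfxM m z * pfxM 1 (z without the first m values)`). (b) `cw_rel` with `G := G_m`, `Q := Pres (F (m+1)) (m+1)`, index set = pairs of representatives (`exists_reps`) times `{i // i ∈ F (m+1)}`, requirement `(x0, x1, i)`: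
`Ag (m+1) (x0 i) (x1 i)`, or `Ind i (Y ∘ ac (g * cel (F (m+1)) (m+1) x0))`, or for all `y0`, `y1` in the two cells `Y (ac g y0) ≠ Y (ac g y1)`. Dense: `G_m g` gives `DD i` for the cell of `x0`; if it is the first alternative done (`k = 1`); else `fsep`. Gives `kb`;
`k_m = ka * kb`, `h_{m+1} = h_m * k_m`. `lim` gives `t`; `g := t 0 = h_m * t m` (`h_0 = 1`). Conclusions for `g`:
`dec`: for `m`, `x`: `DD (en m) (h_m * ka * cel (F m) m x)`; put `g_m := h_m * ka`, `t'_m := kb * t (m+1)` (preserves the first `m` values on `F m`): `g = g_m * t'_m`.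
`sep`: if `en m` is of the second type for the cell `(F m, m)` of `x` and `x (en m) ≠ x' (en m)` then `Y (ac g x) ≠ Y (ac g x')`: choose `n > m` with `¬ Ag (n+1) (x (en m)) (x' (en m))` and use the requirement of stage `n` (the second type is inherited by smaller cells, so `Ind` is impossible),
for the points `ac (t (n+1)) x`, `ac (t (n+1)) x'` (same cells as `x`, `x'`).
-/

set_option autoImplicit false

namespace Pool.Agent.SX

variable {K : Type}

/-- the decision for the coordinate `i` -/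
def DD (c Y : (K → Cs) → Cs) (i : K) (h : PM K) : Prop :=
  (Ind i (Y ∘ ac h) ∧ Ind i (c ∘ ac h)) ∨ ∀ k, ¬ Ind i (Y ∘ ac (h * k))

private theorem frec_op (c Y : (K → Cs) → Cs) (i : K) : Op (DD c Y i) := by
  rintro h k (⟨h1, h2⟩ | h1)
  · exact Or.inl ⟨h1.comp k, h2.comp k⟩
  · refine Or.inr fun k' => ?_
    rw [mul_assoc]
    exact h1 (k * k')

private theorem frec_dn {c Y : (K → Cs) → Cs}
    (H : ∀ (k : PM K) (i : K), Ind i (Y ∘ ac k) → ∃ k', Ind i (c ∘ ac (k * k'))) (i : K) :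
    Dn (DD c Y i) := by
  intro h
  by_cases hk : ∃ k, Ind i (Y ∘ ac (h * k))
  · obtain ⟨k, hk⟩ := hk
    obtain ⟨k', hk'⟩ := H (h * k) i hk
    refine ⟨k * k', Or.inl ⟨?_, ?_⟩⟩
    · rw [← mul_assoc]
      exact hk.comp k'
    · rw [← mul_assoc]
      exact hk'
  · refine ⟨1, Or.inr fun k hk' => hk ⟨k, ?_⟩⟩
    rw [mul_one] at hk'
    exact hk'

private theorem frec_cel {F F' : Finset K} {n n' : ℕ} (hF : F ⊆ F') (hn : n ≤ n') (x : K → Cs) :
    ∃ k : PM K, cel F' n' x = cel F n x * k := by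
  classical
  refine ⟨⟨fun i => if i ∈ F then pfxM (n' - n) (fun j => x i (j + n)) else (cel F' n' x).1 i, ?_⟩,
    PM.ext fun i y => ?_⟩
  · refine (F.finite_toSet.countable.union (cel F' n' x).2).mono fun i hi => ?_
    by_cases h : i ∈ F
    · exact Or.inl h
    · refine Or.inr ?_
      change (if i ∈ F then pfxM (n' - n) (fun j => x i (j + n)) else (cel F' n' x).1 i) ≠ 1 at hi
      rwa [if_neg h] at hi
  · rw [PM.mul_c]
    by_cases hi : i ∈ F
    · have h1 : (cel F' n' x).1 i = pfxM n' (x i) := if_pos (hF hi)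
      have h2 : (cel F n x).1 i = pfxM n (x i) := if_pos hi
      rw [h1, h2]
      change pfx n' (x i) y = pfx n (x i)
        ((if i ∈ F then pfxM (n' - n) (fun j => x i (j + n)) else (cel F' n' x).1 i).f y)
      rw [if_pos hi]
      change pfx n' (x i) y = pfx n (x i) (pfx (n' - n) (fun j => x i (j + n)) y)
      funext a
      unfold pfx
      by_cases ha : a < n
      · rw [if_pos (lt_of_lt_of_le ha hn), if_pos ha]
      · rw [if_neg ha]
        by_cases ha' : a < n'
        · rw [if_pos ha', if_pos (show a - n < n' - n by omega)]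
          show x i a = x i (a - n + n)
          rw [Nat.sub_add_cancel (not_lt.1 ha)]
        · rw [if_neg ha', if_neg (show ¬ a - n < n' - n by omega)]
          congr 1
          omega
    · have h2 : (cel F n x).1 i = 1 := if_neg hi
      rw [h2]
      change ((cel F' n' x).1 i).f y = ((if i ∈ F then pfxM (n' - n) (fun j => x i (j + n)) else
        (cel F' n' x).1 i).f y)
      rw [if_neg hi]

open Classical in
/-- the coordinates treated before stage `m` -/
private noncomputable def frec_F (en : ℕ → K) (m : ℕ) : Finset K := (Finset.range m).image en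

private theorem frec_F_mem (en : ℕ → K) {l m : ℕ} (h : l < m) : en l ∈ frec_F en m := by
  classical
  exact Finset.mem_image_of_mem _ (Finset.mem_range.2 h)

private theorem frec_F_mono (en : ℕ → K) {m n : ℕ} (h : m ≤ n) : frec_F en m ⊆ frec_F en n := by
  classical
  exact Finset.image_subset_image (Finset.range_mono h)

private theorem frec_step [Countable K] {c Y : (K → Cs) → Cs} (hY : Continuous Y)
    (H : ∀ (k : PM K) (i : K), Ind i (Y ∘ ac k) → ∃ k', Ind i (c ∘ ac (k * k'))) (en : ℕ → K)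
    (m : ℕ) (h : PM K) (hI : ∀ l < m, ∀ x, DD c Y (en l) (h * cel (frec_F en m) m x)) :
    ∃ ka kb : PM K, Pres (frec_F en m) m ka ∧
      (∀ x, DD c Y (en m) (h * ka * cel (frec_F en m) m x)) ∧
      Pres (frec_F en (m + 1)) (m + 1) kb ∧
      (∀ l < m + 1, ∀ x, DD c Y (en l) (h * ka * kb * cel (frec_F en (m + 1)) (m + 1) x)) ∧
      ∀ (x0 x1 : K → Cs), ∀ i ∈ frec_F en (m + 1), Ag (m + 1) (x0 i) (x1 i) ∨
        Ind i (Y ∘ ac (h * ka * kb * cel (frec_F en (m + 1)) (m + 1) x0)) ∨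
        ∀ y0 y1, (∀ j ∈ frec_F en (m + 1), Ag (m + 1) (x0 j) (y0 j)) →
          (∀ j ∈ frec_F en (m + 1), Ag (m + 1) (x1 j) (y1 j)) →
          Y (ac (h * ka * kb) y0) ≠ Y (ac (h * ka * kb) y1) := by
  classical
  obtain ⟨ka, hka, hDa⟩ := cw (frec_dn H (en m)) (frec_op c Y (en m)) h (frec_F en m) m
  have hI1 : ∀ l < m + 1, ∀ x, DD c Y (en l) (h * ka * cel (frec_F en (m + 1)) (m + 1) x) := by
    intro l hl x
    obtain ⟨k1, hk1⟩ := frec_cel (frec_F_mono en (Nat.le_succ m)) (Nat.le_succ m) x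
    rw [hk1, ← mul_assoc]
    rcases Nat.lt_succ_iff_lt_or_eq.1 hl with h1 | rfl
    · obtain ⟨k2, hk2⟩ := pres_cel hka x
      rw [mul_assoc h ka, hk2, ← mul_assoc h, mul_assoc (h * _) k2 k1]
      exact frec_op c Y _ _ _ (hI l h1 x)
    · exact frec_op c Y _ _ _ (hDa x)
  have hpers : ∀ g k : PM K, (∀ l < m + 1, ∀ x, DD c Y (en l) (g * cel (frec_F en (m + 1)) (m + 1) x)) →
      Pres (frec_F en (m + 1)) (m + 1) k →
      ∀ l < m + 1, ∀ x, DD c Y (en l) (g * k * cel (frec_F en (m + 1)) (m + 1) x) := by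
    intro g k hg hk l hl x
    obtain ⟨k2, hk2⟩ := pres_cel hk x
    rw [mul_assoc g k, hk2, ← mul_assoc g]
    exact frec_op c Y _ _ _ (hg l hl x)
  obtain ⟨S, hS⟩ := exists_reps (frec_F en (m + 1)) (m + 1)
  obtain ⟨kb, hkb, hR⟩ := cw_rel
    (ι := ({y // y ∈ S} × {y // y ∈ S}) × {i // i ∈ frec_F en (m + 1)})
    (fun g => ∀ l < m + 1, ∀ x, DD c Y (en l) (g * cel (frec_F en (m + 1)) (m + 1) x))
    (Pres (frec_F en (m + 1)) (m + 1)) (Pres.one _ _) (fun k k' hk hk' => hk.mul hk') hpers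
    (fun a g => Ag (m + 1) (a.1.1.1 a.2.1) (a.1.2.1 a.2.1) ∨
        Ind a.2.1 (Y ∘ ac (g * cel (frec_F en (m + 1)) (m + 1) a.1.1.1)) ∨
        ∀ y0 y1, (∀ j ∈ frec_F en (m + 1), Ag (m + 1) (a.1.1.1 j) (y0 j)) →
          (∀ j ∈ frec_F en (m + 1), Ag (m + 1) (a.1.2.1 j) (y1 j)) →
          Y (ac g y0) ≠ Y (ac g y1))
    (by
      rintro a g k hg (h1 | h1 | h1) hk
      · exact Or.inl h1
      · refine Or.inr (Or.inl ?_)
        obtain ⟨k2, hk2⟩ := pres_cel hk a.1.1.1
        rw [mul_assoc g k, hk2, ← mul_assoc g]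
        exact h1.comp k2
      · refine Or.inr (Or.inr fun y0 y1 hy0 hy1 => ?_)
        exact h1 (ac k y0) (ac k y1) (fun j hj => (hy0 j hj).trans (hk j hj (y0 j)).symm)
          (fun j hj => (hy1 j hj).trans (hk j hj (y1 j)).symm))
    (by
      intro a g hg
      obtain ⟨l, hl, he⟩ : ∃ l, l < m + 1 ∧ en l = a.2.1 := by
        obtain ⟨l, hl, he⟩ := Finset.mem_image.1 a.2.2
        exact ⟨l, Finset.mem_range.1 hl, he⟩
      by_cases hAg : Ag (m + 1) (a.1.1.1 a.2.1) (a.1.2.1 a.2.1)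
      · exact ⟨1, Pres.one _ _, Or.inl hAg⟩
      · rcases hg l hl a.1.1.1 with h1 | h1
        · refine ⟨1, Pres.one _ _, Or.inr (Or.inl ?_)⟩
          rw [mul_one, ← he]
          exact h1.1
        · obtain ⟨k, hk, hk'⟩ := fsep hY g (frec_F en (m + 1)) (m + 1) a.1.1.1 a.1.2.1 a.2.2 hAg
            (by rw [← he]; exact h1)
          exact ⟨k, hk, Or.inr (Or.inr hk')⟩)
    (h * ka) hI1
  refine ⟨ka, kb, hka, hDa, hkb, hpers _ _ hI1 hkb, fun x0 x1 i hi => ?_⟩
  obtain ⟨z0, hz0, hxz0⟩ := hS x0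
  obtain ⟨z1, hz1, hxz1⟩ := hS x1
  rcases hR ((⟨z0, hz0⟩, ⟨z1, hz1⟩), ⟨i, hi⟩) with h1 | h1 | h1
  · exact Or.inl (((hxz0 i hi).trans h1).trans (hxz1 i hi).symm)
  · refine Or.inr (Or.inl ?_)
    rw [cel_congr hxz0]
    exact h1
  · exact Or.inr (Or.inr fun y0 y1 hy0 hy1 => h1 y0 y1
      (fun j hj => (hxz0 j hj).symm.trans (hy0 j hj)) (fun j hj => (hxz1 j hj).symm.trans (hy1 j hj)))

open Classical in
theorem frec [Countable K] {c Y : (K → Cs) → Cs} (hc : Continuous c) (hY : Continuous Y)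
    (H : ∀ (k : PM K) (i : K), Ind i (Y ∘ ac k) → ∃ k', Ind i (c ∘ ac (k * k'))) (en : ℕ → K)
    (hen : Function.Surjective en) :
    ∃ (g : PM K) (gm tm : ℕ → PM K), (∀ m, g = gm m * tm m) ∧
      (∀ m, Pres ((Finset.range m).image en) m (tm m)) ∧
      (∀ m x, DD c Y (en m) (gm m * cel ((Finset.range m).image en) m x)) ∧
      ∀ m x x', (∀ k, ¬ Ind (en m) (Y ∘ ac (gm m * cel ((Finset.range m).image en) m x * k))) →
        x (en m) ≠ x' (en m) → Y (ac g x) ≠ Y (ac g x') := by
  classical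
  have hstep := fun m h => frec_step hY H en m h
  choose! ka kb h1 h2 h3 h4 h5 using hstep
  obtain ⟨hh, hh0, hhs⟩ : ∃ hh : ℕ → PM K, hh 0 = 1 ∧
      ∀ m, hh (m + 1) = hh m * ka m (hh m) * kb m (hh m) :=
    ⟨fun m => Nat.rec 1 (fun m h => h * ka m h * kb m h) m, rfl, fun _ => rfl⟩
  have hI : ∀ m, ∀ l < m, ∀ x, DD c Y (en l) (hh m * cel (frec_F en m) m x) := by
    intro m
    induction m with
    | zero => exact fun l hl => absurd hl (Nat.not_lt_zero l)
    | succ m ih =>
      rw [hhs]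
      exact h4 m (hh m) ih
  have hkP : ∀ m, Pres (frec_F en m) m (ka m (hh m) * kb m (hh m)) := fun m =>
    (h1 m _ (hI m)).mul ((h3 m _ (hI m)).mono (frec_F_mono en (Nat.le_succ m)) (Nat.le_succ m))
  obtain ⟨t, ht, htP, -⟩ := lim (fun m => ka m (hh m) * kb m (hh m)) (frec_F en)
    (fun n => frec_F_mono en (Nat.le_succ n)) hkP (fun i => by
      obtain ⟨l, rfl⟩ := hen i
      exact Or.inr ⟨l + 1, frec_F_mem en (Nat.lt_succ_self l)⟩)
  have hg : ∀ m, t 0 = hh m * t m := by
    intro m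
    induction m with
    | zero => rw [hh0, one_mul]
    | succ m ih => rw [ih, hhs, ht m, mul_assoc (hh m), mul_assoc (hh m)]
  refine ⟨t 0, fun m => hh m * ka m (hh m), fun m => kb m (hh m) * t (m + 1), fun m => ?_,
    fun m => ?_, fun m x => h2 m _ (hI m) x, fun m x x' hty hne => ?_⟩
  · rw [hg (m + 1), hhs, mul_assoc]
  · exact ((h3 m _ (hI m)).mono (frec_F_mono en (Nat.le_succ m)) (Nat.le_succ m)).mul
      ((htP (m + 1)).mono (frec_F_mono en (Nat.le_succ m)) (Nat.le_succ m))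
  · obtain ⟨n, hmn, hn⟩ : ∃ n, m ≤ n ∧ ¬ Ag (n + 1) (x (en m)) (x' (en m)) := by
      by_contra hc
      push Not at hc
      refine hne (eq_of_Ag fun n => ?_)
      exact (hc (max m n) (le_max_left _ _)).mono ((le_max_right m n).trans (Nat.le_succ _))
    have hw : ∀ n, m ≤ n → ∃ w, Pres (frec_F en m) m w ∧ hh (n + 1) = hh m * ka m (hh m) * w := by
      intro n hn
      induction n, hn using Nat.le_induction with
      | base => exact ⟨kb m (hh m), (h3 m _ (hI m)).mono (frec_F_mono en (Nat.le_succ m))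
          (Nat.le_succ m), hhs m⟩
      | succ n hn ih =>
        obtain ⟨w, hw, he⟩ := ih
        refine ⟨w * (ka (n + 1) (hh (n + 1)) * kb (n + 1) (hh (n + 1))), hw.mul
          ((hkP (n + 1)).mono (frec_F_mono en (by omega)) (by omega)), ?_⟩
        rw [hhs (n + 1), mul_assoc (hh (n + 1)), ← mul_assoc _ w, ← he]
    obtain ⟨w, hwP, hwe⟩ := hw n hmn
    have hmem : en m ∈ frec_F en (n + 1) := frec_F_mem en (by omega)
    have hreq := h5 n _ (hI n) x x' (en m) hmem
    rw [← hhs n] at hreq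
    rcases hreq with h6 | h6 | h6
    · exact absurd h6 hn
    · exfalso
      obtain ⟨k1, hk1⟩ := frec_cel (frec_F_mono en (show m ≤ n + 1 by omega))
        (show m ≤ n + 1 by omega) x
      obtain ⟨k2, hk2⟩ := pres_cel hwP x
      refine hty (k2 * k1) ?_
      have he : hh (n + 1) * cel (frec_F en (n + 1)) (n + 1) x =
          hh m * ka m (hh m) * cel (frec_F en m) m x * (k2 * k1) := by
        rw [hwe, hk1, mul_assoc _ w, ← mul_assoc w, hk2]
        simp only [mul_assoc]
      rw [he] at h6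
      exact h6
    · rw [hg (n + 1)]
      exact h6 (ac (t (n + 1)) x) (ac (t (n + 1)) x')
        (fun j hj => (htP (n + 1) j hj (x j)).symm) (fun j hj => (htP (n + 1) j hj (x' j)).symm)

end Pool.Agent.SX
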