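import Pool.Agent.Lib.SX.Cell
import Pool.Agent.Lib.SX.Fini

/-!
# FSep: separation of two cells (about 130 lines)

`len2`: `open_nbhd` for `O0`, `p0` and for `O1`, `p1` gives one finite set `J` and one `L ≥ n`. Define `k` (there is no condition on the support, `K` is countable): `j ∉ F`: `k_j = pfxM L (p0 j)` (`= pfxM L (p1 j)`);
`j ∈ F`: `k_j y = pfx L (p0 j) (fun i => y (i + n))` if `Ag n (p0 j) y`, else `pfx L (p1 j) (fun i => y (i + n))` if `Ag n (p1 j) y`, else `y`. It is in `SM` and preserves the first `n` values.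
`fsep`: with `s = cel F n x0`, `s' = cel F n x1`: `hd 1` gives `a, a'` which differ only at `i` with `Y (h s a) ≠ Y (h s a')`. `Y (h s' a)` is different from `Y (h s a)` or from `Y (h s a')`. Let `p1 = s' a` and `p0 = s a` or `s a'`.
They are equal at every `j ∉ F` (`j ≠ i` because `i ∈ F`) and at every `j ∈ F` with `Ag n (x0 j) (x1 j)` (then `j ≠ i`; `cel_eq_at`). Let `N` be a place where the two values differ; `O0 = {y | Y (ac h y) N = Y (ac h p0) N}`, `O1` similarly; `len2`.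
-/

set_option autoImplicit false

namespace Pool.Agent.SX

variable {K : Type}

open Classical in
/-- the map of one coordinate in the two cells -/
private noncomputable def f2 (n L : ℕ) (p q : Cs) (y : Cs) : Cs :=
  if Ag n p y then pfx L p (fun i => y (i + n)) else if Ag n q y then pfx L q (fun i => y (i + n)) else y

private theorem f2_low {n L : ℕ} (hL : n ≤ L) (p q y : Cs) {k : ℕ} (hk : k < n) : f2 n L p q y k = y k := by
  unfold f2
  split_ifs with h1 h2
  · unfold pfx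
    rw [if_pos (lt_of_lt_of_le hk hL)]
    exact h1 k hk
  · unfold pfx
    rw [if_pos (lt_of_lt_of_le hk hL)]
    exact h2 k hk
  · rfl

private theorem f2_congr {n L : ℕ} (p q : Cs) {x y : Cs} (h : Ag n x y) :
    (∃ z, (f2 n L p q x = pfx L z fun i => x (i + n)) ∧ f2 n L p q y = pfx L z fun i => y (i + n)) ∨
      (f2 n L p q x = x ∧ f2 n L p q y = y) := by
  unfold f2
  by_cases h1 : Ag n p x
  · rw [if_pos h1, if_pos (h1.trans h)]
    exact Or.inl ⟨p, rfl, rfl⟩
  · rw [if_neg h1, if_neg (show ¬ Ag n p y from fun h2 => h1 (h2.trans h.symm))]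
    by_cases h3 : Ag n q x
    · rw [if_pos h3, if_pos (h3.trans h)]
      exact Or.inl ⟨q, rfl, rfl⟩
    · rw [if_neg h3, if_neg (show ¬ Ag n q y from fun h2 => h3 (h2.trans h.symm))]
      exact Or.inr ⟨rfl, rfl⟩

/-- the map of one coordinate as an element of the monoid -/
private noncomputable def k2 (n L : ℕ) (hL : n ≤ L) (p q : Cs) : SM where
  f := f2 n L p q
  lip := by
    intro m x y h k hk
    by_cases hkn : k < n
    · rw [f2_low hL p q x hkn, f2_low hL p q y hkn]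
      exact h k hk
    · rcases f2_congr (L := L) p q (h.mono (by omega : n ≤ m)) with ⟨z, h1, h2⟩ | ⟨h1, h2⟩
      · rw [h1, h2]
        unfold pfx
        split_ifs with h3
        · rfl
        · exact h _ (by omega)
      · rw [h1, h2]
        exact h k hk
  inj := by
    intro x y h
    have h0 : Ag n x y := fun k hk => by
      rw [← f2_low hL p q x hk, ← f2_low hL p q y hk, h]
    rcases f2_congr (L := L) p q h0 with ⟨z, h1, h2⟩ | ⟨h1, h2⟩
    · rw [h1, h2] at h
      have h3 : (fun i => x (i + n)) = fun i => y (i + n) := (pfxM L z).inj h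
      funext k
      by_cases hk : k < n
      · exact h0 k hk
      · have h4 := congrFun h3 (k - n)
        simp only [Nat.sub_add_cancel (not_lt.1 hk)] at h4
        exact h4
    · rw [h1, h2] at h
      exact h

private theorem Ag_pfx' {m L : ℕ} (hm : m ≤ L) (z y : Cs) : Ag m z (pfx L z y) := by
  intro k hk
  unfold pfx
  rw [if_pos (lt_of_lt_of_le hk hm)]

theorem len2 [Countable K] {O0 O1 : Set (K → Cs)} (h0 : IsOpen O0) (h1 : IsOpen O1) {p0 p1 : K → Cs} (hp0 : p0 ∈ O0)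
    (hp1 : p1 ∈ O1) (F : Finset K) (n : ℕ) (hs : ∀ j, (j ∈ F → Ag n (p0 j) (p1 j)) → p0 j = p1 j) :
    ∃ k : PM K, Pres F n k ∧ (∀ y, (∀ j ∈ F, Ag n (p0 j) (y j)) → ac k y ∈ O0) ∧
      ∀ y, (∀ j ∈ F, Ag n (p1 j) (y j)) → ac k y ∈ O1 := by
  classical
  obtain ⟨J0, L0, hJ0⟩ := open_nbhd h0 hp0
  obtain ⟨J1, L1, hJ1⟩ := open_nbhd h1 hp1
  obtain ⟨L, hL, hL0, hL1⟩ : ∃ L, n ≤ L ∧ L0 ≤ L ∧ L1 ≤ L :=
    ⟨max n (max L0 L1), le_max_left _ _, (le_max_left _ _).trans (le_max_right _ _),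
      (le_max_right _ _).trans (le_max_right _ _)⟩
  refine ⟨⟨fun j => if j ∈ F then k2 n L hL (p0 j) (p1 j) else pfxM L (p0 j), Set.to_countable _⟩,
    fun i hi y => ?_, fun y hy => hJ0 _ fun j _ => ?_, fun y hy => hJ1 _ fun j _ => ?_⟩
  · change Ag n ((if i ∈ F then k2 n L hL (p0 i) (p1 i) else pfxM L (p0 i)).f y) y
    rw [if_pos hi]
    exact fun k hk => f2_low hL _ _ y hk
  · change Ag L0 (p0 j) ((if j ∈ F then k2 n L hL (p0 j) (p1 j) else pfxM L (p0 j)).f (y j))
    by_cases hj : j ∈ F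
    · rw [if_pos hj]
      change Ag L0 (p0 j) (f2 n L (p0 j) (p1 j) (y j))
      unfold f2
      rw [if_pos (hy j hj)]
      exact Ag_pfx' hL0 _ _
    · rw [if_neg hj]
      exact Ag_pfx' hL0 _ _
  · change Ag L1 (p1 j) ((if j ∈ F then k2 n L hL (p0 j) (p1 j) else pfxM L (p0 j)).f (y j))
    by_cases hj : j ∈ F
    · rw [if_pos hj]
      change Ag L1 (p1 j) (f2 n L (p0 j) (p1 j) (y j))
      unfold f2
      by_cases h2 : Ag n (p0 j) (y j)
      · have h3 : p0 j = p1 j := hs j fun _ => h2.trans (hy j hj).symm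
        rw [if_pos h2, h3]
        exact Ag_pfx' hL1 _ _
      · rw [if_neg h2, if_pos (hy j hj)]
        exact Ag_pfx' hL1 _ _
    · rw [if_neg hj, hs j fun h => absurd h hj]
      exact Ag_pfx' hL1 _ _

theorem fsep [Countable K] {Y : (K → Cs) → Cs} (hY : Continuous Y) (h : PM K) (F : Finset K) (n : ℕ) (x0 x1 : K → Cs)
    {i : K} (hi : i ∈ F) (hx : ¬ Ag n (x0 i) (x1 i)) (hd : ∀ k, ¬ Ind i (Y ∘ ac (h * cel F n x0 * k))) :
    ∃ k : PM K, Pres F n k ∧ ∀ y0 y1, (∀ j ∈ F, Ag n (x0 j) (y0 j)) → (∀ j ∈ F, Ag n (x1 j) (y1 j)) →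
      Y (ac (h * k) y0) ≠ Y (ac (h * k) y1) := by
  have h1 := hd 1
  unfold Ind at h1
  push Not at h1
  obtain ⟨a, a', haa, hne⟩ := h1
  have hne' : Y (ac h (ac (cel F n x0) a)) ≠ Y (ac h (ac (cel F n x0) a')) := hne
  obtain ⟨b, hb, hbne⟩ : ∃ b : K → Cs, (∀ j, j ≠ i → b j = a j) ∧
      Y (ac h (ac (cel F n x0) b)) ≠ Y (ac h (ac (cel F n x1) a)) := by
    by_cases hc : Y (ac h (ac (cel F n x0) a)) = Y (ac h (ac (cel F n x1) a))
    · exact ⟨a', fun j hj => (haa j hj).symm, fun h2 => hne' (hc.trans h2.symm)⟩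
    · exact ⟨a, fun _ _ => rfl, hc⟩
  obtain ⟨N, hN⟩ := Function.ne_iff.1 hbne
  have hs : ∀ j, (j ∈ F → Ag n (ac (cel F n x0) b j) (ac (cel F n x1) a j)) →
      ac (cel F n x0) b j = ac (cel F n x1) a j := by
    intro j hj
    by_cases hjF : j ∈ F
    · have h2 : Ag n (x0 j) (x1 j) := ((cel_at hjF x0 b).trans (hj hjF)).trans (cel_at hjF x1 a).symm
      have h3 : j ≠ i := fun h4 => hx (h4 ▸ h2)
      exact cel_eq_at (fun _ => h2) (hb j h3)
    · have h3 : j ≠ i := fun h4 => hjF (h4 ▸ hi)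
      exact cel_eq_at (fun h4 => absurd h4 hjF) (hb j h3)
  have hO : ∀ v : Bool, IsOpen {y : K → Cs | Y (ac h y) N = v} := fun v =>
    (isOpen_discrete ({v} : Set Bool)).preimage ((continuous_apply N).comp (hY.comp (continuous_ac h)))
  obtain ⟨k, hk1, hk2, hk3⟩ := len2 (hO (Y (ac h (ac (cel F n x0) b)) N))
    (hO (Y (ac h (ac (cel F n x1) a)) N)) (p0 := ac (cel F n x0) b) (p1 := ac (cel F n x1) a) rfl rfl F n hs
  refine ⟨k, hk1, fun y0 y1 hy0 hy1 he => hN ?_⟩
  have h2 : Y (ac h (ac k y0)) N = Y (ac h (ac (cel F n x0) b)) N :=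
    hk2 y0 fun j hj => (cel_at hj x0 b).symm.trans (hy0 j hj)
  have h3 : Y (ac h (ac k y1)) N = Y (ac h (ac (cel F n x1) a)) N :=
    hk3 y1 fun j hj => (cel_at hj x1 a).symm.trans (hy1 j hj)
  rw [← h2, ← h3]
  exact congrFun he N

end Pool.Agent.SX
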