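import Pool.Agent.Lib.SX.PDefs

/-!
# FlL: simple lemmas on `Fl`, `cp`, `Sy`, `Ul` (about 110 lines)

`U.mono` (OC), `U_congr` (Uni). `fl_of_ne`: if `a` computes `c` with index `e`, `b` computes `c'` with index `e'` and `c ≠ c'`, then for some `s` the pair fails
by `s` (take `n` with `c n ≠ c' n`, steps `t`, `t'`, `s = max (max t t') (n+1)`). `not_fl_of_eq`: if `c = c'` then it never fails (`U.unique`).
`isOpen_fl`: a union over `n, i, i'` of open sets (`isOpen_U` does not apply literally; the set `{x | U (v x) e n t i}` is open by `U_congr` and `unif_Ag` / continuity).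
-/

set_option autoImplicit false

namespace Pool.Agent.SX

open Pool.Agent.Mart

theorem Fl.mono {a b : Cs} {e e' s s' : ℕ} (h : Fl a b e e' s) (hs : s ≤ s') : Fl a b e e' s' := by
  obtain ⟨n, hn, i, hi, i', hi', hne, h1, h2⟩ := h
  exact ⟨n, lt_of_lt_of_le hn hs, i, hi, i', hi', hne, h1.mono hs, h2.mono hs⟩

theorem Fl.congr {a b a' b' : Cs} {e e' s : ℕ} (ha : Ag s a a') (hb : Ag s b b') (h : Fl a b e e' s) :
    Fl a' b' e e' s := by
  obtain ⟨n, hn, i, hi, i', hi', hne, h1, h2⟩ := h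
  exact ⟨n, hn, i, hi, i', hi', hne, (U_congr ha e n i).1 h1, (U_congr hb e' n i').1 h2⟩

private theorem toNat_lt_two (b : Bool) : b.toNat < 2 := by
  cases b <;> decide

theorem fl_of_ne {a b c c' : Cs} {e e' : ℕ} (h : Idx a e c) (h' : Idx b e' c') (hne : c ≠ c') :
    ∃ s, Fl a b e e' s := by
  obtain ⟨n, hn⟩ := Function.ne_iff.1 hne
  obtain ⟨t, ht⟩ := h n
  obtain ⟨t', ht'⟩ := h' n
  refine ⟨max (max t t') (n + 1), n, lt_of_lt_of_le (Nat.lt_succ_self n) (le_max_right _ _), (c n).toNat,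
    toNat_lt_two _, (c' n).toNat, toNat_lt_two _, ?_, ht.mono ((le_max_left _ _).trans (le_max_left _ _)),
    ht'.mono ((le_max_right _ _).trans (le_max_left _ _))⟩
  intro hc
  apply hn
  revert hc
  cases c n <;> cases c' n <;> decide

theorem not_fl_of_eq {a b c : Cs} {e e' : ℕ} (h : Idx a e c) (h' : Idx b e' c) (s : ℕ) : ¬ Fl a b e e' s := by
  rintro ⟨n, hn, i, hi, i', hi', hne, h1, h2⟩
  obtain ⟨t, ht⟩ := h n
  obtain ⟨t', ht'⟩ := h' n
  exact hne ((h1.unique ht).trans (h2.unique ht').symm)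

private theorem isOpen_Ag (n : ℕ) (x : Cs) : IsOpen {y : Cs | Ag n x y} := by
  have h3 : {y : Cs | Ag n x y} = ⋂ k ∈ Finset.range n, {y : Cs | x k = y k} := by
    ext y
    simp [Ag]
  rw [h3]
  refine isOpen_biInter_finset fun k _ => ?_
  exact (isOpen_discrete ({b | x k = b} : Set Bool)).preimage (continuous_apply k)

private theorem isOpen_Uc (e n t i : ℕ) : IsOpen {y : Cs | U y e n t i} := by
  rw [isOpen_iff_mem_nhds]
  intro x hx
  filter_upwards [(isOpen_Ag t x).mem_nhds (Ag.refl t x)] with y hy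
  exact (U_congr hy e n i).1 hx

variable {K : Type} {lab : K → Option ℕ} {src : K → K}

theorem isOpen_fl {v u : (K → Cs) → Cs} (hv : Continuous v) (hu : Continuous u) (e e' s : ℕ) :
    IsOpen {x : K → Cs | Fl (v x) (u x) e e' s} := by
  rw [isOpen_iff_mem_nhds]
  intro x hx
  obtain ⟨n, hn, i, hi, i', hi', hne, h1, h2⟩ := hx
  have h3 : {y : K → Cs | U (v y) e n s i} ∈ nhds x := ((isOpen_Uc e n s i).preimage hv).mem_nhds h1
  have h4 : {y : K → Cs | U (u y) e' n s i'} ∈ nhds x := ((isOpen_Uc e' n s i').preimage hu).mem_nhds h2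
  filter_upwards [h3, h4] with y hy hy'
  exact ⟨n, hn, i, hi, i', hi', hne, hy, hy'⟩

theorem Sy.one (m : ℕ) : Sy lab src m (1 : PM K) := fun _ _ _ _ => rfl

theorem Sy.mul {m : ℕ} {h k : PM K} (hh : Sy lab src m h) (hk : Sy lab src m k) : Sy lab src m (h * k) := by
  intro i l hi hl
  rw [PM.mul_c, PM.mul_c, hh i l hi hl, hk i l hi hl]

theorem Sy.mono {m m' : ℕ} {k : PM K} (h : Sy lab src m k) (hm : m ≤ m') : Sy lab src m' k :=
  fun i l hi hl => h i l hi (hm.trans hl)

theorem Ul.mono {m m' : ℕ} {i : K} (h : Ul lab src m i) (hm : m ≤ m') : Ul lab src m' i :=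
  fun i' l hi hl => h i' l hi (hm.trans hl)

private theorem cp_pos {m : ℕ} {i : K} (h : ∃ l, lab i = some l ∧ m ≤ l) (x : K → Cs) :
    cp lab src m x i = x (src i) := by
  unfold cp
  exact if_pos h

private theorem cp_neg {m : ℕ} {i : K} (h : ¬ ∃ l, lab i = some l ∧ m ≤ l) (x : K → Cs) :
    cp lab src m x i = x i := by
  unfold cp
  exact if_neg h

theorem cp_ac {m : ℕ} {k : PM K} (hk : Sy lab src m k) (x : K → Cs) :
    cp lab src m (ac k x) = ac k (cp lab src m x) := by
  funext i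
  by_cases h : ∃ l, lab i = some l ∧ m ≤ l
  · rw [cp_pos h, ac_apply, ac_apply, cp_pos h]
    obtain ⟨l, hl, hm⟩ := h
    rw [hk i l hl hm]
  · rw [cp_neg h, ac_apply, ac_apply, cp_neg h]

/-- `cp m x` agrees with `x` at unlocked coordinates -/
theorem cp_ul {m : ℕ} {i : K} (hi : Ul lab src m i) (x : K → Cs) : cp lab src m x i = x i := by
  apply cp_neg
  rintro ⟨l, hl, hm⟩
  exact (hi i l hl hm).1 rfl

theorem cp_cp (hs : ∀ i l, lab i = some l → lab (src i) = none) (m : ℕ) (x : K → Cs) :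
    cp lab src m (cp lab src m x) = cp lab src m x := by
  funext i
  by_cases h : ∃ l, lab i = some l ∧ m ≤ l
  · rw [cp_pos h, cp_pos h]
    obtain ⟨l, hl, hm⟩ := h
    apply cp_neg
    rintro ⟨l', hl', _⟩
    rw [hs i l hl] at hl'
    exact absurd hl' (by simp)
  · rw [cp_neg h]

theorem continuous_cp (m : ℕ) : Continuous (cp lab src m : (K → Cs) → K → Cs) := by
  refine continuous_pi fun i => ?_
  by_cases h : ∃ l, lab i = some l ∧ m ≤ l
  · have h1 : (fun x : K → Cs => cp lab src m x i) = fun x => x (src i) := funext fun x => cp_pos h x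
    rw [h1]
    exact continuous_apply _
  · have h1 : (fun x : K → Cs => cp lab src m x i) = fun x => x i := funext fun x => cp_neg h x
    rw [h1]
    exact continuous_apply _

/-- every coordinate is unlocked from some stage on -/
theorem exists_ul (hs : ∀ i l, lab i = some l → lab (src i) = none)
    (hi : ∀ i i' l l', lab i = some l → lab i' = some l' → src i = src i' → i = i') (i : K) :
    ∃ m, Ul lab src m i := by
  rcases hl : lab i with _ | l
  · by_cases h : ∃ i' l, lab i' = some l ∧ src i' = i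
    · obtain ⟨i₁, l₁, h1, h2⟩ := h
      refine ⟨l₁ + 1, fun i' l' h3 h4 => ⟨?_, ?_⟩⟩
      · rintro rfl
        rw [hl] at h3
        exact absurd h3 (by simp)
      · intro h5
        have h6 : i' = i₁ := hi i' i₁ l' l₁ h3 h1 (h5.trans h2.symm)
        rw [h6, h1, Option.some.injEq] at h3
        omega
    · refine ⟨0, fun i' l' h3 _ => ⟨?_, fun h5 => h ⟨i', l', h3, h5⟩⟩⟩
      rintro rfl
      rw [hl] at h3
      exact absurd h3 (by simp)
  · refine ⟨l + 1, fun i' l' h3 h4 => ⟨?_, ?_⟩⟩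
    · rintro rfl
      rw [hl, Option.some.injEq] at h3
      omega
    · rintro rfl
      rw [hs i' l' h3] at hl
      exact absurd hl (by simp)

end Pool.Agent.SX
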