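import Pool.Agent.Lib.SX.Lim
import Pool.Agent.Lib.SX.Cw

/-!
# Fus: the fusion lemma (about 120 lines)

Recursion on lists of conditions (the history). For `k : PM K` let `en k : ℕ → Option K` enumerate the (countable) support of `k` (all of it; `none` is
a dummy). For a list `l = [k_{n-1}, ..., k_0]` let `tot l = h * k_0 * ... * k_{n-1}` and `Fin l` = all `en k j` with `k ∈ l`, `j < l.length` (a finite set).
`cw (hd n) (ho n) (tot l) (Fin l) n` (n = l.length) gives `k_n` with `Pres (Fin l) n k_n` and `D n (tot l * k_n * cel (Fin l) n x)` for all `x`. Define the sequence of lists by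
`l_0 = []`, `l_{n+1} = k_n :: l_n`. `F n = Fin l_n` is increasing; every `i` in the support of some `k_n` is in some `F m`. `lim` gives `t`, and `k := t 0`:
`h * t 0 = tot l_n * t n` for all `n` (induction). For `n`: `F := F n`, `m := n`; `h * k * cel F n x = tot l_n * t n * cel F n x = tot l_n * k_n * t (n+1) * cel F n x`, and
`t (n+1)` preserves the first `n+1` values on `F (n+1) ⊇ F n`, so `t (n+1) * cel F n x = cel F n x * k''` (`Pres.mono`, `pres_cel`); now `D n` is open.
-/

set_option autoImplicit false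

namespace Pool.Agent.SX

variable {K : Type}

private theorem exists_en (k : PM K) : ∃ e : ℕ → Option K, ∀ i, k.1 i ≠ 1 → ∃ j, e j = some i := by
  have hc : {i : K | k.1 i ≠ 1}.Countable := k.2
  rcases Set.eq_empty_or_nonempty {i : K | k.1 i ≠ 1} with h | h
  · exact ⟨fun _ => none, fun i hi => absurd (show i ∈ {i : K | k.1 i ≠ 1} from hi) (by
      rw [h]; exact Set.notMem_empty i)⟩
  · obtain ⟨f, hf⟩ := hc.exists_eq_range h
    refine ⟨fun j => some (f j), fun i hi => ?_⟩
    have h1 : i ∈ Set.range f := by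
      rw [← hf]
      exact hi
    obtain ⟨j, hj⟩ := h1
    exact ⟨j, congrArg some hj⟩

private def tot (h : PM K) : List (PM K) → PM K
  | [] => h
  | k :: l => tot h l * k

private def hist (c : List (PM K) → PM K) : ℕ → List (PM K)
  | 0 => []
  | n + 1 => c (hist c n) :: hist c n

private theorem hist_length (c : List (PM K) → PM K) (n : ℕ) : (hist c n).length = n := by
  induction n with
  | zero => rfl
  | succ n ih => rw [hist, List.length_cons, ih]

private theorem hist_mem (c : List (PM K) → PM K) {n m : ℕ} (h : n < m) : c (hist c n) ∈ hist c m := by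
  induction m, h using Nat.le_induction with
  | base => rw [hist]; exact List.mem_cons_self
  | succ m _ ih => rw [hist]; exact List.mem_cons_of_mem _ ih

theorem fus (D : ℕ → PM K → Prop) (hd : ∀ n, Dn (D n)) (ho : ∀ n, Op (D n)) (h : PM K) :
    ∃ k : PM K, ∀ n, ∃ (F : Finset K) (m : ℕ), ∀ x, D n (h * k * cel F m x) := by
  classical
  choose en hen using fun k : PM K => exists_en k
  obtain ⟨G, hG⟩ : ∃ G : List (PM K) → Finset K, ∀ l i, i ∈ G l ↔
      ∃ k ∈ l, ∃ j < l.length, en k j = some i := by
    refine ⟨fun l => (l.flatMap fun k => (List.range l.length).filterMap (en k)).toFinset, ?_⟩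
    intro l i
    simp only [List.mem_toFinset, List.mem_flatMap, List.mem_filterMap, List.mem_range]
  have hcw : ∀ l : List (PM K), ∃ k, Pres (G l) l.length k ∧
      ∀ x, D l.length (tot h l * k * cel (G l) l.length x) := fun l =>
    cw (hd l.length) (ho l.length) (tot h l) (G l) l.length
  choose c hc1 hc2 using hcw
  have hFF : ∀ n, G (hist c n) ⊆ G (hist c (n + 1)) := by
    intro n i hi
    obtain ⟨k, hk, j, hj, hji⟩ := (hG _ _).1 hi
    refine (hG _ _).2 ⟨k, ?_, j, ?_, hji⟩
    · rw [hist]
      exact List.mem_cons_of_mem _ hk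
    · rw [hist_length] at hj ⊢
      exact hj.trans (Nat.lt_succ_self n)
  have hPr : ∀ n, Pres (G (hist c n)) n (c (hist c n)) := by
    intro n
    have h1 := hc1 (hist c n)
    rwa [hist_length] at h1
  have hDn : ∀ n x, D n (tot h (hist c n) * c (hist c n) * cel (G (hist c n)) n x) := by
    intro n x
    have h1 := hc2 (hist c n) x
    rwa [hist_length] at h1
  have hs : ∀ i, (∀ n, (c (hist c n)).1 i = 1) ∨ ∃ n, i ∈ G (hist c n) := by
    intro i
    by_cases hi : ∀ n, (c (hist c n)).1 i = 1
    · exact Or.inl hi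
    · push Not at hi
      obtain ⟨n, hn⟩ := hi
      obtain ⟨j, hj⟩ := hen _ i hn
      refine Or.inr ⟨max (n + 1) (j + 1), (hG _ _).2 ⟨_, hist_mem c
        (lt_of_lt_of_le (Nat.lt_succ_self n) (le_max_left _ _)), j, ?_, hj⟩⟩
      rw [hist_length]
      exact lt_of_lt_of_le (Nat.lt_succ_self j) (le_max_right _ _)
  obtain ⟨t, ht1, ht2, -⟩ := lim (fun n => c (hist c n)) (fun n => G (hist c n)) hFF hPr hs
  have htot : ∀ n, h * t 0 = tot h (hist c n) * t n := by
    intro n
    induction n with
    | zero => rfl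
    | succ n ih =>
      rw [ih, hist, tot, mul_assoc, ← ht1 n]
  refine ⟨t 0, fun n => ⟨G (hist c n), n, fun x => ?_⟩⟩
  obtain ⟨k'', hk''⟩ := pres_cel ((ht2 (n + 1)).mono (hFF n) (Nat.le_succ n)) x
  have h1 : h * t 0 * cel (G (hist c n)) n x =
      tot h (hist c n) * c (hist c n) * cel (G (hist c n)) n x * k'' := by
    rw [htot n, ht1 n, mul_assoc, mul_assoc (c (hist c n)), hk'', mul_assoc, mul_assoc]
  rw [h1]
  exact ho n _ _ (hDn n x)

/-- version below a condition: the sets need only be dense and open below `h` -/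
theorem fus_below (D : ℕ → PM K → Prop) (h : PM K) (hd : ∀ n k, ∃ k', D n (h * k * k'))
    (ho : ∀ n k k', D n (h * k) → D n (h * k * k')) :
    ∃ k : PM K, ∀ n, ∃ (F : Finset K) (m : ℕ), ∀ x, D n (h * k * cel F m x) := by
  obtain ⟨k, hk⟩ := fus (fun n k => D n (h * k)) (fun n k => by
    obtain ⟨k', hk'⟩ := hd n k
    exact ⟨k', by show D n (h * (k * k')); rw [← mul_assoc]; exact hk'⟩) (fun n k k' hkk => by
    show D n (h * (k * k'))
    rw [← mul_assoc]; exact ho n k k' hkk) 1
  refine ⟨k, fun n => ?_⟩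
  obtain ⟨F, m, hF⟩ := hk n
  refine ⟨F, m, fun x => ?_⟩
  have h1 := hF x
  rw [one_mul, ← mul_assoc] at h1
  exact h1

end Pool.Agent.SX
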