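import Pool.Agent.Lib.SX.PSup
import Pool.Agent.Lib.SX.Gsq
import Pool.Agent.Lib.SX.Cbar

/-!
# IndA: the setting of the independence argument (about 90 lines)

`psup` gives `T, g, R, ρ`. `cbar V (rt ρ R T) ρ γ0` (`γ0 = ρ 0`) gives `k1`, `C`. `gsq` with `G := Good V T g R ρ` and `Z0 := {i | k1.1 i ≠ 1} ∪ Set.range C` (countable) gives `J`. `un` with this `k1` (for `n ∉ R`, `J l n` is not in the support of `k1`) gives `h2 = rt ρ R T * k1 * m` and `h2 = tp (J l) T * m_l` with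
`m_l.1 (J l n) = k1.1 (J l n)`. `cv l x = g fun n => ac k1 x (J l n)`; `V0 h2 (rl h2 (J l 0)) (cv l)` by `Good.val` and `res0` with `m_l`. The last claim: `Dep V (h2 * k) ..` with `h2 * k = rt ρ R T * k1 * (m * k)`. `Apart` for the smaller set `Set.range C`.
-/

set_option autoImplicit false

namespace Pool.Agent.SX

open Cardinal

variable {K : Type}

theorem indA (hK : 𝔠 < #K) (V : Emb K) :
    ∃ (h2 : PM K) (J : ℕ → ℕ → K) (R : Set ℕ) (ρ : ℕ → K) (cv : ℕ → (K → Cs) → Cs) (C : ℕ → K), 0 ∉ R ∧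
      Apart R ρ (Set.range C) J ∧ (∀ l, V.V0 h2 (rl h2 (J l 0)) (cv l)) ∧
      (∀ l x x', (∀ n, x (J l n) = x' (J l n)) → cv l x = cv l x') ∧
      ∀ n k γ, Dep V (h2 * k) (ρ n) γ → ∃ k' i, Dep V (h2 * k * k') (ρ n) (C i) := by
  obtain ⟨T, g, R, ρ, hg, h0, hs⟩ := psup hK V
  obtain ⟨k1, C, hC⟩ := cbar V (rt ρ R T) ρ (ρ 0)
  have hcount : ({i | k1.1 i ≠ 1} ∪ Set.range C).Countable := (supp_countable k1).union (Set.countable_range C)
  obtain ⟨J, hJG, A⟩ := gsq (G := Good V T g R ρ) (fun j hj => hj.inj) (fun j hj => hj.root) hs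
    (hcount.le_aleph0.trans aleph0_le_continuum)
  obtain ⟨h2, ⟨m, hm⟩, hJ⟩ := un A T k1 (fun l n hn => by
    by_contra hne
    exact A.av l n hn (Or.inl hne))
  refine ⟨h2, J, R, ρ, fun l x => g fun n => ac k1 x (J l n), C, h0,
    ⟨A.inj, A.root, fun l n hn hmem => A.av l n hn (Or.inr hmem), A.avr, A.dis⟩, ?_, ?_, ?_⟩
  · intro l
    obtain ⟨ml, hml, hmk⟩ := hJ l
    have h1 := V.res0 (hJG l).val ml
    rw [← hml] at h1
    have e1 : rl (tp (J l) T) (J l 0) ∘ ac ml = rl h2 (J l 0) := by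
      rw [hml, rl_mul]
    have e2 : (fun x : K → Cs => g fun n => x (J l n)) ∘ ac ml = fun x => g fun n => ac k1 x (J l n) := by
      funext x
      show (g fun n => ac ml x (J l n)) = _
      congr 1
      funext n
      rw [ac_apply, ac_apply, hmk n]
    rw [e1, e2] at h1
    exact h1
  · intro l x x' hx
    show (g fun n => ac k1 x (J l n)) = g fun n => ac k1 x' (J l n)
    congr 1
    funext n
    rw [ac_apply, ac_apply, hx n]
  · intro n k γ hd
    have e : h2 * k = rt ρ R T * k1 * (m * k) := by rw [hm, mul_assoc]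
    rw [e] at hd ⊢
    exact hC n _ γ hd

end Pool.Agent.SX
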