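import Pool.Agent.Lib.SX.IndA
import Pool.Agent.Lib.SX.ClR
import Pool.Agent.Lib.SX.ClN
import Pool.Agent.Lib.SX.Fini
import Pool.Agent.Lib.SX.Cell

/-!
# IndB: the independence argument (about 170 lines)

From `indA`. `q = J 0 0`, `γ l b = J (2 * l + b.toNat + 1) 0` (injective in `(l, b)`: `A.dis`, `0 ∉ R`), `w x i = x (J 0 i.unpair.1) i.unpair.2` (continuous). `V.ex1 h2 (fun x l => rl h2 (γ l (w x l)) x)` (continuous: locally the index is constant; for fixed `l` it is `if w x l then rl h2 (γ l true) x else rl h2 (γ l false) x`, `w x l` is continuous into a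
discrete space) gives `ka, y`; then `V.ex1 (h2 * ka) (fun x n => rl (h2 * ka) (C n) x)` gives `kb, y1`. `h := h2 * ka * kb`, `k3 := ka * kb`, `z0 x l = rl h (γ l (w (ac k3 x) l)) x`, `y0 = y ∘ ac kb`, `z1 x n = rl h (C n) x`, `c = cv 0 ∘ ac k3`.
`Av h q z0`: given `k, n`, if equality held for all `x`, restrict to a cell on which `w (ac (k3 * k) x) n` is constant `= b` and use `rl_ne` (`q ≠ γ n b`); `Av h q z1`: `rl_ne`, `q ≠ C n` by `A.av 0 0`.
Last claim for `k, i` (suppose `Ind i (fun x => bjoin (y0 (ac k x)) (y1 (ac k x)))`, so `Ind i (y0 ∘ ac k)` and `Ind i (y1 ∘ ac k)`: `bjoin` is injective):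
* `i` is not in the range of `J 0`: `k' = 1` (second last part of `indA`).
* `i = J 0 n`, `n ∈ R`: `i = ρ n`; `clR` at the condition `h * k` with `c := c ∘ ac k`, `y := y1 ∘ ac k` (`res0`, `res1`), `hC` from the last part of `indA`.
* `i = J 0 n`, `n ∉ R`: `clN` at `h * k` with `w := w ∘ ac (k3 * k)` (injective in the coordinate `i` by injectivity of the maps), `cg l b := cv (2 * l + b.toNat + 1) ∘ ac (k3 * k)` (independent of `i`: `J (2l+b+1) n' ≠ J 0 n` by `A.dis`), `y := y0 ∘ ac k`: contradiction.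
-/

set_option autoImplicit false

namespace Pool.Agent.SX

open Cardinal Pool.Agent.Mart

variable {K : Type}

private theorem indb_join {A B A' B' : Cs} (h : bjoin A B = bjoin A' B') : A = A' ∧ B = B' := by
  constructor
  · funext n
    have h1 := congrFun h (2 * n)
    unfold bjoin at h1
    rw [if_pos (by omega), if_pos (by omega)] at h1
    have h2 : 2 * n / 2 = n := by omega
    rwa [h2] at h1
  · funext n
    have h1 := congrFun h (2 * n + 1)
    unfold bjoin at h1
    rw [if_neg (by omega), if_neg (by omega)] at h1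
    have h2 : (2 * n + 1) / 2 = n := by omega
    rwa [h2] at h1

private theorem indb_cont (h : PM K) {γ : ℕ → Bool → K} {w : (K → Cs) → Cs} (hw : Continuous w) :
    Continuous fun (x : K → Cs) (l : ℕ) => rl h (γ l (w x l)) x := by
  refine continuous_pi fun l => ?_
  rw [continuous_iff_continuousAt]
  intro x0
  have hwl : Continuous fun x : K → Cs => w x l := (continuous_apply l).comp hw
  have h1 : ∀ᶠ x in nhds x0, w x l = w x0 l :=
    (isOpen_discrete ({b : Bool | b = w x0 l} : Set Bool)).preimage hwl |>.mem_nhds rfl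
  have h2 : ContinuousAt (fun x : K → Cs => rl h (γ l (w x0 l)) x) x0 :=
    (continuous_rl h _).continuousAt
  refine h2.congr ?_
  filter_upwards [h1] with x hx
  rw [hx]

/-- a coordinate which is not in the sequence, with a choice depending on a real -/
private theorem indb_av (h : PM K) {q : K} {γ : ℕ → Bool → K} (hq : ∀ l b, q ≠ γ l b)
    {w : (K → Cs) → Cs} (hw : Continuous w) : Av h q fun x l => rl h (γ l (w x l)) x := by
  intro k n
  by_contra hcon
  push Not at hcon
  have hwn : Continuous fun x : K → Cs => w (ac k x) n :=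
    (continuous_apply n).comp (hw.comp (continuous_ac k))
  obtain ⟨F, N, hF⟩ := unif hwn
  let x0 : K → Cs := fun _ _ => false
  let s : PM K := cel F N x0
  have h1 : ∀ x, w (ac k (ac s x)) n = w (ac k x0) n := fun x =>
    (hF x0 (ac s x) fun i hi => cel_at hi x0 x).symm
  refine rl_ne (h * (k * s)) (hq n (w (ac k x0) n)) ((h * (k * s)).1 (γ n (w (ac k x0) n))) fun x => ?_
  have h2 := hcon (ac s x)
  rw [h1 x] at h2
  exact h2

theorem indB (hK : 𝔠 < #K) (V : Emb K) :
    ∃ (h : PM K) (q : K) (c y0 y1 : (K → Cs) → Cs) (z0 z1 : (K → Cs) → ℕ → Cs), V.V0 h (rl h q) c ∧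
      V.V1 h z0 y0 ∧ V.V1 h z1 y1 ∧ Av h q z0 ∧ Av h q z1 ∧ Continuous z0 ∧ Continuous z1 ∧
      ∀ (k : PM K) (i : K), Ind i ((fun x => bjoin (y0 x) (y1 x)) ∘ ac k) → ∃ k', Ind i (c ∘ ac (k * k')) := by
  classical
  obtain ⟨h2, J, R, ρ, cv, C, hR0, A, hcv, hcvd, hdep⟩ := indA hK V
  let γ : ℕ → Bool → K := fun l b => J (2 * l + b.toNat + 1) 0
  have hγ : ∀ l b l' b', γ l b = γ l' b' → l = l' ∧ b = b' := by
    intro l b l' b' he
    have h1 : 2 * l + b.toNat + 1 = 2 * l' + b'.toNat + 1 := by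
      by_contra hne
      exact A.dis _ _ 0 0 hR0 hne he
    cases b <;> cases b' <;> simp at h1 ⊢ <;> omega
  have hqγ : ∀ l b, J 0 0 ≠ γ l b := fun l b => A.dis 0 _ 0 0 hR0 (by omega)
  let w : (K → Cs) → Cs := fun x i => x (J 0 i.unpair.1) i.unpair.2
  have hw : Continuous w := continuous_pi fun i => (continuous_apply _).comp (continuous_apply _)
  obtain ⟨ka, y, hy⟩ := V.ex1 h2 (fun x l => rl h2 (γ l (w x l)) x) (indb_cont h2 hw)
  obtain ⟨kb, y1, hy1⟩ := V.ex1 (h2 * ka) (fun x n => rl (h2 * ka) (C n) x)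
    (continuous_pi fun n => continuous_rl _ _)
  have hw3 : Continuous (w ∘ ac (ka * kb)) := hw.comp (continuous_ac _)
  refine ⟨h2 * ka * kb, J 0 0, cv 0 ∘ ac (ka * kb), y ∘ ac kb, y1,
    fun x l => rl (h2 * ka * kb) (γ l ((w ∘ ac (ka * kb)) x l)) x,
    fun x n => rl (h2 * ka * kb) (C n) x, ?_, ?_, ?_, ?_, ?_, ?_, ?_, ?_⟩
  · exact V.res0 (V.res0 (hcv 0) ka) kb
  · exact V.res1 hy kb
  · exact hy1
  · exact indb_av _ hqγ hw3
  · intro k n
    by_contra hcon
    push Not at hcon
    have hne : J 0 0 ≠ C n := fun he => A.av 0 0 hR0 ⟨n, he.symm⟩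
    exact rl_ne (h2 * ka * kb * k) hne ((h2 * ka * kb * k).1 (C n)) hcon
  · exact indb_cont _ hw3
  · exact continuous_pi fun n => continuous_rl _ _
  · intro k i hI
    have hI0 : Ind i ((y ∘ ac kb) ∘ ac k) := fun x x' hxx => (indb_join (hI x x' hxx)).1
    have hI1 : Ind i (y1 ∘ ac k) := fun x x' hxx => (indb_join (hI x x' hxx)).2
    have hacj : ∀ (k' : PM K) (x x' : K → Cs) (j : K), x j = x' j → ac k' x j = ac k' x' j :=
      fun k' x x' j hj => by rw [ac_apply, ac_apply, hj]
    by_cases hi : ∃ n, J 0 n = i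
    · obtain ⟨n, rfl⟩ := hi
      by_cases hn : n ∈ R
      · -- a root coordinate
        have hroot : J 0 n = ρ n := A.root 0 n hn
        obtain ⟨k', hk'⟩ := clR V (h := h2 * ka * kb * k) (i := J 0 n) (q := J 0 0) (C := C)
          (c := (cv 0 ∘ ac (ka * kb)) ∘ ac k) (y := y1 ∘ ac k)
          (V.res0 (V.res0 (V.res0 (hcv 0) ka) kb) k) (V.res1 hy1 k) (fun k' g hd => by
            have e : ∀ m : PM K, h2 * ka * kb * k * m = h2 * (ka * kb * k * m) := fun m => by
              simp only [mul_assoc]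
            rw [e, hroot] at hd
            obtain ⟨k'', m, hm⟩ := hdep n _ _ hd
            refine ⟨k'', m, ?_⟩
            rw [e, hroot]
            exact hm) hI1
        exact ⟨k', hk'⟩
      · -- a new coordinate
        exfalso
        refine clN V (h := h2 * ka * kb * k) (i := J 0 n) hγ (w := (w ∘ ac (ka * kb)) ∘ ac k)
          (hw3.comp (continuous_ac k)) (fun x x' hxx hne he => ?_)
          (cg := fun l b => ((cv (2 * l + b.toNat + 1) ∘ ac ka) ∘ ac kb) ∘ ac k)
          (fun l b => V.res0 (V.res0 (V.res0 (hcv _) ka) kb) k) (fun l b x x' hxx => ?_)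
          (y := (y ∘ ac kb) ∘ ac k) (V.res1 (V.res1 hy kb) k) hI0
        · apply hne
          have h5 : ac (ka * kb) (ac k x) (J 0 n) = ac (ka * kb) (ac k x') (J 0 n) := by
            funext m
            have h6 := congrFun he (Nat.pair n m)
            have h7 : ∀ x : K → Cs, ((w ∘ ac (ka * kb)) ∘ ac k) x (Nat.pair n m) =
                ac (ka * kb) (ac k x) (J 0 n) m := by
              intro x
              change ac (ka * kb) (ac k x) (J 0 (Nat.pair n m).unpair.1) (Nat.pair n m).unpair.2 = _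
              rw [Nat.unpair_pair]
            rw [h7, h7] at h6
            exact h6
          have h8 : ac (ka * kb * k) x (J 0 n) = ac (ka * kb * k) x' (J 0 n) := h5
          exact ((ka * kb * k).1 (J 0 n)).inj h8
        · refine hcvd _ _ _ fun m => ?_
          refine hacj ka _ _ _ (hacj kb _ _ _ (hacj k _ _ _ (hxx _ fun he => ?_)))
          exact A.dis 0 (2 * l + b.toNat + 1) n m hn (by omega) he.symm
    · -- a coordinate off the support
      refine ⟨1, fun x x' hxx => ?_⟩
      refine hcvd 0 _ _ fun n => ?_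
      exact hacj (ka * kb) _ _ _ (hacj (k * 1) _ _ _ (hxx _ fun he => hi ⟨n, he⟩))

end Pool.Agent.SX
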