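import Pool.Agent.Lib.SX.Uni
import Pool.Agent.Lib.SX.SDefs

/-!
# IxF: continuous index functions (about 110 lines)

For `l` let `D l k` := `∃ e, ∀ x, Idx (v (ac k x)) e (c l (ac k x))`. Open: clear. Dense: given `k`; `V.le01` for `V0 (h * k) ..` and `V1 (h * k) ..` (`res0`, `res1`) gives `k'` with `TR (c l (ac (k * k') x)) (v (ac (k * k') x))` for all `x`; `uni` gives `k''`, `e`. `fus` (with `h = 1`) gives `k`
such that for every `l` there are `F, m` with `D l (k * cel F m x)` for all `x`. Choose for every `l` and `x` an index `e l x` depending only on the cell: e.g. by `exists_reps`-style representatives or directly: let `e l x` be the LEAST `e` such that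
`∀ z, Idx (v (ac (k * cel F m x) z)) e (c l (ac (k * cel F m x) z))`; by `cel_congr` it depends only on `x` below `m` on `F`, so it is continuous (locally constant, `isOpen_box`). `x` is in its own cell (`mem_cel`).
-/

set_option autoImplicit false

namespace Pool.Agent.SX

open Pool.Agent.Mart

variable {K : Type}

theorem ixf (V : Emb K) {h : PM K} {z : (K → Cs) → ℕ → Cs} {v : (K → Cs) → Cs} {c : ℕ → (K → Cs) → Cs}
    (hv : V.V1 h z v) (hc : ∀ l, V.V0 h (fun x => z x l) (c l)) :
    ∃ (k : PM K) (e : ℕ → (K → Cs) → ℕ), (∀ l, Continuous (e l)) ∧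
      ∀ l x, Idx (v (ac k x)) (e l x) (c l (ac k x)) := by
  classical
  have hd : ∀ l, Dn fun k : PM K => ∃ e, ∀ x, Idx (v (ac k x)) e (c l (ac k x)) := by
    intro l k
    obtain ⟨k', hk'⟩ := V.le01 (V.res0 (hc l) k) (V.res1 hv k) ⟨l, fun x => rfl⟩
    have hb : Continuous fun x : K → Cs => c l (ac k (ac k' x)) :=
      (V.cont0 (hc l)).comp ((continuous_ac k).comp (continuous_ac k'))
    have hb' : Continuous fun x : K → Cs => v (ac k (ac k' x)) :=
      (V.cont1 hv).comp ((continuous_ac k).comp (continuous_ac k'))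
    obtain ⟨k'', e, he⟩ := uni hb hb' hk'
    exact ⟨k' * k'', e, fun x => he x⟩
  have ho : ∀ l, Op fun k : PM K => ∃ e, ∀ x, Idx (v (ac k x)) e (c l (ac k x)) := by
    rintro l k k' ⟨e, he⟩
    exact ⟨e, fun x => he (ac k' x)⟩
  obtain ⟨k, hk⟩ := fus (fun l (k : PM K) => ∃ e, ∀ x, Idx (v (ac k x)) e (c l (ac k x))) hd ho 1
  choose F m hFm using hk
  have hex : ∀ l x, ∃ e, ∀ y, Idx (v (ac (k * cel (F l) (m l) x) y)) e
      (c l (ac (k * cel (F l) (m l) x) y)) := by
    intro l x
    have h1 := hFm l x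
    rw [one_mul] at h1
    exact h1
  refine ⟨k, fun l x => Nat.find (hex l x), fun l => ?_, fun l x => ?_⟩
  · rw [continuous_discrete_rng]
    intro b
    rw [isOpen_iff_mem_nhds]
    intro x hx
    filter_upwards [(isOpen_box (F l) (m l) x).mem_nhds fun i _ => Ag.refl _ _] with y hy
    have h1 : cel (F l) (m l) x = cel (F l) (m l) y := cel_congr hy
    have h2 : Nat.find (hex l x) = Nat.find (hex l y) := by
      congr 1
      funext e
      rw [h1]
    show Nat.find (hex l y) = b
    rw [← h2]
    exact hx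
  · obtain ⟨y, hy⟩ : ∃ y, ac (cel (F l) (m l) x) y = x := mem_cel.2 fun i _ => Ag.refl _ _
    have h1 := Nat.find_spec (hex l x) y
    rw [ac_mul, hy] at h1
    exact h1

end Pool.Agent.SX
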