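import Pool.Agent.Lib.SX.LDefs
import Pool.Agent.Lib.SX.TpL
import Pool.Agent.Lib.SX.Gsq
import Pool.Agent.Lib.SX.InjX
import Pool.Agent.Lib.SX.IxF
import Pool.Agent.Lib.SX.Fini

/-!
# LSuA: one level 1 object (about 170 lines)

`gsq` (with `G := Good V T0 g R0 ρ0`, `Z0 := Z`) gives `J` with `Apart R0 ρ0 Z J`, all `J l` good. `un` with `k1 := 1` gives `h2` with `h2 = tp (J l) T0 * m_l`, `m_l = 1` on the range of `J l`. So by `res0`: `V0 h2 (rl h2 (J l 0)) (fun x => g fun n => x (J l n))` for all `l`.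
`V.ex1 h2 (fun x l => rl h2 (J l 0) x)` (continuous: `continuous_pi`, `continuous_rl`) gives `k0, v0`; `res0` to `h2 * k0`; `ixf` gives `k', e0` (continuous). Put `k = k0 * k'`, `h3 = h2 * k`, `v x = v0 (ac k' x)`: `V1 h3 (fun x l => rl h3 (J l 0) x) v`,
`V0 h3 (rl h3 (J l 0)) (fun x => g fun n => ac k x (J l n))`, `Idx (v x) (e0 l x) (g fun n => ac k x (J l n))`. Countable set of coordinates: the ranges of the `J l`, the supports of `h3` and `k`, dependence of `v` (`dep`) and of all `e0 l` (`dep_nat`). `exists_enum` gives `j`; choose `pos l n` with `j (pos l n) = J l n`.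
`T n = h3.1 (j n)`, `Tk n = k.1 (j n)`; `read` gives `v', e'`. `tp j T = h3`. Every `y : ℕ → Cs` is of the form `fun n => x (j n)` (`j` injective), so `idx` holds for all `y`. `new`, `root`, `dis` from `Apart` (`j (pos l n) = J l n`).
-/

set_option autoImplicit false

namespace Pool.Agent.SX

open Cardinal

variable {K : Type}

theorem lsuA (hK : 𝔠 < #K) (V : Emb K) {T0 : ℕ → SM} {g : (ℕ → Cs) → Cs} {R0 : Set ℕ} {ρ0 : ℕ → K} (hg : Continuous g)
    (hs : ∀ Z0 : Set K, #Z0 ≤ 𝔠 → ∃ j, Good V T0 g R0 ρ0 j ∧ ∀ n, n ∉ R0 → j n ∉ Z0) {Z : Set K} (hZ : #Z ≤ 𝔠) :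
    ∃ (t : LTy) (j : ℕ → K), LObj V g R0 ρ0 Z t j := by
  have _hg := hg
  obtain ⟨J, hJ, A⟩ := gsq (G := Good V T0 g R0 ρ0) (fun j h => h.inj) (fun j h => h.root) hs hZ
  obtain ⟨h2, -, hm⟩ := un A T0 1 (fun l n _ => rfl)
  have h0 : ∀ l, V.V0 h2 (rl h2 (J l 0)) (fun x => g fun n => x (J l n)) := by
    intro l
    obtain ⟨m, e1, e2⟩ := hm l
    have h1 := V.res0 (hJ l).val m
    have h3 : (fun x : K → Cs => g fun n => x (J l n)) ∘ ac m = fun x => g fun n => x (J l n) := by
      funext x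
      show g (fun n => (m.1 (J l n)).f (x (J l n))) = g fun n => x (J l n)
      congr 1
      funext n
      rw [e2 n]
      rfl
    rw [h3, ← rl_mul, ← e1] at h1
    exact h1
  obtain ⟨k0, v0, hv0⟩ := V.ex1 h2 (fun x l => rl h2 (J l 0) x) (continuous_pi fun l => continuous_rl h2 (J l 0))
  obtain ⟨k', e0, he0, hidx⟩ := ixf V (c := fun l x => g fun n => ac k0 x (J l n)) hv0
    (fun l => V.res0 (h0 l) k0)
  have hv0c := V.cont1 hv0
  have hassoc : h2 * k0 * k' = h2 * (k0 * k') := mul_assoc _ _ _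
  have hV1 : V.V1 (h2 * (k0 * k')) (fun x l => rl (h2 * (k0 * k')) (J l 0) x) (v0 ∘ ac k') := by
    have h1 := V.res1 hv0 k'
    rw [hassoc] at h1
    exact h1
  have hV0 : ∀ l, V.V0 (h2 * (k0 * k')) (rl (h2 * (k0 * k')) (J l 0))
      (fun x => g fun n => ac (k0 * k') x (J l n)) := fun l => V.res0 (h0 l) (k0 * k')
  have hvc : Continuous (v0 ∘ ac k') := hv0c.comp (continuous_ac k')
  obtain ⟨Iv, hIv, hdv⟩ := dep hvc
  choose Ie hIe hde using fun l => dep_nat (he0 l)
  have hI : ((⋃ l, Set.range (J l)) ∪ {i | (h2 * (k0 * k')).1 i ≠ 1} ∪ Iv ∪ ⋃ l, Ie l).Countable :=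
    (((Set.countable_iUnion fun l => Set.countable_range (J l)).union (supp_countable _)).union hIv).union
      (Set.countable_iUnion hIe)
  obtain ⟨j, hj, -, hjI⟩ := exists_enum hK hI (J 0 0)
  have hp : ∀ l n, ∃ m, j m = J l n := fun l n =>
    hjI _ (Or.inl (Or.inl (Or.inl (Set.mem_iUnion.2 ⟨l, n, rfl⟩))))
  choose pos hpos using hp
  obtain ⟨v', hv', hvv⟩ := read hvc hj (fun x y hxy => hdv x y fun i hi => by
    obtain ⟨n, rfl⟩ := hjI i (Or.inl (Or.inr hi))
    exact hxy n)
  have hee : ∀ l, ∃ φ' : (ℕ → Cs) → ℕ, Continuous φ' ∧ ∀ x, e0 l x = φ' fun n => x (j n) := fun l =>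
    read (he0 l) hj (fun x y hxy => hde l x y fun i hi => by
      obtain ⟨n, rfl⟩ := hjI i (Or.inr (Set.mem_iUnion.2 ⟨l, hi⟩))
      exact hxy n)
  choose e' he' hee' using hee
  have htp : tp j (fun n => (h2 * (k0 * k')).1 (j n)) = h2 * (k0 * k') := by
    apply Subtype.ext
    funext i
    by_cases h : ∃ n, j n = i
    · obtain ⟨n, rfl⟩ := h
      exact tp_at hj _ n
    · have h1 : ∀ n, j n ≠ i := fun n hn => h ⟨n, hn⟩
      rw [tp_off _ h1]
      by_contra h2
      exact h (hjI i (Or.inl (Or.inl (Or.inr fun h3 => h2 h3.symm))))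
  refine ⟨(fun n => (h2 * (k0 * k')).1 (j n), fun n => (k0 * k').1 (j n), ⟨v', hv'⟩, fun l => ⟨e' l, he' l⟩, pos),
    j, ⟨hj, ?_, ?_, ?_, ?_, ?_, ?_⟩⟩
  · intro l
    show V.V0 (tp j (fun n => (h2 * (k0 * k')).1 (j n)))
      (rl (tp j (fun n => (h2 * (k0 * k')).1 (j n))) (j (pos l 0)))
      (fun x => g fun n => ((k0 * k').1 (j (pos l n))).f (x (j (pos l n))))
    rw [htp]
    have h1 := hV0 l
    have h3 : (fun x : K → Cs => g fun n => ((k0 * k').1 (j (pos l n))).f (x (j (pos l n)))) =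
        fun x => g fun n => ac (k0 * k') x (J l n) := by
      funext x
      congr 1
      funext n
      rw [hpos l n]
      rfl
    rw [h3, hpos l 0]
    exact h1
  · show V.V1 (tp j (fun n => (h2 * (k0 * k')).1 (j n)))
      (fun x l => rl (tp j (fun n => (h2 * (k0 * k')).1 (j n))) (j (pos l 0)) x) (fun x => v' fun n => x (j n))
    rw [htp]
    have h3 : (fun (x : K → Cs) l => rl (h2 * (k0 * k')) (j (pos l 0)) x) =
        fun x l => rl (h2 * (k0 * k')) (J l 0) x := by
      funext x l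
      rw [hpos l 0]
    have h4 : (fun x : K → Cs => v' fun n => x (j n)) = v0 ∘ ac k' := funext fun x => (hvv x).symm
    rw [h3, h4]
    exact hV1
  · intro l y
    show Pool.Agent.Mart.Idx (v' y) (e' l y) (g fun n => ((k0 * k').1 (j (pos l n))).f (y (pos l n)))
    have hy : (fun n => Function.extend j y (fun _ _ => false) (j n)) = y :=
      funext fun n => hj.extend_apply y _ n
    have h1 := hidx l (Function.extend j y (fun _ _ => false))
    have h3 : v0 (ac k' (Function.extend j y (fun _ _ => false))) = v' y := by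
      have h4 := hvv (Function.extend j y (fun _ _ => false))
      rw [hy] at h4
      exact h4
    have h5 : e0 l (Function.extend j y (fun _ _ => false)) = e' l y := by
      have h4 := hee' l (Function.extend j y (fun _ _ => false))
      rw [hy] at h4
      exact h4
    have h6 : (g fun n => ac k0 (ac k' (Function.extend j y (fun _ _ => false))) (J l n)) =
        g fun n => ((k0 * k').1 (j (pos l n))).f (y (pos l n)) := by
      congr 1
      funext n
      have h7 : y (pos l n) = Function.extend j y (fun _ _ => false) (J l n) := by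
        rw [← hpos l n]
        exact (hj.extend_apply y _ _).symm
      rw [hpos l n, h7]
      rfl
    rw [← h3, ← h5, ← h6]
    exact h1
  · intro l n hn
    show j (pos l n) ∉ Z
    rw [hpos l n]
    exact A.av l n hn
  · intro l n hn
    show j (pos l n) = ρ0 n
    rw [hpos l n]
    exact A.root l n hn
  · intro l l' n n' hn hl h
    have h' : pos l n = pos l' n' := h
    apply A.dis l l' n n' hn hl
    rw [← hpos l n, ← hpos l' n', h']

end Pool.Agent.SX
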