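import Pool.Agent.Lib.SX.FlL

/-!
# Len: prolongation along a symmetric point (about 80 lines)

`open_nbhd` gives `J` finite and `L` (replace `L` by `max L n`): every `y` with `Ag L (z i) (y i)` for `i ∈ J` is in `O`. Define `k` (all of `K` is countable, so there is no
condition on the support): for `i ∉ F`: `k_i = pfxM L (z i)`; for `i ∈ F`: `k_i y = pfx L (z i) (fun j => y (j + n))` if `Ag n (z i) y`, and `k_i y = y` otherwise (this is in `SM`: `L ≥ n`).
`Pres F n k` is clear; `Sy m k`: a target `i` with label `≥ m` and its source are not in `F`, and `z (src i) = z i` since `cp m z = z`.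
`sym_len` is the version needed: from a point `x` of a cell such that `cp m x` is in `O`; then `z = cp m x` is in the same cell (`cp_ul`).
-/

set_option autoImplicit false

namespace Pool.Agent.SX

variable {K : Type} [Countable K] {lab : K → Option ℕ} {src : K → K}

private theorem len_pfx (L : ℕ) (z y : Cs) : Ag L z (pfx L z y) := by
  intro k hk
  unfold pfx
  rw [if_pos hk]

open Classical in
/-- prolong `z` inside the cell of `z` -/
private noncomputable def len_G {n L : ℕ} (hL : n ≤ L) (z : Cs) : SM where
  f y := if Ag n z y then pfx L z (fun j => y (j + n)) else y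
  lip m x y hxy := by
    show Ag m (if Ag n z x then pfx L z (fun j => x (j + n)) else x)
      (if Ag n z y then pfx L z (fun j => y (j + n)) else y)
    by_cases hx : Ag n z x
    · by_cases hy : Ag n z y
      · rw [if_pos hx, if_pos hy]
        intro k hk
        unfold pfx
        split_ifs with h1
        · rfl
        · exact hxy _ (by omega)
      · rw [if_pos hx, if_neg hy]
        intro k hk
        have hkn : k < n := by
          by_contra hc
          exact hy fun j hj => (hx j hj).trans (hxy j (by omega))
        rw [← len_pfx L z _ k (by omega), hx k hkn, hxy k hk]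
    · by_cases hy : Ag n z y
      · rw [if_neg hx, if_pos hy]
        intro k hk
        have hkn : k < n := by
          by_contra hc
          exact hx fun j hj => (hy j hj).trans (hxy j (by omega)).symm
        rw [← len_pfx L z _ k (by omega), hy k hkn, hxy k hk]
      · rw [if_neg hx, if_neg hy]
        exact hxy
  inj := by
    intro x y hxy
    change (if Ag n z x then pfx L z (fun j => x (j + n)) else x) =
      (if Ag n z y then pfx L z (fun j => y (j + n)) else y) at hxy
    by_cases hx : Ag n z x
    · by_cases hy : Ag n z y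
      · rw [if_pos hx, if_pos hy] at hxy
        funext k
        by_cases hk : k < n
        · rw [← hx k hk, ← hy k hk]
        · have h1 := congrFun hxy (k - n + L)
          unfold pfx at h1
          rw [if_neg (by omega), if_neg (by omega)] at h1
          have e : k - n + L - L + n = k := by omega
          simp only [e] at h1
          exact h1
      · rw [if_pos hx, if_neg hy] at hxy
        exact absurd (fun k hk => by rw [← hxy]; exact len_pfx L z _ k (by omega)) hy
    · by_cases hy : Ag n z y
      · rw [if_neg hx, if_pos hy] at hxy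
        exact absurd (fun k hk => by rw [hxy]; exact len_pfx L z _ k (by omega)) hx
      · rw [if_neg hx, if_neg hy] at hxy
        exact hxy

private theorem len_G_pos {n L : ℕ} (hL : n ≤ L) {z y : Cs} (h : Ag n z y) :
    (len_G hL z).f y = pfx L z (fun j => y (j + n)) := if_pos h

private theorem len_G_neg {n L : ℕ} (hL : n ≤ L) {z y : Cs} (h : ¬ Ag n z y) :
    (len_G hL z).f y = y := if_neg h

theorem len {O : Set (K → Cs)} (hO : IsOpen O) {z : K → Cs} (hz : z ∈ O) {m : ℕ} (hc : cp lab src m z = z)
    {F : Finset K} (hF : ∀ i ∈ F, Ul lab src m i) (n : ℕ) :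
    ∃ k : PM K, Pres F n k ∧ Sy lab src m k ∧ ∀ y, (∀ i ∈ F, Ag n (z i) (y i)) → ac k y ∈ O := by
  classical
  obtain ⟨J, L0, hJ⟩ := open_nbhd hO hz
  have hL : n ≤ max L0 n := le_max_right _ _
  have hL0 : L0 ≤ max L0 n := le_max_left _ _
  refine ⟨⟨fun i => if i ∈ F then len_G hL (z i) else pfxM (max L0 n) (z i), Set.to_countable _⟩,
    ?_, ?_, ?_⟩
  · intro i hi x
    show Ag n ((if i ∈ F then len_G hL (z i) else pfxM (max L0 n) (z i)).f x) x
    rw [if_pos hi]
    by_cases h : Ag n (z i) x
    · rw [len_G_pos hL h]
      intro k hk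
      rw [← len_pfx _ (z i) _ k (by omega), h k hk]
    · rw [len_G_neg hL h]
      exact fun _ _ => rfl
  · intro i l hl hml
    have h1 : i ∉ F := fun h => (hF i h i l hl hml).1 rfl
    have h2 : src i ∉ F := fun h => (hF (src i) h i l hl hml).2 rfl
    show (if src i ∈ F then len_G hL (z (src i)) else pfxM (max L0 n) (z (src i))) =
      (if i ∈ F then len_G hL (z i) else pfxM (max L0 n) (z i))
    rw [if_neg h1, if_neg h2]
    have h3 : cp lab src m z i = z (src i) := if_pos ⟨l, hl, hml⟩
    rw [hc] at h3
    rw [h3]
  · intro y hy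
    refine hJ _ fun i hi => ?_
    show Ag L0 (z i) ((if i ∈ F then len_G hL (z i) else pfxM (max L0 n) (z i)).f (y i))
    by_cases h : i ∈ F
    · rw [if_pos h, len_G_pos hL (hy i h)]
      exact fun k hk => len_pfx _ (z i) _ k (lt_of_lt_of_le hk hL0)
    · rw [if_neg h]
      exact fun k hk => len_pfx _ (z i) _ k (lt_of_lt_of_le hk hL0)

theorem sym_len (hs : ∀ i l, lab i = some l → lab (src i) = none) {O : Set (K → Cs)} (hO : IsOpen O)
    {x : K → Cs} {m : ℕ} (hz : cp lab src m x ∈ O) {F : Finset K} (hF : ∀ i ∈ F, Ul lab src m i) (n : ℕ) :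
    ∃ k : PM K, Pres F n k ∧ Sy lab src m k ∧ ∀ y, (∀ i ∈ F, Ag n (x i) (y i)) → ac k y ∈ O := by
  obtain ⟨k, h1, h2, h3⟩ := len hO hz (cp_cp hs m x) hF n
  refine ⟨k, h1, h2, fun y hy => h3 y fun i hi => ?_⟩
  rw [cp_ul (hF i hi)]
  exact hy i hi

end Pool.Agent.SX
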