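import Pool.Agent.Lib.SX.Defs
import Pool.Agent.Lib.BVM.ZFCDef
import Pool.Agent.Lib.PolB.Mdl

/-!
# MDefs: the order on the reals, Boolean values, and the statement for a structure `(M, E)`
-/

set_option autoImplicit false
universe u

namespace Pool.Agent.SX

open Pool.Agent.Mart
open scoped symmDiff

/-! ### codes of the elements of the order by reals -/

/-- code of an element of level 0: `0 x` -/
def code0 (x : Cs) : Cs := fun k => Nat.casesOn k false x

/-- code of an element of level 1: `1 0 z` -/
def code1 (z : ℕ → Cs) : Cs := fun k => Nat.casesOn k true fun k => Nat.casesOn k false fun k =>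
  z k.unpair.1 k.unpair.2

/-- code of an element of level 2: `1 1 t` -/
def code2 (t : ℕ → ℕ → Cs) : Cs := fun k => Nat.casesOn k true fun k => Nat.casesOn k true fun k =>
  t k.unpair.1.unpair.1 k.unpair.1.unpair.2 k.unpair.2

/-! ### Boolean values; a real is a sequence `ℕ → B` -/

section
variable {B : Type u} [CompleteBooleanAlgebra B]

/-- the value of `u = v` -/
def eqv (u v : ℕ → B) : B := ⨅ k, (u k ⇔ v k)

/-- the `n`-th member (level 0) of the level 1 element `v` -/
def rd0 (v : ℕ → B) (n : ℕ) : ℕ → B := fun k => Nat.casesOn k ⊥ fun k => v (Nat.pair n k + 2)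

/-- the `n`-th member (level 1) of the level 2 element `v` -/
def rd1 (v : ℕ → B) (n : ℕ) : ℕ → B := fun k => Nat.casesOn k ⊤ fun k => Nat.casesOn k ⊥ fun k =>
  v (Nat.pair (Nat.pair n k.unpair.1) k.unpair.2 + 2)

/-- the `m`-th member of the `n`-th member of the level 2 element `v` -/
def rd2 (v : ℕ → B) (n m : ℕ) : ℕ → B := fun k => Nat.casesOn k ⊥ fun k =>
  v (Nat.pair (Nat.pair n m) k + 2)

/-- the value of `u ≤ v` in the order: `u = v`, or `v` has level 1 and `u` is one of its members, or `v`
has level 2 and `u` is one of its members or one of the members of its members -/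
def leB (u v : ℕ → B) : B :=
  eqv u v ⊔ (v 0 ⊓ (v 1)ᶜ ⊓ ⨆ n, eqv u (rd0 v n)) ⊔
    (v 0 ⊓ v 1 ⊓ ((⨆ n, eqv u (rd1 v n)) ⊔ ⨆ n, ⨆ m, eqv u (rd2 v n m)))

/-- the value of `a = i` -/
def lit (a : B) (i : Bool) : B := if i then a else aᶜ

/-- the value of: the program `e` with oracle `b` computes `a` -/
def trE (e : ℕ) (a b : ℕ → B) : B :=
  ⨅ n, ⨆ t, ⨆ y : {y : Cs × Bool // U y.1 e n t y.2.toNat}, (⨅ k : Fin t, lit (b k) (y.1.1 k)) ⊓ lit (a n) y.1.2

/-- the value of: `a` is Turing reducible to `b` -/
def trB (a b : ℕ → B) : B := ⨆ e, trE e a b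

/-- `F` maps equal reals to equal reals -/
def ExtF (F : (ℕ → B) → ℕ → B) : Prop := ∀ u u' n, eqv u u' ⊓ F u n ≤ F u' n

/-- the value of: `F` is an embedding of the order into the Turing degrees -/
def embB (F : (ℕ → B) → ℕ → B) : B := ⨅ u, ⨅ v, (leB u v ⇔ trB (F u) (F v))

end

/-! ### the statement for a structure `(M, E)`; `E x y` is read as `x ∈ y` -/

section
open Pool.Agent.PolB
variable {M : Type*} (E : M → M → Prop)

/-- `x` is the natural number `n` -/
def IsNum : ℕ → M → Prop
  | 0, x => ∀ z, ¬ E z x
  | n + 1, x => ∃ y, IsNum n y ∧ ∀ z, E z x ↔ E z y ∨ z = y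

/-- `w` is the set of all natural numbers, and all of them are standard -/
def IsStdOmega (w : M) : Prop := ∀ x, E x w ↔ ∃ n, IsNum E n x

/-- the set of all natural numbers `n` with `(x, n) ∈ F` -/
def Row (F x : M) : Set ℕ := {n | ∃ k, IsNum E n k ∧ PairIn E F x k}

/-- `R` is a partial order on the set `P` -/
def IsPO (P R : M) : Prop :=
  (∀ x, E x P → PairIn E R x x) ∧
  (∀ x y, E x P → E y P → PairIn E R x y → PairIn E R y x → x = y) ∧
  ∀ x y z, E x P → E y P → E z P → PairIn E R x y → PairIn E R y z → PairIn E R x z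

/-- every chain of `P` has at most three elements -/
def IsH3 (P R : M) : Prop := ∀ x y z t, E x P → E y P → E z P → E t P →
  PairIn E R x y → PairIn E R y z → PairIn E R z t → x = y ∨ y = z ∨ z = t

/-- every element of `P` has only countably many predecessors in the order `R`: there is a function `g`
(a set of pairs) from a subset of `w = ω` whose range contains all of them -/
def IsLocCtb (w P R : M) : Prop :=
  ∀ x, E x P → ∃ g, (∀ n, E n w → ∀ y z, E y P → E z P → PairIn E g n y → PairIn E g n z → y = z) ∧
    ∀ y, E y P → PairIn E R y x → ∃ n, E n w ∧ PairIn E g n y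

/-- the cardinality of `P` is at most `2 ^ ω`: there is an injective function `g` from `P` to the power set
of `w = ω`, given as the set of all pairs `(x, n)` with `n ∈ g x` -/
def LeCont (w P : M) : Prop :=
  ∃ g, ∀ x y, E x P → E y P → x ≠ y → ∃ n, E n w ∧ ¬ (PairIn E g x n ↔ PairIn E g y n)

end

open Classical in
/-- Turing reducibility of sets of natural numbers (Mathlib's definition, for characteristic functions) -/
def SetTR (A B : Set ℕ) : Prop :=
  TuringReducible (fun n => Part.some (if n ∈ A then 1 else 0)) (fun n => Part.some (if n ∈ B then 1 else 0))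

/-- there is a model of ZFC with standard natural numbers in which some locally countable partial order of
cardinality at most `2 ^ ω`, all of whose chains have at most three elements, does not embed into the Turing
degrees -/
def SacksFails : Prop :=
  ∃ (M : Type 1) (E : M → M → Prop), Pool.Agent.Lib.BVM.IsZFC E ∧ ∃ w P R : M, IsStdOmega E w ∧
    IsPO E P R ∧ IsLocCtb E w P R ∧ LeCont E w P ∧ IsH3 E P R ∧
    ∀ F : M, ¬ ∀ x y, E x P → E y P → (Pool.Agent.PolB.PairIn E R x y ↔ SetTR (Row E F x) (Row E F y))

end Pool.Agent.SX
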