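import Pool.Agent.Lib.SX.M.Asm

/-!
# PartM: from the Boolean values to a model of ZFC with standard natural numbers

`M/Gen`: ultrafilters which meet countably many suprema. `M/Elm`: elementary substructures of models
of ZFC. `M/Cls`: countable sets of names closed under witnesses. `M/Ord`, `M/Nam`: the order and its
name. `M/Tur`: Turing reducibility. `M/Mixb`: a witness by mixing. `M/Nic`, `M/Asm`: the model.
-/

set_option autoImplicit false

namespace Pool.Agent.SX

theorem partM {B : Type} [CompleteBooleanAlgebra B] [Nontrivial B]
    (hB : ∀ F : (ℕ → B) → ℕ → B, ExtF F → embB F = ⊥) : SacksFails := partM' hB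

end Pool.Agent.SX
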