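import Pool.Agent.Lib.SX.CoreB
import Pool.Agent.Lib.SX.PartM

set_option autoImplicit false

namespace Pool.Agent.SX

open Cardinal Pool.Agent.PolB

theorem sacksFails : SacksFails := by
  have hK : 𝔠 < #(Set Cs) := by
    have h := Cardinal.cantor #Cs
    rw [Cardinal.mk_set]
    have h1 : #Cs = 𝔠 := by simp [Cs]
    rw [h1] at h ⊢
    exact h
  haveI : Nontrivial (BP (Set Cs)) := by
    refine ⟨⟨⊤, ⊥, fun h => ?_⟩⟩
    have h1 := Ap_top (le := leP (Set Cs)) (1 : PM (Set Cs))
    rw [h] at h1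
    exact Ap_bot _ h1
  exact partM fun F hF => coreB hK F hF

end Pool.Agent.SX
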