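import Pool.Agent.Lib.SX.Defs

/-!
# Mon: algebra of the conditions
-/

set_option autoImplicit false

namespace Pool.Agent.SX

variable {K : Type}

@[ext] theorem SM.ext {h k : SM} (e : ∀ x, h.f x = k.f x) : h = k := by
  cases h; cases k
  simp only [SM.mk.injEq]
  funext x
  exact e x

@[simp] theorem SM.one_f (x : Cs) : (1 : SM).f x = x := rfl

@[simp] theorem SM.mul_f (h k : SM) (x : Cs) : (h * k).f x = h.f (k.f x) := rfl

theorem PM.ext {h k : PM K} (e : ∀ i x, (h.1 i).f x = (k.1 i).f x) : h = k :=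
  Subtype.ext (funext fun i => SM.ext (e i))

@[simp] theorem PM.one_c (i : K) : (1 : PM K).1 i = 1 := rfl

@[simp] theorem PM.mul_c (h k : PM K) (i : K) : (h * k).1 i = h.1 i * k.1 i := rfl

theorem ac_apply (k : PM K) (x : K → Cs) (i : K) : ac k x i = (k.1 i).f (x i) := rfl

@[simp] theorem ac_one (x : K → Cs) : ac (1 : PM K) x = x := rfl

theorem ac_mul (h k : PM K) (x : K → Cs) : ac (h * k) x = ac h (ac k x) := rfl

theorem comp_ac_mul {T : Type} (b : (K → Cs) → T) (h k : PM K) : b ∘ ac (h * k) = (b ∘ ac h) ∘ ac k := rfl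

theorem comp_ac_one {T : Type} (b : (K → Cs) → T) : b ∘ ac (1 : PM K) = b := rfl

theorem Ag.refl (n : ℕ) (x : Cs) : Ag n x x := fun _ _ => rfl

theorem Ag.symm {n : ℕ} {x y : Cs} (h : Ag n x y) : Ag n y x := fun k hk => (h k hk).symm

theorem Ag.trans {n : ℕ} {x y z : Cs} (h : Ag n x y) (h' : Ag n y z) : Ag n x z :=
  fun k hk => (h k hk).trans (h' k hk)

theorem Ag.mono {n m : ℕ} {x y : Cs} (h : Ag n x y) (hm : m ≤ n) : Ag m x y :=
  fun k hk => h k (lt_of_lt_of_le hk hm)

theorem eq_of_Ag {x y : Cs} (h : ∀ n, Ag n x y) : x = y := funext fun k => h (k + 1) k (Nat.lt_succ_self k)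

theorem SM.continuous (k : SM) : Continuous k.f := by
  refine continuous_pi fun n => ?_
  rw [continuous_discrete_rng]
  intro b
  rw [isOpen_iff_mem_nhds]
  intro x hx
  have h1 : {y : Cs | Ag (n + 1) x y} ∈ nhds x := by
    have h2 : IsOpen {y : Cs | Ag (n + 1) x y} := by
      have h3 : {y : Cs | Ag (n + 1) x y} = ⋂ k ∈ Finset.range (n + 1), {y : Cs | x k = y k} := by
        ext y
        simp [Ag]
      rw [h3]
      refine isOpen_biInter_finset fun k _ => ?_
      exact (isOpen_discrete ({b | x k = b} : Set Bool)).preimage (continuous_apply k)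
    exact h2.mem_nhds (Ag.refl _ _)
  filter_upwards [h1] with y hy
  have h4 := k.lip (n + 1) x y hy n (Nat.lt_succ_self n)
  show k.f y n = b
  rw [← h4]
  exact hx

theorem continuous_ac (k : PM K) : Continuous (ac k) :=
  continuous_pi fun i => (k.1 i).continuous.comp (continuous_apply i)

theorem ac_injective (k : PM K) : Function.Injective (ac k) := fun x y h =>
  funext fun i => (k.1 i).inj (congrFun h i)

theorem Ag_ac (k : PM K) {n : ℕ} {x y : K → Cs} {i : K} (h : Ag n (x i) (y i)) : Ag n (ac k x i) (ac k y i) :=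
  (k.1 i).lip n _ _ h

theorem continuous_rl (h : PM K) (i : K) : Continuous (rl h i) :=
  (h.1 i).continuous.comp (continuous_apply i)

theorem rl_mul (h k : PM K) (i : K) : rl (h * k) i = rl h i ∘ ac k := rfl

/-- two different coordinates are independent -/
theorem rl_ne (h : PM K) {i j : K} (hij : i ≠ j) (g : SM) : ¬ ∀ x, rl h i x = g.f (x j) := by
  classical
  intro hc
  let x : K → Cs := fun _ _ => false
  let y : K → Cs := Function.update x i fun _ => true
  have h1 := hc x
  have h2 := hc y
  have h3 : y j = x j := Function.update_of_ne (Ne.symm hij) _ _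
  rw [h3, ← h1] at h2
  have h4 : y i = x i := (h.1 i).inj h2
  have h5 : y i = fun _ => true := Function.update_self _ _ _
  rw [h5] at h4
  exact absurd (congrFun h4 0) (by simp [x])

/-- a condition given by a function with countable support -/
def mkP (f : K → SM) (h : {i | f i ≠ 1}.Countable) : PM K := ⟨f, h⟩

@[simp] theorem mkP_c (f : K → SM) (h : {i | f i ≠ 1}.Countable) (i : K) : (mkP f h).1 i = f i := rfl

theorem supp_countable (h : PM K) : {i | h.1 i ≠ 1}.Countable := h.2

theorem Ind.comp {i : K} {b : (K → Cs) → Cs} (h : Ind i b) (k : PM K) : Ind i (b ∘ ac k) :=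
  fun x y hxy => h _ _ fun j hj => by rw [ac_apply, ac_apply, hxy j hj]

end Pool.Agent.SX
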