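import Pool.Agent.Lib.SX.Sch
import Pool.Agent.Lib.SX.DecB

/-!
# P1M: phase 1, the theorem (about 40 lines)

`exists_sch` gives `g, N, S, T`. For a point `x` put `p = ac g x` and apply `decA` to `v j p`, `u j p`, `w m j = u j (cp m p)`, `e m p`, `e' m p`, `c m p`: `idx'` for `w m (sysOf d m)` is `D.idx' m (cp m p)` together with
`r3'` and `c'_ge` (`m ≤ m`); `hw` is `u_other`. Then `decB`.
-/

set_option autoImplicit false

namespace Pool.Agent.SX

open Pool.Agent.Mart

variable {K : Type} [Countable K] {d : Cs} {lab : K → Option ℕ} {src : K → K}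
  {v u c c' : ℕ → (K → Cs) → Cs} {e e' : ℕ → (K → Cs) → ℕ}

theorem p1m (D : P1 K d lab src v u c c' e e') :
    ∃ g : PM K, ∀ (x : K → Cs) (z : Cs), (∀ j < 4, TR (v j (ac g x)) z) → (∀ j < 4, TR (u j (ac g x)) z) → TR d z := by
  obtain ⟨g, N, S, T, H⟩ := exists_sch D
  refine ⟨g, fun x z hv hu => ?_⟩
  obtain ⟨s, hs⟩ := decA d (fun j => v j (ac g x)) (fun j => u j (ac g x))
    (fun m j => u j (cp lab src m (ac g x))) (fun m => e m (ac g x)) (fun m => e' m (ac g x)) N S T
    (fun m => c m (ac g x)) (fun m => H.hE m _) H.NS H.SN H.TN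
    (fun m j hj hjm a ha b hb => H.r2 m j hj hjm a ha b hb x) (fun m j hj => H.r3 m j hj x)
    (fun m j hj => D.u_other j m _ hj) (fun m => D.idx m _) (fun m => by
      have h1 := D.idx' m (cp lab src m (ac g x))
      rw [← H.r3' m x, D.c'_ge m m _ le_rfl] at h1
      exact h1) (fun m => H.r4 m x)
  exact decB d _ _ s hs z hv hu

end Pool.Agent.SX
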