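import Pool.Agent.Lib.SX.Uni

/-!
# PDefs: phase 1 (ground model reals), definitions
-/

set_option autoImplicit false

namespace Pool.Agent.SX

open Pool.Agent.Mart

/-- the programs `e` with oracle `a` and `e'` with oracle `b` are seen to disagree in fewer than `s` steps -/
def Fl (a b : Cs) (e e' s : ℕ) : Prop := ∃ n < s, ∃ i < 2, ∃ i' < 2, i ≠ i' ∧ U a e n s i ∧ U b e' n s i'

/-- the system of the event `m` -/
def sysOf (d : Cs) (m : ℕ) : ℕ := 2 * (m % 2) + (d m).toNat

theorem sysOf_lt (d : Cs) (m : ℕ) : sysOf d m < 4 := by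
  unfold sysOf
  have h1 : m % 2 < 2 := Nat.mod_lt _ (by norm_num)
  have h2 : (d m).toNat ≤ 1 := Bool.toNat_le _
  omega

theorem sysOf_div (d : Cs) (m : ℕ) : sysOf d m / 2 = m % 2 := by
  unfold sysOf
  have h2 : (d m).toNat ≤ 1 := Bool.toNat_le _
  omega

section
variable {K : Type} (lab : K → Option ℕ) (src : K → K)

open Classical in
/-- copy the source to the target at all targets with label at least `m` -/
noncomputable def cp (m : ℕ) (x : K → Cs) : K → Cs := fun i => if ∃ l, lab i = some l ∧ m ≤ l then x (src i) else x i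

/-- `k` is the same at the source and at the target, for all targets with label at least `m` -/
def Sy (m : ℕ) (k : PM K) : Prop := ∀ i l, lab i = some l → m ≤ l → k.1 (src i) = k.1 i

/-- the coordinate `i` is neither a target with label at least `m` nor the source of such a target -/
def Ul (m : ℕ) (i : K) : Prop := ∀ i' l, lab i' = some l → m ≤ l → i' ≠ i ∧ src i' ≠ i

end

/-- The data of phase 1. Four systems `j < 4` with oracles `v j` and `u j`; the event `l` belongs to the
system `sysOf d l`; `c l` is computed from `v (sysOf d l)` and `c' l` from `u (sysOf d l)`. -/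
structure P1 (K : Type) (d : Cs) (lab : K → Option ℕ) (src : K → K) (v u c c' : ℕ → (K → Cs) → Cs)
    (e e' : ℕ → (K → Cs) → ℕ) : Prop where
  cv : ∀ j, Continuous (v j)
  cu : ∀ j, Continuous (u j)
  cc : ∀ l, Continuous (c l)
  cc' : ∀ l, Continuous (c' l)
  ce : ∀ l, Continuous (e l)
  ce' : ∀ l, Continuous (e' l)
  src_none : ∀ i l, lab i = some l → lab (src i) = none
  src_inj : ∀ i i' l l', lab i = some l → lab i' = some l' → src i = src i' → i = i'
  idx : ∀ l x, Idx (v (sysOf d l) x) (e l x) (c l x)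
  idx' : ∀ l x, Idx (u (sysOf d l) x) (e' l x) (c' l x)
  v_cp : ∀ j m x, v j (cp lab src m x) = v j x
  c_cp : ∀ l m x, c l (cp lab src m x) = c l x
  e_cp : ∀ l m x, e l (cp lab src m x) = e l x
  c'_ge : ∀ l m x, m ≤ l → c' l (cp lab src m x) = c l x
  c'_lt : ∀ l m x, l < m → c' l (cp lab src m x) = c' l x
  u_other : ∀ j m x, j ≠ sysOf d m → u j (cp lab src m x) = u j (cp lab src (m + 1) x)
  ne : ∀ l k, ∃ x, c l (ac k x) ≠ c' l (ac k x)

end Pool.Agent.SX
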