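import Pool.Agent.Lib.SX.RdL
import Pool.Agent.Lib.SX.Fus

/-!
# RdE: continuous reading of names, names of continuous functions (about 120 lines)

`exists_rd`: `D n k := Ap k (A n) ∨ Ap k (A n)ᶜ` is open (`ap_mul`) and dense (`ap_or`). `fus` at `h` gives `k` and for every `n` a pair `(F, m)` with `D n (h * k * cel F m x)` for all `x`. `b x n := decide (Ap (h * k * cel F m x) (A n))` (classical): depends only on the cell (`cel_congr`), so it is continuous (locally constant, `isOpen_box`).
`Rd (h * k) A b`: let `∀ x, b (ac k' x) n = true`. `ap_loc`: given `k''`; for any point `x0`: `k' * k'' * cel F m x0 = cel F m (ac (k' * k'') x0) * k3` (`cel_ac`), and `b (ac k' (ac k'' x0)) n = true` means `Ap (h * k * cel F m (ac (k' * k'') x0)) (A n)`; so `Ap (h * k * k' * k'' * cel F m x0) (A n)` (`mul_assoc`, `ap_mul`). For `false` similarly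
(`D n` gives the complement).
`rd_nm`: `Ap_toB`: `Ap q (nm h b n) ↔ Mem ..`. If `∀ x, b (ac k x) n = true` then every `q = h * k * k'` is itself below the element `h * k` of the set. If `∀ x, b (ac k x) n = false`: `Ap_compl`: a `q = h * k * k'` with `Ap q (nm h b n)` would give `r = q * k1 = (h * k2) * k3` with `∀ x, b (ac k2 x) n = true`;
`ac h` is injective (`ac_injective`), so `ac (k * k' * k1) x = ac (k2 * k3) x`, and `b .. n` would be both `false` and `true` at this point.
-/

set_option autoImplicit false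

namespace Pool.Agent.SX

open Pool.Agent.PolB Pool.Agent.Lib.BVM

variable {K : Type}

theorem exists_rd (h : PM K) (A : ℕ → BP K) : ∃ (k : PM K) (b : (K → Cs) → Cs), Continuous b ∧ Rd (h * k) A b := by
  classical
  obtain ⟨k, hk⟩ := fus (fun n k => Ap k (A n) ∨ Ap k (A n)ᶜ) (fun n h => ap_or h (A n))
    (fun n h k hh => hh.imp (fun h1 => ap_mul h1 k) (fun h1 => ap_mul h1 k)) h
  choose F m hFm using hk
  refine ⟨k, fun x n => decide (Ap (h * k * cel (F n) (m n) x) (A n)), ?_, ?_⟩
  · refine continuous_pi fun n => ?_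
    refine IsLocallyConstant.continuous ?_
    rw [IsLocallyConstant.iff_exists_open]
    intro x
    refine ⟨{y : K → Cs | ∀ i ∈ F n, Ag (m n) (x i) (y i)}, isOpen_box (F n) (m n) x,
      fun i _ => Ag.refl _ _, fun y hy => ?_⟩
    simp only [cel_congr hy]
  · intro k' n
    have key : ∀ k'' : PM K, ∃ k4 : PM K,
        h * k * k' * k'' * cel (F n) (m n) (fun _ _ => false) =
          h * k * cel (F n) (m n) (ac k' (ac k'' fun _ _ => false)) * k4 := by
      intro k''
      obtain ⟨k4, hk4⟩ := cel_ac (k' * k'') (F n) (m n) fun _ _ => false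
      refine ⟨k4, ?_⟩
      rw [← ac_mul, mul_assoc (h * k) (cel _ _ _) k4, ← hk4]
      simp only [mul_assoc]
    constructor
    · intro hb
      refine ap_loc fun k'' => ⟨cel (F n) (m n) fun _ _ => false, ?_⟩
      obtain ⟨k4, hk4⟩ := key k''
      have h1 := hb (ac k'' fun _ _ => false)
      rw [hk4]
      exact ap_mul (of_decide_eq_true h1) k4
    · intro hb
      refine ap_loc fun k'' => ⟨cel (F n) (m n) fun _ _ => false, ?_⟩
      obtain ⟨k4, hk4⟩ := key k''
      have h1 := of_decide_eq_false (hb (ac k'' fun _ _ => false))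
      rw [hk4]
      exact ap_mul ((hFm n _).resolve_left h1) k4

theorem rd_nm (h : PM K) {b : (K → Cs) → Cs} (hb : Continuous b) : Rd h (nm h b) b := by
  intro k n
  constructor
  · intro hk
    refine (Ap_toB leP_refl leP_trans _ _ _).2 ?_
    intro q hq
    exact ⟨q, leP_refl q, h * k, ⟨k, rfl, hk⟩, hq⟩
  · intro hk
    refine (Ap_compl leP_refl leP_trans _ _).2 ?_
    rintro q ⟨k', rfl⟩ hq
    obtain ⟨r, ⟨k1, hr⟩, a, ⟨k2, rfl, hk2⟩, ⟨k3, hr'⟩⟩ :=
      (Ap_toB leP_refl leP_trans _ _ _).1 hq _ (leP_refl _)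
    have h1 : ∀ x, ac (k * (k' * k1)) x = ac (k2 * k3) x := by
      intro x
      apply ac_injective h
      rw [← ac_mul, ← ac_mul]
      congr 1
      rw [← mul_assoc h k2 k3, ← hr', hr]
      simp only [mul_assoc]
    have h2 := hk (ac (k' * k1) fun _ _ => false)
    have h3 := hk2 (ac k3 fun _ _ => false)
    rw [← ac_mul, h1, ac_mul, h3] at h2
    exact Bool.noConfusion h2

end Pool.Agent.SX
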