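import Pool.Agent.Lib.SX.BDefs
import Pool.Agent.Lib.SX.Fini
import Pool.Agent.Lib.SX.Cell

/-!
# RdL: simple facts on names over the regular open algebra (about 110 lines)

All from `Ap_down`, `Ap_loc`, `Ap_compl`, `Ap_inf`, `Ap_iInf`, `le_iff_Ap` (Lib/PolB/Rob.lean) with `leP_refl`, `leP_trans`; a condition stronger than `h` is `h * k`.
`ap_or`: if no `h * k` is in `a` then `h` is in `aᶜ`. `Rd.uniq`: if `b x n ≠ b' x n` at some `x`, both are constant on a cell `cel F m x` (`open_nbhd`), so `h * cel F m x` is in `A n` and in `(A n)ᶜ`.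
`Rd.eqv`: to show `Ap h (eqv A A')`, that is `Ap h (A k ⇔ A' k)` for all `k`: by locality it is enough below `h * k1 * cel F m x` with a cell on which `b (ac k1 ·) k` is constant (`bihimp_def`; both in or both in the complement).
`Rd.at`: the converse reading: if `Rd h A b` and `Ap h (A n)` then `b x n = true` for all `x` (else a cell with value `false`). `ext_rd` : `F` extensional, `Ap h (eqv u u')`, `Rd h (F u) b` gives `Rd h (F u') b` (for complements use symmetry of `eqv`).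
-/

set_option autoImplicit false

namespace Pool.Agent.SX

open Pool.Agent.PolB Pool.Agent.Lib.BVM

variable {K : Type}

theorem leP_refl (p : PM K) : leP K p p := ⟨1, (mul_one p).symm⟩

theorem leP_trans (p q r : PM K) (h : leP K p q) (h' : leP K q r) : leP K p r := by
  obtain ⟨k, rfl⟩ := h
  obtain ⟨k', rfl⟩ := h'
  exact ⟨k' * k, mul_assoc _ _ _⟩

theorem ap_mul {h : PM K} {a : BP K} (ha : Ap h a) (k : PM K) : Ap (h * k) a := Ap_down ha ⟨k, rfl⟩

theorem ap_loc {h : PM K} {a : BP K} (H : ∀ k : PM K, ∃ k' : PM K, Ap (h * k * k') a) : Ap h a := by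
  refine Ap_loc leP_refl leP_trans ?_
  rintro q ⟨k, rfl⟩
  obtain ⟨k', hk'⟩ := H k
  exact ⟨h * k * k', ⟨k', rfl⟩, hk'⟩

theorem ap_or (h : PM K) (a : BP K) : ∃ k : PM K, Ap (h * k) a ∨ Ap (h * k) aᶜ := by
  by_cases hc : ∃ k : PM K, Ap (h * k) a
  · obtain ⟨k, hk⟩ := hc
    exact ⟨k, Or.inl hk⟩
  · refine ⟨1, Or.inr ((Ap_compl leP_refl leP_trans _ _).2 ?_)⟩
    rintro q ⟨k, rfl⟩ hq
    exact hc ⟨1 * k, by rwa [← mul_assoc]⟩

theorem ap_not_both {h : PM K} {a : BP K} (h1 : Ap h a) (h2 : Ap h aᶜ) : False :=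
  (Ap_compl leP_refl leP_trans h a).1 h2 h (leP_refl h) h1

theorem ap_iSup {h : PM K} {ι : Type} {f : ι → BP K} (H : Ap h (⨆ i, f i)) : ∃ (k : PM K) (i : ι), Ap (h * k) (f i) := by
  obtain ⟨r, ⟨k, rfl⟩, i, hi⟩ := (Ap_iSup leP_refl leP_trans h f).1 H h (leP_refl h)
  exact ⟨k, i, hi⟩

theorem Rd.mul {h : PM K} {A : ℕ → BP K} {b : (K → Cs) → Cs} (H : Rd h A b) (k : PM K) : Rd (h * k) A (b ∘ ac k) := by
  intro k' n
  rw [mul_assoc]
  exact H (k * k') n

/-- a cell on which the `n`-th values of two continuous functions are constant -/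
private theorem cell2 {b b' : (K → Cs) → Cs} (hb : Continuous b) (hb' : Continuous b') (x : K → Cs) (n : ℕ) :
    ∃ k : PM K, ∀ z, b (ac k z) n = b x n ∧ b' (ac k z) n = b' x n := by
  have o1 : IsOpen {y : K → Cs | b y n = b x n} :=
    (isOpen_discrete ({b x n} : Set Bool)).preimage ((continuous_apply n).comp hb)
  have o2 : IsOpen {y : K → Cs | b' y n = b' x n} :=
    (isOpen_discrete ({b' x n} : Set Bool)).preimage ((continuous_apply n).comp hb')
  obtain ⟨F, m, hF⟩ := open_nbhd (o1.inter o2) (x := x) ⟨rfl, rfl⟩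
  refine ⟨cel F m x, fun z => ?_⟩
  exact hF _ (mem_cel.1 ⟨z, rfl⟩)

theorem Rd.uniq {h : PM K} {A : ℕ → BP K} {b b' : (K → Cs) → Cs} (hb : Continuous b) (hb' : Continuous b')
    (H : Rd h A b) (H' : Rd h A b') : b = b' := by
  funext x
  funext n
  by_contra hc
  obtain ⟨k, hk⟩ := cell2 hb hb' x n
  cases h1 : b x n
  · have h2 : b' x n = true := by
      cases h3 : b' x n
      · exact absurd (h1.trans h3.symm) hc
      · rfl
    exact ap_not_both ((H' k n).1 fun z => (hk z).2.trans h2) ((H k n).2 fun z => (hk z).1.trans h1)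
  · have h2 : b' x n = false := by
      cases h3 : b' x n
      · rfl
      · exact absurd (h1.trans h3.symm) hc
    exact ap_not_both ((H k n).1 fun z => (hk z).1.trans h1) ((H' k n).2 fun z => (hk z).2.trans h2)

theorem Rd.at {h : PM K} {A : ℕ → BP K} {b : (K → Cs) → Cs} (hb : Continuous b) (H : Rd h A b) {n : ℕ}
    (ha : Ap h (A n)) (x : K → Cs) : b x n = true := by
  obtain ⟨k, hk⟩ := cell2 hb hb x n
  cases h1 : b x n
  · exact absurd ((H k n).2 fun z => (hk z).1.trans h1) fun h2 => ap_not_both (ap_mul ha k) h2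
  · rfl

theorem Rd.at_compl {h : PM K} {A : ℕ → BP K} {b : (K → Cs) → Cs} (hb : Continuous b) (H : Rd h A b) {n : ℕ}
    (ha : Ap h (A n)ᶜ) (x : K → Cs) : b x n = false := by
  obtain ⟨k, hk⟩ := cell2 hb hb x n
  cases h1 : b x n
  · rfl
  · exact absurd ((H k n).1 fun z => (hk z).1.trans h1) fun h2 => ap_not_both h2 (ap_mul ha k)

private theorem ap_bi {h : PM K} {a b : BP K} (ha : Ap h a) (hb : Ap h b) : Ap h (bihimp a b) := by
  rw [bihimp_def, Ap_inf, Ap_himp leP_refl leP_trans, Ap_himp leP_refl leP_trans]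
  exact ⟨fun q hq _ => Ap_down ha hq, fun q hq _ => Ap_down hb hq⟩

private theorem ap_bi' {h : PM K} {a b : BP K} (ha : Ap h aᶜ) (hb : Ap h bᶜ) : Ap h (bihimp a b) := by
  rw [bihimp_def, Ap_inf, Ap_himp leP_refl leP_trans, Ap_himp leP_refl leP_trans]
  rw [Ap_compl leP_refl leP_trans] at ha hb
  exact ⟨fun q hq h1 => absurd h1 (hb q hq), fun q hq h1 => absurd h1 (ha q hq)⟩

/-- below `h`: the bit `n` of `A` and the bit `n'` of `A'` are the same -/
theorem Rd.iff {h : PM K} {A A' : ℕ → BP K} {b b' : (K → Cs) → Cs} (hb : Continuous b) (H : Rd h A b) (H' : Rd h A' b')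
    {n n' : ℕ} (e : ∀ x, b x n = b' x n') : Ap h (bihimp (A n) (A' n')) := by
  refine ap_loc fun k => ?_
  have hbk : Continuous (b ∘ ac k) := hb.comp (continuous_ac k)
  obtain ⟨k', hk'⟩ := cell2 hbk hbk (fun _ _ => false) n
  refine ⟨k', ?_⟩
  rw [mul_assoc]
  have h1 : ∀ z, b (ac (k * k') z) n = b (ac k fun _ _ => false) n := fun z => (hk' z).1
  cases h2 : b (ac k fun _ _ => false) n
  · refine ap_bi' ((H (k * k') n).2 fun z => (h1 z).trans h2) ((H' (k * k') n').2 fun z => ?_)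
    rw [← e]
    exact (h1 z).trans h2
  · refine ap_bi ((H (k * k') n).1 fun z => (h1 z).trans h2) ((H' (k * k') n').1 fun z => ?_)
    rw [← e]
    exact (h1 z).trans h2

theorem Rd.eqv {h : PM K} {A A' : ℕ → BP K} {b : (K → Cs) → Cs} (hb : Continuous b) (H : Rd h A b) (H' : Rd h A' b) :
    Ap h (eqv A A') := by
  unfold Pool.Agent.SX.eqv
  rw [Ap_iInf leP_refl leP_trans]
  exact fun n => Rd.iff hb H H' fun _ => rfl

theorem eqv_ext {F : (ℕ → BP K) → ℕ → BP K} (hF : ExtF F) {h : PM K} {u u' : ℕ → BP K} {b : (K → Cs) → Cs}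
    (he : Ap h (eqv u u')) (H : Rd h (F u) b) : Rd h (F u') b := by
  have e : Pool.Agent.SX.eqv u' u = Pool.Agent.SX.eqv u u' := by
    unfold Pool.Agent.SX.eqv
    exact iInf_congr fun k => bihimp_comm _ _
  intro k n
  refine ⟨fun hb => ?_, fun hb => ?_⟩
  · exact le_iff_Ap.1 (hF u u' n) _ ⟨ap_mul he k, (H k n).1 hb⟩
  · have h1 := (H k n).2 hb
    rw [Ap_compl leP_refl leP_trans] at h1 ⊢
    intro q hq h2
    refine h1 q hq (le_iff_Ap.1 (hF u' u n) _ ⟨?_, h2⟩)
    rw [e]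
    exact Ap_down (ap_mul he k) hq

end Pool.Agent.SX
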