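import Pool.Agent.Lib.SX.Stg

/-!
# Sch: the construction of phase 1 (about 150 lines)

`bdd`: a continuous function to `ℕ` on the compact space is bounded (finite range). Let `E m` bound `e m` and `e' m`.
Enumeration: if `K` is empty everything is trivial or use that `P1.ne` gives a point, so `c l` is not constant and `K` is nonempty; `en : ℕ → K` surjective (`exists_surjective_nat`). `F m` := the set of the
`en i`, `i < m`, with `Ul m (en i)` (classical filter); `F m ⊆ F (m+1)` (`Ul.mono`), all members are unlocked at `m`, every `i : K` is in some `F m` (`exists_ul`, `Ul.mono`).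
Start: `N 0 = S 0 = E 0`; `stA` with `m = 0`, `F = ∅`, `n = 0`, `S := S 0`, `h = 1` gives `k_*`, `T 0`; `h_0 := k_*`; `N 1 = S 1 = max (max (S 0 + 1) (T 0)) (E 1)`.
Stage `m`: from `h_m` (with `Sy m h_m`) and `S (m+1)`: `stg` with `F := F m`, `n := m`, `S1 := S (m+1)`, `E := E (m+2)` gives `k_m`, `T (m+1)`, `N (m+2)`, `S (m+2)`; `h_{m+1} = h_m * k_m`.
(Recursion on the state `(h, S)` with `Sy`.) `lim` for `k_m`, `F m` gives `t_m`; `g := h_0 * t_0 = h_m * t_m` for all `m`. Everything proved for all points `ac h_{m+1} y` holds at `ac g x = ac h_{m+1} (ac t_{m+1} x)`.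
`r2` for `m + 1`: `j / 2 = (m+1) % 2`, so `j ≠ sysOf d m` (`sysOf_div`), and `u_other` replaces `cp m` by `cp (m+1)`.
-/

set_option autoImplicit false

namespace Pool.Agent.SX

/-- the result of the construction -/
structure Sch {K : Type} (d : Cs) (lab : K → Option ℕ) (src : K → K) (v u : ℕ → (K → Cs) → Cs)
    (e e' : ℕ → (K → Cs) → ℕ) (g : PM K) (N S T : ℕ → ℕ) : Prop where
  hE : ∀ m x, e m x ≤ N m ∧ e' m x ≤ N m
  NS : ∀ m, N m ≤ S m
  SN : ∀ m, S m < N (m + 1)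
  TN : ∀ m, T m ≤ N (m + 1)
  r2 : ∀ m, ∀ j < 4, j / 2 = m % 2 → ∀ a ≤ S m, ∀ b ≤ S m, ∀ x,
    Fl (v j (ac g x)) (u j (ac g x)) a b (T m) ∨ ∀ s, ¬ Fl (v j (ac g x)) (u j (cp lab src m (ac g x))) a b s
  r3 : ∀ m, ∀ j < 4, ∀ x, Ag (N (m + 2)) (u j (ac g x)) (u j (cp lab src m (ac g x)))
  r3' : ∀ m x, e' m (ac g x) = e' m (cp lab src m (ac g x))
  r4 : ∀ m x, Fl (v (sysOf d m) (ac g x)) (u (sysOf d m) (ac g x)) (e m (ac g x)) (e' m (ac g x)) (S (m + 2))

theorem bdd {K : Type} {f : (K → Cs) → ℕ} (hf : Continuous f) : ∃ E, ∀ x, f x ≤ E := by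
  obtain ⟨E, hE⟩ := (isCompact_range hf).bddAbove
  exact ⟨E, fun x => hE (Set.mem_range_self x)⟩

variable {K : Type} [Countable K] {d : Cs} {lab : K → Option ℕ} {src : K → K}
  {v u c c' : ℕ → (K → Cs) → Cs} {e e' : ℕ → (K → Cs) → ℕ}

theorem exists_sch (D : P1 K d lab src v u c c' e e') :
    ∃ (g : PM K) (N S T : ℕ → ℕ), Sch d lab src v u e e' g N S T := by
  classical
  choose E1 hE1 using fun m => bdd (D.ce m)
  choose E2 hE2 using fun m => bdd (D.ce' m)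
  obtain ⟨E, hEe, hEe'⟩ : ∃ E : ℕ → ℕ, (∀ m x, e m x ≤ E m) ∧ ∀ m x, e' m x ≤ E m :=
    ⟨fun m => max (E1 m) (E2 m), fun m x => (hE1 m x).trans (le_max_left _ _),
      fun m x => (hE2 m x).trans (le_max_right _ _)⟩
  obtain ⟨f, hf⟩ := Countable.exists_injective_nat K
  have hfin : ∀ m, {i : K | f i < m ∧ Ul lab src m i}.Finite := fun m =>
    ((Set.finite_Iio m).preimage hf.injOn).subset fun i hi => hi.1
  obtain ⟨F, hF⟩ : ∃ F : ℕ → Finset K, ∀ m i, i ∈ F m ↔ f i < m ∧ Ul lab src m i :=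
    ⟨fun m => (hfin m).toFinset, fun m i => Set.Finite.mem_toFinset _⟩
  have hFu : ∀ m, ∀ i ∈ F m, Ul lab src m i := fun m i hi => ((hF m i).1 hi).2
  have hFF : ∀ m, F m ⊆ F (m + 1) := fun m i hi =>
    (hF _ _).2 ⟨((hF m i).1 hi).1.trans (Nat.lt_succ_self m), (hFu m i hi).mono (Nat.le_succ m)⟩
  have hFex : ∀ i, ∃ m, i ∈ F m := by
    intro i
    obtain ⟨m, hm⟩ := exists_ul D.src_none D.src_inj i
    exact ⟨max m (f i + 1), (hF _ _).2
      ⟨lt_of_lt_of_le (Nat.lt_succ_self _) (le_max_right _ _), hm.mono (le_max_left _ _)⟩⟩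
  -- the start
  obtain ⟨k0, T0, -, hk0, hst0⟩ := stA D 0 (F := ∅) (fun i hi => absurd hi (Finset.notMem_empty i)) 0 (E 0)
    (h := 1) (Sy.one 0)
  -- one step
  have hstep : ∀ (m : ℕ) (p : PM K × ℕ), ∃ q : PM K × ℕ × ℕ × ℕ, Sy lab src m p.1 →
      Pres (F m) m q.1 ∧ Sy lab src (m + 1) q.1 ∧ p.2 < q.2.2.1 ∧ q.2.1 ≤ q.2.2.1 ∧ E (m + 2) ≤ q.2.2.1 ∧
      q.2.2.1 ≤ q.2.2.2 ∧
      (∀ j < 4, ∀ a ≤ p.2, ∀ b ≤ p.2, ∀ x, Fl (v j (ac (p.1 * q.1) x)) (u j (ac (p.1 * q.1) x)) a b q.2.1 ∨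
        ∀ s, ¬ Fl (v j (ac (p.1 * q.1) x)) (u j (cp lab src m (ac (p.1 * q.1) x))) a b s) ∧
      (∀ j < 4, ∀ x, Ag q.2.2.1 (u j (ac (p.1 * q.1) x)) (u j (cp lab src m (ac (p.1 * q.1) x)))) ∧
      (∀ x, e' m (ac (p.1 * q.1) x) = e' m (cp lab src m (ac (p.1 * q.1) x))) ∧
      ∀ x, Fl (v (sysOf d m) (ac (p.1 * q.1) x)) (u (sysOf d m) (ac (p.1 * q.1) x)) (e m (ac (p.1 * q.1) x))
        (e' m (ac (p.1 * q.1) x)) q.2.2.2 := by
    intro m p
    by_cases hp : Sy lab src m p.1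
    · obtain ⟨k, T, N, S2, h⟩ := stg D m (hFu m) m p.2 (E (m + 2)) hp
      exact ⟨(k, T, N, S2), fun _ => h⟩
    · exact ⟨(1, 0, 0, 0), fun h => absurd h hp⟩
  choose q hq using hstep
  obtain ⟨st, hs0, hs1⟩ : ∃ st : ℕ → PM K × ℕ,
      st 0 = (1 * k0, max (max (E 0 + 1) T0) (E 1)) ∧
      ∀ m, st (m + 1) = ((st m).1 * (q m (st m)).1, (q m (st m)).2.2.2) :=
    ⟨fun m => Nat.rec (1 * k0, max (max (E 0 + 1) T0) (E 1))
      (fun m p => (p.1 * (q m p).1, (q m p).2.2.2)) m, rfl, fun _ => rfl⟩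
  have hSy : ∀ m, Sy lab src m (st m).1 := by
    intro m
    induction m with
    | zero =>
      rw [hs0, one_mul]
      exact hk0
    | succ m ih =>
      rw [hs1]
      exact (ih.mono (Nat.le_succ m)).mul (hq m (st m) ih).2.1
  obtain ⟨t, ht, -, -⟩ := lim (fun m => (q m (st m)).1) F hFF (fun m => (hq m (st m) (hSy m)).1)
    fun i => Or.inr (hFex i)
  have hg : ∀ m, (st 0).1 * t 0 = (st m).1 * t m := by
    intro m
    induction m with
    | zero => rfl
    | succ m ih => rw [ih, hs1, ht m, mul_assoc]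
  have hg' : ∀ m x, ac ((st 0).1 * t 0) x = ac ((st m).1 * (q m (st m)).1) (ac (t (m + 1)) x) := by
    intro m x
    rw [hg m, ht m, ← mul_assoc, ac_mul]
  have hg0 : ∀ x, ac ((st 0).1 * t 0) x = ac (1 * k0) (ac (t 0) x) := by
    intro x
    rw [ac_mul, hs0]
  refine ⟨(st 0).1 * t 0, fun m => Nat.casesOn m (E 0) fun m => Nat.casesOn m (st 0).2 fun m =>
      (q m (st m)).2.2.1, fun m => Nat.casesOn m (E 0) fun m => (st m).2,
      fun m => Nat.casesOn m T0 fun m => (q m (st m)).2.1, ?_⟩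
  refine
    { hE := ?_
      NS := ?_
      SN := ?_
      TN := ?_
      r2 := ?_
      r3 := ?_
      r3' := ?_
      r4 := ?_ }
  · intro m x
    have h1 : ∀ N, E m ≤ N → e m x ≤ N ∧ e' m x ≤ N := fun N hN =>
      ⟨(hEe m x).trans hN, (hEe' m x).trans hN⟩
    rcases m with _ | _ | m
    · exact h1 _ le_rfl
    · refine h1 _ ?_
      show E 1 ≤ (st 0).2
      rw [hs0]
      exact le_max_right _ _
    · exact h1 _ (hq m (st m) (hSy m)).2.2.2.2.1
  · intro m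
    rcases m with _ | _ | m
    · exact le_rfl
    · exact le_rfl
    · show (q m (st m)).2.2.1 ≤ (st (m + 1)).2
      rw [hs1]
      exact (hq m (st m) (hSy m)).2.2.2.2.2.1
  · intro m
    rcases m with _ | m
    · show E 0 < (st 0).2
      rw [hs0]
      exact lt_of_lt_of_le (Nat.lt_succ_self _) ((le_max_left _ _).trans (le_max_left _ _))
    · exact (hq m (st m) (hSy m)).2.2.1
  · intro m
    rcases m with _ | m
    · show T0 ≤ (st 0).2
      rw [hs0]
      exact (le_max_right _ _).trans (le_max_left _ _)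
    · exact (hq m (st m) (hSy m)).2.2.2.1
  · intro m j hj hjm a ha b hb x
    rcases m with _ | m
    · rw [hg0 x]
      exact hst0 j hj a ha b hb _
    · rw [hg' m x]
      have h1 := (hq m (st m) (hSy m)).2.2.2.2.2.2.1 j hj a ha b hb (ac (t (m + 1)) x)
      have h2 : j ≠ sysOf d m := by
        intro h3
        have h4 := sysOf_div d m
        rw [← h3, hjm] at h4
        omega
      rw [D.u_other j m _ h2] at h1
      exact h1
  · intro m j hj x
    rw [hg' m x]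
    exact (hq m (st m) (hSy m)).2.2.2.2.2.2.2.1 j hj _
  · intro m x
    rw [hg' m x]
    exact (hq m (st m) (hSy m)).2.2.2.2.2.2.2.2.1 _
  · intro m x
    rw [hg' m x]
    show Fl _ _ _ _ (st (m + 1)).2
    rw [hs1]
    exact (hq m (st m) (hSy m)).2.2.2.2.2.2.2.2.2 _

end Pool.Agent.SX
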