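import Pool.Agent.Lib.SX.Len
import Pool.Agent.Lib.SX.CwG

/-!
# StA: deciding the failure of pairs of programs (about 110 lines)

`cw_rel` (module `CwG`) with `G h := Sy lab src m h`, `Q k := Pres F n k ∧ Sy lab src m k` and the finite index set `S0 × {j // j < 4} × {a // a ≤ S} × {b // b ≤ S}`, where `S0` is the finite set of representatives
of the cells (`exists_reps F n`). Requirement for `(x0, j, a, b)` and a condition `g` (with `Sy m g`):
(∃ T, for all `y` in the cell of `x0`, `Fl (v j (ac g y)) (u j (ac g y)) a b T`) or (for all `y` in the cell and all `s`, `¬ Fl (v j (ac g y)) (u j (cp m (ac g y))) a b s`).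
Persistent: `k` with `Q k` maps the cell to itself (`Pres`), so for `y` in the cell use `ac (g * k) y = ac g (ac k y)`. Density: given `g` (with `Sy m g`); if some `y` in the cell and some `s` have
`Fl (v j (ac g y)) (u j (cp m (ac g y))) a b s`, note `cp m (ac g y) = ac g (cp m y)` (`cp_ac`) and `v j (ac g y) = v j (ac g (cp m y))` (`v_cp`, `cp_ac`), so `cp m y` is in the open set
`{y | Fl (v j (ac g y)) (u j (ac g y)) a b s}` (`isOpen_fl`); `sym_len` gives `k` (point `x := y`), `T := s`. `T` of the theorem: the maximum of the finitely many `T`s (`Fl.mono`).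
Final: for arbitrary `x` take the representative of its cell.
-/

set_option autoImplicit false

namespace Pool.Agent.SX

variable {K : Type} [Countable K] {d : Cs} {lab : K → Option ℕ} {src : K → K}
  {v u c c' : ℕ → (K → Cs) → Cs} {e e' : ℕ → (K → Cs) → ℕ}

theorem stA (D : P1 K d lab src v u c c' e e') (m : ℕ) {F : Finset K} (hF : ∀ i ∈ F, Ul lab src m i) (n S : ℕ)
    {h : PM K} (hh : Sy lab src m h) :
    ∃ (k : PM K) (T : ℕ), Pres F n k ∧ Sy lab src m k ∧ ∀ j < 4, ∀ a ≤ S, ∀ b ≤ S, ∀ x,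
      Fl (v j (ac (h * k) x)) (u j (ac (h * k) x)) a b T ∨
        ∀ s, ¬ Fl (v j (ac (h * k) x)) (u j (cp lab src m (ac (h * k) x))) a b s := by
  classical
  obtain ⟨S0, hS0⟩ := exists_reps F n
  obtain ⟨k, ⟨hk1, hk2⟩, hk3⟩ := cw_rel (ι := S0 × Fin 4 × Fin (S + 1) × Fin (S + 1))
    (fun g => Sy lab src m g) (fun k => Pres F n k ∧ Sy lab src m k)
    ⟨Pres.one F n, Sy.one m⟩ (fun k k' hk hk' => ⟨hk.1.mul hk'.1, hk.2.mul hk'.2⟩)
    (fun g k hg hk => hg.mul hk.2)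
    (fun q g => (∃ T, ∀ y : K → Cs, (∀ i ∈ F, Ag n (q.1.1 i) (y i)) →
        Fl (v q.2.1 (ac g y)) (u q.2.1 (ac g y)) q.2.2.1 q.2.2.2 T) ∨
      ∀ y : K → Cs, (∀ i ∈ F, Ag n (q.1.1 i) (y i)) →
        ∀ s, ¬ Fl (v q.2.1 (ac g y)) (u q.2.1 (cp lab src m (ac g y))) q.2.2.1 q.2.2.2 s)
    (by
      intro q g k _ hD hk
      have hcell : ∀ y : K → Cs, (∀ i ∈ F, Ag n (q.1.1 i) (y i)) →
          ∀ i ∈ F, Ag n (q.1.1 i) (ac k y i) :=
        fun y hy i hi => (hy i hi).trans (hk.1 i hi (y i)).symm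
      rcases hD with ⟨T, hT⟩ | hN
      · exact Or.inl ⟨T, fun y hy => hT (ac k y) (hcell y hy)⟩
      · exact Or.inr fun y hy => hN (ac k y) (hcell y hy))
    (by
      intro q g hg
      by_cases hex : ∃ y : K → Cs, (∀ i ∈ F, Ag n (q.1.1 i) (y i)) ∧
          ∃ s, Fl (v q.2.1 (ac g y)) (u q.2.1 (cp lab src m (ac g y))) q.2.2.1 q.2.2.2 s
      · obtain ⟨y, hy, s, hs⟩ := hex
        have hO : IsOpen {y : K → Cs | Fl (v q.2.1 (ac g y)) (u q.2.1 (ac g y)) q.2.2.1 q.2.2.2 s} :=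
          isOpen_fl (v := fun y => v q.2.1 (ac g y)) (u := fun y => u q.2.1 (ac g y))
            ((D.cv _).comp (continuous_ac g)) ((D.cu _).comp (continuous_ac g)) _ _ _
        have hz : cp lab src m y ∈
            {y : K → Cs | Fl (v q.2.1 (ac g y)) (u q.2.1 (ac g y)) q.2.2.1 q.2.2.2 s} := by
          show Fl (v q.2.1 (ac g (cp lab src m y))) (u q.2.1 (ac g (cp lab src m y)))
            q.2.2.1 q.2.2.2 s
          rw [← cp_ac hg, D.v_cp]
          exact hs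
        obtain ⟨k, h1, h2, h3⟩ := sym_len D.src_none hO hz hF n
        refine ⟨k, ⟨h1, h2⟩, Or.inl ⟨s, fun y' hy' => ?_⟩⟩
        exact h3 y' fun i hi => (hy i hi).symm.trans (hy' i hi)
      · refine ⟨1, ⟨Pres.one F n, Sy.one m⟩, Or.inr fun y hy s hs => hex ⟨y, hy, s, ?_⟩⟩
        rw [mul_one] at hs
        exact hs)
    h hh
  have h4 : ∀ q : S0 × Fin 4 × Fin (S + 1) × Fin (S + 1), ∃ T : ℕ,
      (∀ y : K → Cs, (∀ i ∈ F, Ag n (q.1.1 i) (y i)) →
        Fl (v q.2.1 (ac (h * k) y)) (u q.2.1 (ac (h * k) y)) q.2.2.1 q.2.2.2 T) ∨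
      ∀ y : K → Cs, (∀ i ∈ F, Ag n (q.1.1 i) (y i)) →
        ∀ s, ¬ Fl (v q.2.1 (ac (h * k) y)) (u q.2.1 (cp lab src m (ac (h * k) y)))
          q.2.2.1 q.2.2.2 s := by
    intro q
    rcases hk3 q with ⟨T, hT⟩ | hN
    · exact ⟨T, Or.inl hT⟩
    · exact ⟨0, Or.inr hN⟩
  choose T hT using h4
  obtain ⟨T', hT'⟩ := (Set.finite_range T).bddAbove
  refine ⟨k, T', hk1, hk2, fun j hj a ha b hb x => ?_⟩
  obtain ⟨y0, hy0, hy⟩ := hS0 x
  have hx : ∀ i ∈ F, Ag n (y0 i) (x i) := fun i hi => (hy i hi).symm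
  rcases hT (⟨y0, hy0⟩, ⟨j, hj⟩, ⟨a, Nat.lt_succ_of_le ha⟩, ⟨b, Nat.lt_succ_of_le hb⟩) with h5 | h5
  · exact Or.inl ((h5 x hx).mono (hT' ⟨_, rfl⟩))
  · exact Or.inr (h5 x hx)

end Pool.Agent.SX
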