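import Pool.Agent.Lib.SX.Len

/-!
# StB: long common prefixes (about 90 lines)

By `unif_Ag` and `unif` (for `u j ∘ ac h`, `j < 4`, and `e' m ∘ ac h`) there are `J` finite and `L` such that points `y, y'` with `Ag L (y i) (y' i)` for all `i ∈ J` have
`Ag N (u j (ac h y)) (u j (ac h y'))` (`j < 4`) and `e' m (ac h y) = e' m (ac h y')`. Let `k_i = pfxM L 0` for all coordinates `i` with `¬ Ul m i`, and `k_i = 1` for the others (`K` is
countable). Then `Pres F n k` (the coordinates in `F` are unlocked), `Sy m k` (a target with label `≥ m` and its source are both locked). For every `x`: `ac k x` and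
`cp m (ac k x) = ac k (cp m x)` agree at unlocked coordinates (`cp_ul`) and below `L` at the locked ones. `cp m (ac (h*k) x) = ac h (cp m (ac k x))`.
-/

set_option autoImplicit false

namespace Pool.Agent.SX

variable {K : Type} [Countable K] {d : Cs} {lab : K → Option ℕ} {src : K → K}
  {v u c c' : ℕ → (K → Cs) → Cs} {e e' : ℕ → (K → Cs) → ℕ}

theorem stB (D : P1 K d lab src v u c c' e e') (m : ℕ) {F : Finset K} (hF : ∀ i ∈ F, Ul lab src m i) (n N : ℕ)
    {h : PM K} (hh : Sy lab src m h) :
    ∃ k : PM K, Pres F n k ∧ Sy lab src m k ∧ ∀ x,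
      (∀ j < 4, Ag N (u j (ac (h * k) x)) (u j (cp lab src m (ac (h * k) x)))) ∧
        e' m (ac (h * k) x) = e' m (cp lab src m (ac (h * k) x)) := by
  classical
  -- uniform continuity
  choose Fj nj hj using fun j => unif_Ag (b := u j ∘ ac h) ((D.cu j).comp (continuous_ac h)) N
  obtain ⟨F', n', hF'⟩ := unif (φ := e' m ∘ ac h) ((D.ce' m).comp (continuous_ac h))
  set L : ℕ := max ((Finset.range 4).sup nj) n' with hL
  set k : PM K := mkP (fun i => if Ul lab src m i then 1 else pfxM L fun _ => false)
    (Set.to_countable _) with hk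
  have hk1 : ∀ i, Ul lab src m i → k.1 i = 1 := fun i hi => if_pos hi
  have hk2 : ∀ i, ¬ Ul lab src m i → k.1 i = pfxM L fun _ => false := fun i hi => if_neg hi
  have hloc : ∀ i l, lab i = some l → m ≤ l → ¬ Ul lab src m i ∧ ¬ Ul lab src m (src i) :=
    fun i l hl hml => ⟨fun hc => (hc i l hl hml).1 rfl, fun hc => (hc i l hl hml).2 rfl⟩
  have hpf : ∀ x y : Cs, Ag L (pfx L (fun _ => false) x) (pfx L (fun _ => false) y) := by
    intro x y t ht
    unfold pfx
    rw [if_pos ht, if_pos ht]
  have hag : ∀ (x : K → Cs) (i : K), Ag L (ac k x i) (cp lab src m (ac k x) i) := by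
    intro x i
    by_cases hi : Ul lab src m i
    · rw [cp_ul hi]
      exact Ag.refl _ _
    · have e1 : ∀ i', ¬ Ul lab src m i' → ac k x i' = pfx L (fun _ => false) (x i') := by
        intro i' hi'
        rw [ac_apply, hk2 i' hi']
        rfl
      unfold cp
      split_ifs with hc
      · obtain ⟨l, hl, hml⟩ := hc
        rw [e1 i hi, e1 _ (hloc i l hl hml).2]
        exact hpf _ _
      · exact Ag.refl _ _
  refine ⟨k, ?_, ?_, ?_⟩
  · intro i hi x
    rw [hk1 i (hF i hi)]
    exact Ag.refl _ _
  · intro i l hl hml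
    rw [hk2 _ (hloc i l hl hml).1, hk2 _ (hloc i l hl hml).2]
  · intro x
    have e2 : cp lab src m (ac (h * k) x) = ac h (cp lab src m (ac k x)) := by
      rw [ac_mul, cp_ac hh]
    rw [e2, ac_mul]
    constructor
    · intro j hj4
      refine hj j (ac k x) (cp lab src m (ac k x)) fun i _ => (hag x i).mono ?_
      exact (Finset.le_sup (f := nj) (Finset.mem_range.2 hj4)).trans (le_max_left _ _)
    · exact hF' (ac k x) (cp lab src m (ac k x)) fun i _ => (hag x i).mono (le_max_right _ _)

end Pool.Agent.SX
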