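import Pool.Agent.Lib.SX.Len
import Pool.Agent.Lib.SX.CwG

/-!
# StC: the block `m` departs (about 110 lines)

Let `j = sysOf d m`. `cw_rel` (module `CwG`) with `G h := Sy lab src (m + 1) h`, `Q k := Pres F n k ∧ Sy lab src (m + 1) k` and index set = representatives `x0` of the cells (`exists_reps F n`). Requirement for a condition `g` with `Sy (m+1) g`:
∃ S, for all `y` in the cell of `x0`: `Fl (v j (ac g y)) (u j (ac g y)) (e m (ac g y)) (e' m (ac g y)) S`. Persistent as in `StA`. Density: `D.ne m (g * cel F n x0)` gives `z0` with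
`c m (ac g z) ≠ c' m (ac g z)` for `z = ac (cel F n x0) z0` (in the cell). Let `z' = cp (m+1) z` (in the cell, `cp_ul`, `Ul.mono`); `ac g z' = cp (m+1) (ac g z)` (`cp_ac`), so
`c m (ac g z') ≠ c' m (ac g z')` by `c_cp` and `c'_lt`. `fl_of_ne` with `D.idx`, `D.idx'` gives `S` with `Fl ..` at `z'`. The set of the `y` with `e m (ac g y) = e m (ac g z')`, `e' m (ac g y) = e' m (ac g z')`
and `Fl (v j (ac g y)) (u j (ac g y)) (e m (ac g z')) (e' m (ac g z')) S` is open and contains `z'`; `sym_len` (with `m + 1`; `F` is unlocked at `m`, hence at `m + 1`). `S` of the theorem: the maximum (`Fl.mono`).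
-/

set_option autoImplicit false

namespace Pool.Agent.SX

variable {K : Type} [Countable K] {d : Cs} {lab : K → Option ℕ} {src : K → K}
  {v u c c' : ℕ → (K → Cs) → Cs} {e e' : ℕ → (K → Cs) → ℕ}

private def ReqC (d : Cs) (v u : ℕ → (K → Cs) → Cs) (e e' : ℕ → (K → Cs) → ℕ) (m : ℕ) (F : Finset K) (n : ℕ)
    (x0 : K → Cs) (g : PM K) : Prop :=
  ∃ S, ∀ y, (∀ i ∈ F, Ag n (x0 i) (y i)) → Fl (v (sysOf d m) (ac g y)) (u (sysOf d m) (ac g y)) (e m (ac g y))
    (e' m (ac g y)) S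

private theorem reqC_dense (D : P1 K d lab src v u c c' e e') (m : ℕ) {F : Finset K}
    (hF : ∀ i ∈ F, Ul lab src m i) (n : ℕ) (x0 : K → Cs) (g : PM K) (hg : Sy lab src (m + 1) g) :
    ∃ k, (Pres F n k ∧ Sy lab src (m + 1) k) ∧ ReqC d v u e e' m F n x0 (g * k) := by
  obtain ⟨z0, hz0⟩ := D.ne m (g * cel F n x0)
  rw [ac_mul] at hz0
  have hzc : ∀ i ∈ F, Ag n (x0 i) (ac (cel F n x0) z0 i) := fun i hi => cel_at hi x0 z0
  revert hz0 hzc
  generalize ac (cel F n x0) z0 = z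
  intro hz0 hzc
  have h1 : cp lab src (m + 1) (ac g z) = ac g (cp lab src (m + 1) z) := cp_ac hg z
  have hne : c m (ac g (cp lab src (m + 1) z)) ≠ c' m (ac g (cp lab src (m + 1) z)) := by
    rw [← h1, D.c_cp, D.c'_lt m (m + 1) _ (Nat.lt_succ_self m)]
    exact hz0
  obtain ⟨S, hS⟩ := fl_of_ne (D.idx m (ac g (cp lab src (m + 1) z))) (D.idx' m (ac g (cp lab src (m + 1) z))) hne
  have hO1 : IsOpen {y : K → Cs | e m (ac g y) = e m (ac g (cp lab src (m + 1) z))} :=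
    (isOpen_discrete ({e m (ac g (cp lab src (m + 1) z))} : Set ℕ)).preimage ((D.ce m).comp (continuous_ac g))
  have hO2 : IsOpen {y : K → Cs | e' m (ac g y) = e' m (ac g (cp lab src (m + 1) z))} :=
    (isOpen_discrete ({e' m (ac g (cp lab src (m + 1) z))} : Set ℕ)).preimage ((D.ce' m).comp (continuous_ac g))
  have hO3 := isOpen_fl ((D.cv (sysOf d m)).comp (continuous_ac g)) ((D.cu (sysOf d m)).comp (continuous_ac g))
    (e m (ac g (cp lab src (m + 1) z))) (e' m (ac g (cp lab src (m + 1) z))) S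
  obtain ⟨k, hk1, hk2, hk3⟩ := sym_len D.src_none ((hO1.inter hO2).inter hO3) (x := z) (m := m + 1)
    ⟨⟨rfl, rfl⟩, hS⟩ (F := F) (fun i hi => (hF i hi).mono (Nat.le_succ m)) n
  refine ⟨k, ⟨hk1, hk2⟩, S, fun y hy => ?_⟩
  obtain ⟨⟨ha, hb⟩, hc⟩ := hk3 y fun i hi => (hzc i hi).symm.trans (hy i hi)
  change e m (ac (g * k) y) = _ at ha
  change e' m (ac (g * k) y) = _ at hb
  change Fl (v (sysOf d m) (ac (g * k) y)) (u (sysOf d m) (ac (g * k) y)) _ _ S at hc
  rw [ha, hb]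
  exact hc

theorem stC (D : P1 K d lab src v u c c' e e') (m : ℕ) {F : Finset K} (hF : ∀ i ∈ F, Ul lab src m i) (n : ℕ)
    {h : PM K} (hh : Sy lab src m h) :
    ∃ (k : PM K) (S : ℕ), Pres F n k ∧ Sy lab src (m + 1) k ∧ ∀ x,
      Fl (v (sysOf d m) (ac (h * k) x)) (u (sysOf d m) (ac (h * k) x)) (e m (ac (h * k) x))
        (e' m (ac (h * k) x)) S := by
  obtain ⟨R, hR⟩ := exists_reps F n
  obtain ⟨k, ⟨hk1, hk2⟩, hk3⟩ := cw_rel (ι := {x0 // x0 ∈ R}) (Sy lab src (m + 1))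
    (fun k => Pres F n k ∧ Sy lab src (m + 1) k) ⟨Pres.one F n, Sy.one (m + 1)⟩
    (fun k k' hk hk' => ⟨hk.1.mul hk'.1, hk.2.mul hk'.2⟩) (fun g k hg hk => hg.mul hk.2)
    (fun x0 g => ReqC d v u e e' m F n x0.1 g)
    (by
      rintro x0 g k - ⟨S, hS⟩ hk
      refine ⟨S, fun y hy => ?_⟩
      exact hS (ac k y) fun i hi => (hy i hi).trans (hk.1 i hi (y i)).symm)
    (fun x0 g hg => reqC_dense D m hF n x0.1 g hg) h (hh.mono (Nat.le_succ m))
  choose S hS using hk3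
  classical
  refine ⟨k, R.attach.sup S, hk1, hk2, fun x => ?_⟩
  obtain ⟨y, hy, hxy⟩ := hR x
  refine (hS ⟨y, hy⟩ x fun i hi => (hxy i hi).symm).mono ?_
  exact Finset.le_sup (f := S) (Finset.mem_attach R ⟨y, hy⟩)

end Pool.Agent.SX
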