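import Pool.Agent.Lib.SX.StA
import Pool.Agent.Lib.SX.StB
import Pool.Agent.Lib.SX.StC

/-!
# Stg: one stage of the construction (about 90 lines)

`stA` with `S := S1` gives `k1, T`; `N := max (max (S1 + 1) T) E`; `stB` at `h * k1` gives `k2`; `stC` at `h * k1 * k2` gives `k3`, `S`; `k := k1 * k2 * k3`, `S2 := max S N`. The statements of `stA`, `stB` hold for all `x`, so
they persist: `ac (h * (k1 * k2 * k3)) x = ac (h * k1) (ac (k2 * k3) x)` (`ac_mul`, `mul_assoc`). `Sy.mono`, `Sy.mul`, `Pres.mul`, `Fl.mono`.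
-/

set_option autoImplicit false

namespace Pool.Agent.SX

variable {K : Type} [Countable K] {d : Cs} {lab : K → Option ℕ} {src : K → K}
  {v u c c' : ℕ → (K → Cs) → Cs} {e e' : ℕ → (K → Cs) → ℕ}

theorem stg (D : P1 K d lab src v u c c' e e') (m : ℕ) {F : Finset K} (hF : ∀ i ∈ F, Ul lab src m i) (n S1 E : ℕ)
    {h : PM K} (hh : Sy lab src m h) :
    ∃ (k : PM K) (T N S2 : ℕ), Pres F n k ∧ Sy lab src (m + 1) k ∧ S1 < N ∧ T ≤ N ∧ E ≤ N ∧ N ≤ S2 ∧
      (∀ j < 4, ∀ a ≤ S1, ∀ b ≤ S1, ∀ x, Fl (v j (ac (h * k) x)) (u j (ac (h * k) x)) a b T ∨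
        ∀ s, ¬ Fl (v j (ac (h * k) x)) (u j (cp lab src m (ac (h * k) x))) a b s) ∧
      (∀ j < 4, ∀ x, Ag N (u j (ac (h * k) x)) (u j (cp lab src m (ac (h * k) x)))) ∧
      (∀ x, e' m (ac (h * k) x) = e' m (cp lab src m (ac (h * k) x))) ∧
      ∀ x, Fl (v (sysOf d m) (ac (h * k) x)) (u (sysOf d m) (ac (h * k) x)) (e m (ac (h * k) x))
        (e' m (ac (h * k) x)) S2 := by
  obtain ⟨k1, T, p1, s1, A⟩ := stA D m hF n S1 hh
  obtain ⟨k2, p2, s2, B⟩ := stB D m hF n (max (max (S1 + 1) T) E) (Sy.mul hh s1)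
  obtain ⟨k3, S, p3, s3, C⟩ := stC D m hF n (Sy.mul (Sy.mul hh s1) s2)
  have e1 : h * (k1 * k2 * k3) = h * k1 * (k2 * k3) := by simp only [mul_assoc]
  have e2 : h * (k1 * k2 * k3) = h * k1 * k2 * k3 := by simp only [mul_assoc]
  have f1 : ∀ x, ac (h * (k1 * k2 * k3)) x = ac (h * k1) (ac (k2 * k3) x) := by
    intro x
    rw [e1]
    rfl
  have f2 : ∀ x, ac (h * (k1 * k2 * k3)) x = ac (h * k1 * k2) (ac k3 x) := by
    intro x
    rw [e2]
    rfl
  refine ⟨k1 * k2 * k3, T, max (max (S1 + 1) T) E, max S (max (max (S1 + 1) T) E), ?_, ?_, ?_, ?_, ?_, ?_, ?_, ?_, ?_, ?_⟩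
  · intro i hi x
    have q1 : Ag n ((k1.1 i).f ((k2.1 i).f ((k3.1 i).f x))) ((k2.1 i).f ((k3.1 i).f x)) := p1 i hi _
    have q2 : Ag n ((k2.1 i).f ((k3.1 i).f x)) ((k3.1 i).f x) := p2 i hi _
    have q3 : Ag n ((k3.1 i).f x) x := p3 i hi _
    intro l hl
    exact ((q1 l hl).trans (q2 l hl)).trans (q3 l hl)
  · exact Sy.mul (Sy.mono (Sy.mul s1 s2) (Nat.le_succ m)) s3
  · exact lt_of_lt_of_le (Nat.lt_succ_self S1) ((le_max_left _ _).trans (le_max_left _ _))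
  · exact (le_max_right _ _).trans (le_max_left _ _)
  · exact le_max_right _ _
  · exact le_max_right _ _
  · intro j hj a ha b hb x
    rw [f1]
    exact A j hj a ha b hb _
  · intro j hj x
    rw [f2]
    exact (B _).1 j hj
  · intro x
    rw [f2]
    exact (B _).2
  · intro x
    rw [e2]
    exact (C x).mono (le_max_left _ _)

end Pool.Agent.SX
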